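import Pool.Agent.Lib_helper40.Kal.Reduce

/-!
Edges and connectivity in reduced families.
-/

set_option autoImplicit false
set_option linter.unusedSectionVars false

namespace Pool.Agent.Lib_helper40.Kal

open Finset Submodule

universe u v
variable {ι : Type u} [DecidableEq ι] {V : Type v} [AddCommGroup V] [Module ℝ V]

/-- adjacency: `{i, j}` is an edge -/
def Adj (p : ι → V) (s : Finset ι) (i j : ι) : Prop :=
  i ≠ j ∧ IsFace p s {i, j}

lemma Adj.symm {p : ι → V} {s : Finset ι} {i j : ι} (h : Adj p s i j) : Adj p s j i :=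
  ⟨h.1.symm, by rw [pair_comm]; exact h.2⟩

lemma Adj.left {p : ι → V} {s : Finset ι} {i j : ι} (h : Adj p s i j) : i ∈ s :=
  h.2.1 (by simp)

lemma Adj.right {p : ι → V} {s : Finset ι} {i j : ι} (h : Adj p s i j) : j ∈ s :=
  h.2.1 (by simp)

lemma adj_restrict {p : ι → V} {s F : Finset ι} (hF : IsFace p s F) {i j : ι} (hi : i ∈ F)
    (hj : j ∈ F) : Adj p F i j ↔ Adj p s i j := by
  unfold Adj
  rw [isFace_restrict hF]
  constructor
  · rintro ⟨h1, h2, _⟩; exact ⟨h1, h2⟩
  · rintro ⟨h1, h2⟩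
    refine ⟨h1, h2, ?_⟩
    intro k hk
    rw [mem_insert, mem_singleton] at hk
    rcases hk with rfl | rfl <;> assumption

lemma rk_pair_le (p : ι → V) (i j : ι) : rk p {i, j} ≤ 2 := by
  classical
  unfold rk
  have h1 : p '' (({i, j} : Finset ι) : Set ι) = ((({i, j} : Finset ι).image p : Finset V) : Set V) := by
    rw [coe_image]
  rw [h1]
  have h2 : (({i, j} : Finset ι).image p).card ≤ 2 := card_image_le.trans card_le_two
  exact (finrank_span_finset_le_card (R := ℝ) (({i, j} : Finset ι).image p)).trans h2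

lemma Adj.rk_eq {p : ι → V} {s : Finset ι} (h0 : IsFace p s ∅) (hr : Red p s) {i j : ι}
    (h : Adj p s i j) : rk p {i, j} = 2 := by
  have h1 := rk_pair_le p i j
  have h2 := (hr i h.left).rk_lt h.2.1 (J := {i, j}) (by
    refine ⟨by intro k hk; simp at hk; simp [hk], fun h3 => ?_⟩
    have := h3 (by simp : j ∈ ({i, j} : Finset ι))
    rw [mem_singleton] at this
    exact h.1 this.symm)
  rw [Red.rk_one h0 h.left] at h2
  omega

lemma Red.edge_card {p : ι → V} {s E : Finset ι} (h0 : IsFace p s ∅) (hr : Red p s)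
    (hE : E ∈ facesR p s 2) : E.card = 2 := by
  rw [mem_facesR] at hE
  have h0' : IsFace p E ∅ := (isFace_restrict hE.1).2 ⟨h0, empty_subset _⟩
  rw [← (hr.restrict hE.1).card_facesR_one h0']
  exact card_rank_two h0' hE.2

lemma Red.edge_eq {p : ι → V} {s E : Finset ι} (h0 : IsFace p s ∅) (hr : Red p s)
    (hE : E ∈ facesR p s 2) {i : ι} (hi : i ∈ E) : ∃ k, E = {i, k} ∧ Adj p s i k := by
  obtain ⟨a, b, hab, rfl⟩ := card_eq_two.1 (hr.edge_card h0 hE)
  rw [mem_facesR] at hE
  rw [mem_insert, mem_singleton] at hi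
  rcases hi with rfl | rfl
  · exact ⟨b, rfl, hab, hE.1⟩
  · exact ⟨a, pair_comm _ _, hab.symm, by rw [pair_comm]; exact hE.1⟩

/-- the simplex step -/
lemma exists_adj_pos {p : ι → V} {s : Finset ι} (h0 : IsFace p s ∅) (hr : Red p s)
    (h : V →ₗ[ℝ] ℝ) {i j : ι} (hi : i ∈ s) (hi0 : h (p i) = 0) (hj : j ∈ s) (hjp : 0 < h (p j)) :
    ∃ k, Adj p s i k ∧ 0 < h (p k) := by
  have hker : span ℝ (p '' (({i} : Finset ι) : Set ι)) ≤ LinearMap.ker h :=
    le_ker_of_zero (by intro k hk; rw [mem_singleton] at hk; rw [hk]; exact hi0)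
  set hb : (V ⧸ span ℝ (p '' (({i} : Finset ι) : Set ι))) →ₗ[ℝ] ℝ := liftQ _ h hker with hhb
  have hbv : ∀ k, hb (qf p {i} k) = h (p k) := fun k => by simp [hhb, qf]
  have hi' := hr i hi
  have hq0 := pointed_interval hi' (isFace_self p s) hi'.1
  have hji : j ≠ i := by rintro rfl; rw [hi0] at hjp; exact lt_irrefl _ hjp
  obtain ⟨R, hR, hpos⟩ := exists_ray_pos hq0 hb (i₀ := j)
    (by rw [mem_sdiff, mem_singleton]; exact ⟨hj, hji⟩) (by rw [hbv]; exact hjp)
  rw [mem_facesR, isFace_quot hi'.1] at hR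
  obtain ⟨⟨hR1, hR2⟩, hR3⟩ := hR
  have hE : ({i} ∪ R) ∈ facesR p s 2 := by
    rw [mem_facesR]
    refine ⟨hR2, ?_⟩
    have := rk_quot p {i} R
    rw [hR3, Red.rk_one h0 hi] at this
    omega
  obtain ⟨k, hk, hadj⟩ := hr.edge_eq h0 hE (i := i) (by simp)
  refine ⟨k, hadj, ?_⟩
  have : k ∈ ({i} ∪ R : Finset ι) := by rw [hk]; simp
  rw [mem_union, mem_singleton] at this
  rcases this with rfl | h1
  · exact absurd rfl hadj.1
  · have := hpos k h1
    rwa [hbv] at this

/-- connectivity of the part of the graph where a functional is positive -/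
lemma connected_pos {p : ι → V} {s : Finset ι} (h0 : IsFace p s ∅) (hr : Red p s)
    (h : V →ₗ[ℝ] ℝ) {Z : Finset ι} (hZs : ∀ i ∈ Z, i ∈ s ∧ 0 < h (p i)) (hne : Z.Nonempty)
    (hcl : ∀ i ∈ Z, ∀ k, Adj p s i k → 0 < h (p k) → k ∈ Z) {w : ι} (hw : w ∈ s)
    (hwp : 0 < h (p w)) : w ∈ Z := by
  obtain ⟨_, ρ, ρ0, ρp⟩ := hr w hw
  have ρw : ρ (p w) = 0 := ρ0 w (mem_singleton_self w)
  obtain ⟨i, hi, hmin⟩ := exists_min_image Z (fun i => ρ (p i) / h (p i)) hne
  obtain ⟨his, hip⟩ := hZs i hi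
  by_cases hiw : i = w
  · rwa [hiw] at hi
  · exfalso
    have hρi : 0 < ρ (p i) := ρp i his (by rw [mem_singleton]; exact hiw)
    set c := ρ (p i) / h (p i) with hc
    have hcp : 0 < c := div_pos hρi hip
    obtain ⟨k, hk, hkp⟩ := exists_adj_pos h0 hr (c • h - ρ) his (by
      simp only [LinearMap.sub_apply, LinearMap.smul_apply, smul_eq_mul, hc]
      field_simp
      ring) hw (by
      simp only [LinearMap.sub_apply, LinearMap.smul_apply, smul_eq_mul, ρw]
      have := mul_pos hcp hwp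
      linarith)
    simp only [LinearMap.sub_apply, LinearMap.smul_apply, smul_eq_mul] at hkp
    have hρk : 0 ≤ ρ (p k) := by
      by_cases hkw : k = w
      · rw [hkw, ρw]
      · exact (ρp k hk.right (by rw [mem_singleton]; exact hkw)).le
    have hhk : 0 < h (p k) := by
      by_contra hn
      push Not at hn
      have := mul_nonpos_of_nonneg_of_nonpos hcp.le hn
      linarith
    have := hmin k (hcl i hi k hk hhk)
    rw [le_div_iff₀ hhk] at this
    linarith

/-- neighbours of `v` -/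
noncomputable def nb (p : ι → V) (s : Finset ι) (v : ι) : Finset ι := by
  classical exact s.filter fun k => Adj p s v k

lemma mem_nb {p : ι → V} {s : Finset ι} {v k : ι} : k ∈ nb p s v ↔ Adj p s v k := by
  classical
  unfold nb
  rw [mem_filter]
  exact ⟨fun h => h.2, fun h => ⟨h.right, h⟩⟩

lemma nb_span {p : ι → V} {s : Finset ι} (h0 : IsFace p s ∅) (hr : Red p s) {v : ι}
    (hv : v ∈ s) : span ℝ (p '' ((insert v (nb p s v) : Finset ι) : Set ι)) =
      span ℝ (p '' (s : Set ι)) := by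
  apply le_antisymm
  · apply span_mono (Set.image_mono _)
    intro k hk
    rw [mem_coe, mem_insert, mem_nb] at hk
    rcases hk with rfl | hk
    · exact hv
    · exact hk.right
  · rw [span_le]
    rintro _ ⟨i, hi, rfl⟩
    by_contra hn
    obtain ⟨m, hm0, hmi⟩ := exists_dual_of_notMem hn
    have key : ∀ m : V →ₗ[ℝ] ℝ,
        (∀ w ∈ span ℝ (p '' ((insert v (nb p s v) : Finset ι) : Set ι)), m w = 0) →
        0 < m (p i) → False := by
      intro m hm0 hmi
      obtain ⟨k, hk, hkp⟩ := exists_adj_pos h0 hr m hv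
        (hm0 _ (subset_span (Set.mem_image_of_mem p (by simp)))) hi hmi
      have := hm0 _ (subset_span (Set.mem_image_of_mem p (x := k) (by simp [mem_nb.2 hk])))
      linarith
    rcases lt_or_gt_of_ne hmi with h1 | h1
    · exact key (-m) (fun w hw => by simp [hm0 w hw]) (by simpa using h1)
    · exact key m hm0 h1

/-- in a rank three face through the edge `i k` there is exactly one other neighbour of `i` -/
lemma exists_other {p : ι → V} {s T : Finset ι} (h0 : IsFace p s ∅) (hr : Red p s)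
    (hT : T ∈ facesR p s 3) {i k : ι} (hik : Adj p s i k) (hi : i ∈ T) (hk : k ∈ T) :
    ∃ l, l ≠ k ∧ Adj p s i l ∧ l ∈ T ∧ ∀ m ∈ T, Adj p s i m → m = k ∨ m = l := by
  rw [mem_facesR] at hT
  have his := hik.left
  have hrki : rk p {i} = 1 := Red.rk_one h0 his
  have hd := card_diamond (hr i his) hT.1 (by simpa using hi) (by omega)
  rw [hrki] at hd
  norm_num at hd
  have hEk : ({i, k} : Finset ι) ∈ mid p s {i} T 2 := by
    rw [mem_mid]
    refine ⟨⟨hik.2, hik.rk_eq h0 hr⟩, by intro j; simp; tauto, ?_⟩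
    intro j hj
    rw [mem_insert, mem_singleton] at hj
    rcases hj with rfl | rfl <;> assumption
  obtain ⟨E, hE, hne⟩ := exists_mem_ne (by omega : 1 < (mid p s {i} T 2).card) {i, k}
  have hE' := mem_mid.1 hE
  obtain ⟨l, rfl, hil⟩ := hr.edge_eq h0 (mem_facesR.2 hE'.1) (hE'.2.1 (mem_singleton_self i))
  refine ⟨l, fun h => hne (by rw [h]), hil, hE'.2.2 (by simp), ?_⟩
  intro m hm him
  have hEm : ({i, m} : Finset ι) ∈ mid p s {i} T 2 := by
    rw [mem_mid]
    refine ⟨⟨him.2, him.rk_eq h0 hr⟩, by intro j; simp; tauto, ?_⟩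
    intro j hj
    rw [mem_insert, mem_singleton] at hj
    rcases hj with rfl | rfl <;> assumption
  by_contra hcon
  push Not at hcon
  have hpair : ∀ a b : ι, i ≠ a → ({i, a} : Finset ι) = {i, b} → a = b := by
    intro a b ha hab
    have : a ∈ ({i, b} : Finset ι) := by rw [← hab]; simp
    rw [mem_insert, mem_singleton] at this
    rcases this with h | h
    · exact absurd h.symm ha
    · exact h
  have hthree : ({({i, k} : Finset ι), {i, l}, {i, m}} : Finset (Finset ι)) ⊆ mid p s {i} T 2 := by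
    intro E hE2
    simp only [mem_insert, mem_singleton] at hE2
    rcases hE2 with rfl | rfl | rfl
    · exact hEk
    · exact hE
    · exact hEm
  have hc := card_le_card hthree
  rw [card_insert_of_notMem, card_insert_of_notMem, card_singleton] at hc
  · omega
  · rw [mem_singleton]
    intro h
    exact hcon.2 (hpair l m hil.1 h).symm
  · simp only [mem_insert, mem_singleton, not_or]
    constructor
    · intro h; exact hne h.symm
    · intro h; exact hcon.1 (hpair k m hik.1 h).symm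

/-- a codimension two face is in exactly two facets -/
lemma exists_two_facets {p : ι → V} {s E : Finset ι} {r : ℕ} (hE : E ∈ facesR p s r)
    (hs : rk p s = r + 2) :
    ∃ T T', T ∈ facesR p s (r + 1) ∧ T' ∈ facesR p s (r + 1) ∧ T ≠ T' ∧ E ⊆ T ∧ E ⊆ T' ∧
      T ∩ T' = E ∧ ∀ T'' ∈ facesR p s (r + 1), E ⊆ T'' → T'' = T ∨ T'' = T' := by
  rw [mem_facesR] at hE
  have hd := card_diamond hE.1 (isFace_self p s) hE.1.1 (by omega)
  rw [hE.2] at hd
  obtain ⟨T, T', hne, hTT⟩ := card_eq_two.1 hd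
  have h1 : T ∈ mid p s E s (r + 1) := by rw [hTT]; simp
  have h2 : T' ∈ mid p s E s (r + 1) := by rw [hTT]; simp
  rw [mem_mid] at h1 h2
  refine ⟨T, T', mem_facesR.2 h1.1, mem_facesR.2 h2.1, hne, h1.2.1, h2.2.1, ?_, ?_⟩
  · have hin := h1.1.1.inter h2.1.1
    have hsub : E ⊆ T ∩ T' := subset_inter h1.2.1 h2.2.1
    symm
    apply hE.1.eq_of_rk_le hin.1 hsub
    have hlt : rk p (T ∩ T') < rk p T := by
      apply hin.rk_lt h1.1.1.1
      refine ⟨inter_subset_left, fun h3 => hne ?_⟩
      have h4 : T ⊆ T' := h3.trans inter_subset_right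
      exact h1.1.1.eq_of_rk_le h2.1.1.1 h4 (by omega)
    omega
  · intro T'' hT'' hET
    have : T'' ∈ mid p s E s (r + 1) := by
      rw [mem_mid]
      exact ⟨mem_facesR.1 hT'', hET, (mem_facesR.1 hT'').1.1⟩
    rw [hTT] at this
    simpa using this

end Pool.Agent.Lib_helper40.Kal
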