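import Pool.Agent.Lib_helper40.Kal.Fam2

set_option autoImplicit false
set_option linter.unusedSectionVars false

namespace Pool.Agent.Lib_helper40.Kal

open Finset Submodule

universe u v
variable {ι : Type u} [DecidableEq ι] {V : Type v} [AddCommGroup V] [Module ℝ V]

/-- slack of an index -/
noncomputable def slk (p : ι → V) (h l : V →ₗ[ℝ] ℝ) (a b : ℝ) (i : ι) : ℝ :=
  l (p i) + (if 0 < h (p i) then a else b) * h (p i)

/-- Data for the extremal argument. -/
def GoodZ (p : ι → V) (s : Finset ι) (h : V →ₗ[ℝ] ℝ) (Z : Finset ι) : Prop :=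
  ∃ (l : V →ₗ[ℝ] ℝ) (a b : ℝ), a < b ∧ (∀ i ∈ s, 0 ≤ slk p h l a b i) ∧
    Z = s.filter fun i => slk p h l a b i = 0

lemma GoodZ.faceA {p : ι → V} {s : Finset ι} {h : V →ₗ[ℝ] ℝ} {Z : Finset ι}
    (hh : ∀ i ∈ s, h (p i) ≠ 0) (hZ : GoodZ p s h Z) :
    IsFace p s (Z.filter fun i => 0 < h (p i)) := by
  obtain ⟨l, a, b, hab, hpos, rfl⟩ := hZ
  refine ⟨(filter_subset _ _).trans (filter_subset _ _), l + a • h, ?_, ?_⟩
  · intro i hi
    simp only [mem_filter] at hi
    have := hi.1.2
    simp only [slk, hi.2, if_true] at this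
    simpa using this
  · intro i hi hn
    simp only [mem_filter, not_and] at hn
    simp only [LinearMap.add_apply, LinearMap.smul_apply, smul_eq_mul]
    have h0 := hpos i hi
    rcases lt_or_gt_of_ne (hh i hi) with h1 | h1
    · simp only [slk, not_lt.2 h1.le, if_false] at h0
      nlinarith
    · have h2 : slk p h l a b i ≠ 0 := fun h2 => hn ⟨hi, h2⟩ h1
      have h3 : 0 < slk p h l a b i := lt_of_le_of_ne h0 (Ne.symm h2)
      simpa only [slk, h1, if_true] using h3

lemma GoodZ.faceB {p : ι → V} {s : Finset ι} {h : V →ₗ[ℝ] ℝ} {Z : Finset ι}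
    (hh : ∀ i ∈ s, h (p i) ≠ 0) (hZ : GoodZ p s h Z) :
    IsFace p s (Z.filter fun i => h (p i) < 0) := by
  obtain ⟨l, a, b, hab, hpos, rfl⟩ := hZ
  refine ⟨(filter_subset _ _).trans (filter_subset _ _), l + b • h, ?_, ?_⟩
  · intro i hi
    simp only [mem_filter] at hi
    have := hi.1.2
    simp only [slk, not_lt.2 hi.2.le, if_false] at this
    simpa using this
  · intro i hi hn
    simp only [mem_filter, not_and] at hn
    simp only [LinearMap.add_apply, LinearMap.smul_apply, smul_eq_mul]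
    have h0 := hpos i hi
    rcases lt_or_gt_of_ne (hh i hi) with h1 | h1
    · have h2 : slk p h l a b i ≠ 0 := fun h2 => hn ⟨hi, h2⟩ h1
      have h3 : 0 < slk p h l a b i := lt_of_le_of_ne h0 (Ne.symm h2)
      simpa only [slk, not_lt.2 h1.le, if_false] using h3
    · simp only [slk, h1, if_true] at h0
      nlinarith

/-- **Uncut faces lemma.** A hyperplane missing all vectors of a pointed family leaves two uncut
faces, one on each side, whose ranks add up to at least the rank of the family. -/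
theorem exists_uncut {p : ι → V} {s : Finset ι} (h0 : IsFace p s ∅) (h : V →ₗ[ℝ] ℝ)
    (hh : ∀ i ∈ s, h (p i) ≠ 0) :
    ∃ FA FB, IsFace p s FA ∧ IsFace p s FB ∧ (∀ i ∈ FA, 0 < h (p i)) ∧ (∀ i ∈ FB, h (p i) < 0) ∧
      rk p s ≤ rk p FA + rk p FB := by
  classical
  let P : Finset (Finset ι) := s.powerset.filter (GoodZ p s h)
  have hP : P.Nonempty := by
    obtain ⟨_, lam, _, lpos⟩ := h0
    have lpos' : ∀ i ∈ s, 0 < lam (p i) := fun i hi => lpos i hi (by simp)
    obtain ⟨M, hM⟩ := exists_bound s (fun i => |h (p i)| / lam (p i))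
    set d : ℝ := 1 / (max M 0 + 1) with hd
    have hdpos : 0 < d := by positivity
    refine ⟨s.filter fun i => slk p h lam (-d) d i = 0, ?_⟩
    simp only [P, mem_filter, mem_powerset]
    refine ⟨filter_subset _ _, lam, -d, d, by linarith, ?_, rfl⟩
    intro i hi
    have h1 : |h (p i)| ≤ (max M 0 + 1) * lam (p i) := by
      have := hM i hi
      rw [div_le_iff₀ (lpos' i hi)] at this
      have h2 : M ≤ max M 0 + 1 := (le_max_left _ _).trans (by linarith)
      nlinarith [lpos' i hi]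
    have h2 : d * |h (p i)| ≤ lam (p i) := by
      rw [hd, one_div, inv_mul_le_iff₀ (by positivity)]
      exact h1
    unfold slk
    split_ifs with h3
    · rw [abs_of_pos h3] at h2; linarith
    · rw [abs_of_nonpos (not_lt.1 h3)] at h2; linarith
  obtain ⟨Z, hZ, hmax⟩ := exists_max_image P
    (fun Z => rk p (Z.filter fun i => 0 < h (p i)) + rk p (Z.filter fun i => h (p i) < 0)) hP
  simp only [P, mem_filter, mem_powerset] at hZ hmax
  obtain ⟨hZs, hZg⟩ := hZ
  have hA := hZg.faceA hh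
  have hB := hZg.faceB hh
  refine ⟨_, _, hA, hB, fun i hi => (mem_filter.1 hi).2, fun i hi => (mem_filter.1 hi).2, ?_⟩
  by_contra hcon
  push Not at hcon
  set FA := Z.filter fun i => 0 < h (p i) with hFA
  set FB := Z.filter fun i => h (p i) < 0 with hFB
  have hZU : Z = FA ∪ FB := by
    ext i
    simp only [hFA, hFB, mem_union, mem_filter]
    constructor
    · intro hi
      rcases lt_or_gt_of_ne (hh i (hZs hi)) with h1 | h1
      · exact Or.inr ⟨hi, h1⟩
      · exact Or.inl ⟨hi, h1⟩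
    · rintro (hi | hi) <;> exact hi.1
  have hrk : rk p Z < rk p s := by
    have h1 : rk p Z ≤ rk p FA + rk p FB := by
      unfold rk
      rw [hZU, span_image_union]
      exact Submodule.finrank_add_le_finrank_add_finrank _ _
    omega
  obtain ⟨k, hk, hkW⟩ : ∃ k ∈ s, p k ∉ span ℝ (p '' (Z : Set ι)) := by
    by_contra hc
    push Not at hc
    have : span ℝ (p '' (s : Set ι)) ≤ span ℝ (p '' (Z : Set ι)) := by
      rw [span_le]
      rintro _ ⟨i, hi, rfl⟩
      exact hc i hi
    exact absurd (Submodule.finrank_mono this) (not_le.2 hrk)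
  obtain ⟨m, hmZ, hmk⟩ : ∃ m : V →ₗ[ℝ] ℝ, (∀ i ∈ Z, m (p i) = 0) ∧ m (p k) < 0 := by
    obtain ⟨m, hm0, hmk⟩ := exists_dual_of_notMem hkW
    rcases lt_or_gt_of_ne hmk with h1 | h1
    · exact ⟨m, fun i hi => hm0 _ (subset_span (Set.mem_image_of_mem p hi)), h1⟩
    · exact ⟨-m, fun i hi => by
        simp [hm0 _ (subset_span (Set.mem_image_of_mem p hi))], by simpa using h1⟩
  obtain ⟨l, a, b, hab, hpos, hZeq⟩ := hZg
  have hne : (s.filter fun i => m (p i) < 0).Nonempty := ⟨k, mem_filter.2 ⟨hk, hmk⟩⟩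
  obtain ⟨c, hc, hcmin⟩ := exists_min_image _ (fun i => slk p h l a b i / (- m (p i))) hne
  rw [mem_filter] at hc
  set t := slk p h l a b c / (- m (p c)) with ht
  have ht0 : 0 ≤ t := div_nonneg (hpos c hc.1) (by linarith [hc.2])
  have hslk : ∀ i, slk p h (l + t • m) a b i = slk p h l a b i + t * m (p i) := by
    intro i
    simp only [slk, LinearMap.add_apply, LinearMap.smul_apply, smul_eq_mul]
    ring
  have hgood : ∀ i ∈ s, 0 ≤ slk p h (l + t • m) a b i := by
    intro i hi
    rw [hslk]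
    rcases lt_or_ge (m (p i)) 0 with h1 | h1
    · have := hcmin i (mem_filter.2 ⟨hi, h1⟩)
      rw [le_div_iff₀ (by linarith)] at this
      linarith
    · have := hpos i hi
      have := mul_nonneg ht0 h1
      linarith
  set Z' := s.filter fun i => slk p h (l + t • m) a b i = 0 with hZ'
  have hZ'g : GoodZ p s h Z' := ⟨_, a, b, hab, hgood, rfl⟩
  have hsub : Z ⊆ Z' := by
    intro i hi
    rw [hZ', mem_filter, hslk, hmZ i hi]
    rw [hZeq, mem_filter] at hi
    exact ⟨hi.1, by rw [hi.2]; ring⟩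
  have hcZ' : c ∈ Z' := by
    rw [hZ', mem_filter, hslk]
    refine ⟨hc.1, ?_⟩
    rw [ht]
    have : - m (p c) ≠ 0 := by linarith [hc.2]
    have h2 : m (p c) ≠ 0 := by linarith [hc.2]
    field_simp
    ring
  have hcZ : c ∉ Z := fun h1 => by rw [hmZ c h1] at hc; exact lt_irrefl _ hc.2
  have h1 := hmax Z' ⟨filter_subset _ _, hZ'g⟩
  have hA' := hZ'g.faceA hh
  have hB' := hZ'g.faceB hh
  have hAA : FA ⊆ Z'.filter fun i => 0 < h (p i) := filter_subset_filter _ hsub
  have hBB : FB ⊆ Z'.filter fun i => h (p i) < 0 := filter_subset_filter _ hsub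
  rcases lt_or_gt_of_ne (hh c hc.1) with h2 | h2
  · have := hB.rk_lt hB'.1 ⟨hBB, fun h3 => hcZ (mem_filter.1 (h3 (mem_filter.2 ⟨hcZ', h2⟩))).1⟩
    have := rk_mono (p := p) hAA
    omega
  · have := hA.rk_lt hA'.1 ⟨hAA, fun h3 => hcZ (mem_filter.1 (h3 (mem_filter.2 ⟨hcZ', h2⟩))).1⟩
    have := rk_mono (p := p) hBB
    omega

end Pool.Agent.Lib_helper40.Kal
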