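import Pool.Agent.Lib_helper40.Kal.Count

/-!
The inequality `f₁ + f₀₂ - 3 f₂ ≥ 4 f₀ - 10` for 4-polytopes (rank five families).
-/

set_option autoImplicit false
set_option linter.unusedSectionVars false

namespace Pool.Agent.Lib_helper40.Kal

open Finset Submodule

universe u v
variable {ι : Type u} [DecidableEq ι] {V : Type v} [AddCommGroup V] [Module ℝ V]

/-- restriction of a family to a subspace -/
lemma exists_proj (W : Submodule ℝ V) : ∃ f : V →ₗ[ℝ] W, ∀ x (hx : x ∈ W), f x = ⟨x, hx⟩ := by
  obtain ⟨f, hf⟩ := LinearMap.exists_leftInverse_of_injective W.subtype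
    (LinearMap.ker_eq_bot.2 W.injective_subtype)
  refine ⟨f, fun x hx => ?_⟩
  have := congrArg (fun h => h ⟨x, hx⟩) hf
  simpa using this

lemma facesR_map {V' : Type*} [AddCommGroup V'] [Module ℝ V'] {p : ι → V} {s : Finset ι}
    (f : V →ₗ[ℝ] V') (hf : ∀ w ∈ span ℝ (p '' (s : Set ι)), f w = 0 → w = 0) (r : ℕ) :
    facesR (fun i => f (p i)) s r = facesR p s r := by
  ext J
  rw [mem_facesR, mem_facesR, isFace_map f hf]
  constructor
  · rintro ⟨h1, h2⟩; exact ⟨h1, by rw [← rk_map f hf h1.1]; exact h2⟩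
  · rintro ⟨h1, h2⟩; exact ⟨h1, by rw [rk_map f hf h1.1]; exact h2⟩

lemma facesR_restrict {p : ι → V} {s F T : Finset ι} (hF : IsFace p s F) {r : ℕ} :
    T ∈ facesR p F r ↔ T ∈ facesR p s r ∧ T ⊆ F := by
  rw [mem_facesR, mem_facesR, isFace_restrict hF]
  tauto

/-- motions of `s` satisfying the constraints in `T` -/
def conIn (p : ι → V) (s T : Finset ι) : Submodule ℝ ({i // i ∈ s} → (V →ₗ[ℝ] ℝ)) where
  carrier := {Z | Con p (extz s _ Z) T}
  add_mem' := by
    intro a b ha hb i hi j hj
    have h1 := ha i hi j hj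
    have h2 := hb i hi j hj
    simp only [map_add, Pi.add_apply, LinearMap.add_apply]
    linarith
  zero_mem' := by
    intro i hi j hj
    simp
  smul_mem' := by
    intro c a ha i hi j hj
    have h1 := ha i hi j hj
    simp only [map_smul, Pi.smul_apply, LinearMap.smul_apply, smul_eq_mul]
    rw [← mul_add, h1, mul_zero]

lemma codim_con [FiniteDimensional ℝ V] {p : ι → V} {s T : Finset ι} (h0 : IsFace p s ∅)
    (hr : Red p s) (hT : T ∈ facesR p s 3) :
    Module.finrank ℝ (LinearMap.ker (conMap p s)) + 3 ≤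
      Module.finrank ℝ (LinearMap.ker (conMap p s) ⊓ conIn p s T : Submodule ℝ _) + T.card := by
  classical
  have hT' := mem_facesR.1 hT
  set W := span ℝ (p '' (T : Set ι)) with hW
  have hWr : Module.finrank ℝ W = 3 := hT'.2
  obtain ⟨f, hf⟩ := exists_proj W
  have hinj : ∀ w ∈ span ℝ (p '' (T : Set ι)), f w = 0 → w = 0 := by
    intro w hw h
    rw [hf w hw] at h
    exact congrArg Subtype.val h
  have hmem : ∀ i ∈ T, p i ∈ W := fun i hi => subset_span (Set.mem_image_of_mem p hi)
  set pT : ι → W := fun i => f (p i) with hpT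
  have hpTv : ∀ i ∈ T, ((pT i : W) : V) = p i := by
    intro i hi
    rw [hpT]
    simp only [hf _ (hmem i hi)]
  have h0T : IsFace pT T ∅ :=
    (isFace_map f hinj).2 ((isFace_restrict hT'.1).2 ⟨h0, empty_subset _⟩)
  have hrT : Red pT T := fun i hi => (isFace_map f hinj).2 (hr.restrict hT'.1 i hi)
  have hrkT : rk pT T = 3 := by rw [hpT, rk_map f hinj (Subset.refl _)]; exact hT'.2
  let ρ : ({i // i ∈ s} → (V →ₗ[ℝ] ℝ)) →ₗ[ℝ] ({i // i ∈ T} → (W →ₗ[ℝ] ℝ)) :=
    { toFun := fun Y i => (Y ⟨i.1, hT'.1.1 i.2⟩) ∘ₗ W.subtype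
      map_add' := fun Y Y' => by funext i; ext x; simp
      map_smul' := fun c Y => by funext i; ext x; simp }
  have hρ : ∀ Y, ∀ i ∈ T, ∀ j ∈ T, extz T _ (ρ Y) i (pT j) = extz s _ Y i (p j) := by
    intro Y i hi j hj
    rw [extz_mem _ hi, extz_mem _ (hT'.1.1 hi)]
    simp only [ρ, LinearMap.coe_mk, AddHom.coe_mk, LinearMap.comp_apply, Submodule.subtype_apply,
      hpTv j hj]
  have hcomap : (conSub pT T).comap ρ = conIn p s T := by
    ext Y
    rw [Submodule.mem_comap]
    change Con pT (extz T _ (ρ Y)) T ↔ Con p (extz s _ Y) T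
    constructor
    · intro h i hi j hj
      rw [← hρ Y i hi j hj, ← hρ Y j hj i hi]
      exact h i hi j hj
    · intro h i hi j hj
      rw [hρ Y i hi j hj, hρ Y j hj i hi]
      exact h i hi j hj
  have hKN : LinearMap.ker (conMap p s) ≤ (LinearMap.ker (conMap pT T)).comap ρ := by
    intro Y hY
    rw [LinearMap.mem_ker] at hY
    rw [Submodule.mem_comap, LinearMap.mem_ker]
    have hY1 := congrArg Prod.fst hY
    have hY2 := congrArg Prod.snd hY
    ext x
    · simp only [conMap, LinearMap.coe_mk, AddHom.coe_mk, Prod.fst_zero, Pi.zero_apply]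
      rw [hρ Y _ x.2 _ x.2]
      have := congrFun hY1 ⟨x.1, hT'.1.1 x.2⟩
      simpa [conMap] using this
    · obtain ⟨E, hE⟩ := x
      simp only [conMap, LinearMap.coe_mk, AddHom.coe_mk, Prod.snd_zero, Pi.zero_apply]
      rw [hpT, facesR_map f hinj, facesR_restrict hT'.1] at hE
      have := congrFun hY2 ⟨E, hE.1⟩
      simp only [conMap, LinearMap.coe_mk, AddHom.coe_mk, Prod.snd_zero, Pi.zero_apply] at this
      rw [← this]
      apply Finset.sum_congr rfl
      intro i hi
      apply Finset.sum_congr rfl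
      intro j hj
      exact hρ Y i (hE.2 hi) j (hE.2 hj)
  have h1 := codim_comap ρ (LinearMap.ker (conMap p s)) (LinearMap.ker (conMap pT T))
    (conSub pT T) hKN (conSub_le pT T)
  rw [hcomap, finrank_ker_conMap hWr h0T hrT hrkT] at h1
  have h2 := finrank_conSub (p := pT) hWr hrkT
  omega

/-- alternating forms -/
def altSub (V : Type v) [AddCommGroup V] [Module ℝ V] : Submodule ℝ (V →ₗ[ℝ] V →ₗ[ℝ] ℝ) where
  carrier := {B | Alt B}
  add_mem' := fun ha hb => ha.add hb
  zero_mem' := fun x => by simp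
  smul_mem' := fun c B hB x => by
    simp only [LinearMap.smul_apply, hB x, smul_zero]

lemma finrank_altSub (hV : Module.finrank ℝ V = 5) : Module.finrank ℝ (altSub V) ≤ 10 := by
  have : FiniteDimensional ℝ V := Module.finite_of_finrank_eq_succ hV
  let b : Module.Basis (Fin 5) ℝ V := Module.finBasisOfFinrankEq ℝ V hV
  let f : altSub V →ₗ[ℝ] ({q : Fin 5 × Fin 5 // q.1 < q.2} → ℝ) :=
    { toFun := fun B q => B.1 (b q.1.1) (b q.1.2)
      map_add' := fun B C => by funext q; simp
      map_smul' := fun c B => by funext q; simp }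
  have hinj : Function.Injective f := by
    intro B C hB
    have hBalt : Alt B.1 := B.2
    have hCalt : Alt C.1 := C.2
    have h1 : ∀ i j : Fin 5, i < j → B.1 (b i) (b j) = C.1 (b i) (b j) := by
      intro i j hij
      have := congrFun hB ⟨(i, j), hij⟩
      simpa [f] using this
    apply Subtype.ext
    apply b.ext
    intro i
    apply b.ext
    intro j
    rcases lt_trichotomy i j with h | h | h
    · exact h1 i j h
    · rw [h, hBalt, hCalt]
    · rw [hBalt.swap, hCalt.swap, h1 j i h]
  have h2 := LinearMap.finrank_le_finrank_of_injective hinj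
  have h3 : Module.finrank ℝ ({q : Fin 5 × Fin 5 // q.1 < q.2} → ℝ) = 10 := by
    rw [Module.finrank_pi]
    decide
  omega

theorem g2_top (hV : Module.finrank ℝ V = 5) {p : ι → V} {s : Finset ι} (h0 : IsFace p s ∅)
    (hr : Red p s) (hrk : rk p s = 5) :
    4 * s.card + 3 * (facesR p s 3).card ≤
      10 + (facesR p s 2).card + ∑ T ∈ facesR p s 3, T.card := by
  classical
  have : FiniteDimensional ℝ V := Module.finite_of_finrank_eq_succ hV
  have key := LinearMap.finrank_range_add_finrank_ker (conMap p s)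
  have hX : Module.finrank ℝ ({i // i ∈ s} → (V →ₗ[ℝ] ℝ)) = s.card * 5 := by
    rw [Module.finrank_pi_fintype]
    have h1 : Module.finrank ℝ (V →ₗ[ℝ] ℝ) = 5 := by
      rw [Module.finrank_linearMap, hV, Module.finrank_self]
    simp [h1]
  have hrange : Module.finrank ℝ (LinearMap.range (conMap p s)) ≤
      s.card + (facesR p s 2).card := by
    refine (Submodule.finrank_le _).trans ?_
    rw [Module.finrank_prod, Module.finrank_pi, Module.finrank_pi]
    simp
  have h3 : ∀ T ∈ facesR p s 3, 3 ≤ T.card := by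
    intro T hT
    have hT' := mem_facesR.1 hT
    have h0T : IsFace p T ∅ := (isFace_restrict hT'.1).2 ⟨h0, empty_subset _⟩
    have := rk_le_card_rays h0T
    rw [(hr.restrict hT'.1).card_facesR_one h0T] at this
    omega
  have hcod := codim_iInf (LinearMap.ker (conMap p s)) (conIn p s) (fun T => T.card - 3)
    (facesR p s 3) (by
      intro T hT
      have h1 := codim_con h0 hr hT
      have h2 := h3 T hT
      omega)
  have hle : (LinearMap.ker (conMap p s) ⊓ ⨅ T ∈ facesR p s 3, conIn p s T : Submodule ℝ _) ≤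
      LinearMap.range
        ({ toFun := fun B i => B.1 (p i)
           map_add' := fun B C => by funext i; simp
           map_smul' := fun c B => by funext i; simp } :
          altSub V →ₗ[ℝ] ({i // i ∈ s} → (V →ₗ[ℝ] ℝ))) := by
    intro Y hY
    have hY2 : ∀ T ∈ facesR p s 3, Con p (extz s _ Y) T := by
      have := (Submodule.mem_inf.1 hY).2
      simp only [Submodule.mem_iInf] at this
      exact this
    obtain ⟨B, hB, hBY⟩ := rigid5 hV h0 hr hrk hY2
    refine ⟨⟨B, hB⟩, ?_⟩
    funext i
    simp only [LinearMap.coe_mk, AddHom.coe_mk]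
    rw [← hBY i.1 i.2, extz_mem _ i.2]
  have h10 : Module.finrank ℝ
      (LinearMap.ker (conMap p s) ⊓ ⨅ T ∈ facesR p s 3, conIn p s T : Submodule ℝ _) ≤ 10 :=
    ((Submodule.finrank_mono hle).trans (LinearMap.finrank_range_le _)).trans (finrank_altSub hV)
  have hsum : ∑ T ∈ facesR p s 3, (T.card - 3) + 3 * (facesR p s 3).card =
      ∑ T ∈ facesR p s 3, T.card := by
    have : 3 * (facesR p s 3).card = ∑ T ∈ facesR p s 3, 3 := by
      rw [Finset.sum_const, smul_eq_mul, mul_comm]
    rw [this, ← Finset.sum_add_distrib]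
    apply Finset.sum_congr rfl
    intro T hT
    have := h3 T hT
    omega
  omega

/-- **The lower bound inequality for rank five families** (4-polytopes). -/
theorem g2_rank_five {p : ι → V} {s : Finset ι} (h0 : IsFace p s ∅) (hrk : rk p s = 5) :
    4 * (facesR p s 1).card + 3 * (facesR p s 3).card ≤
      10 + (facesR p s 2).card + ∑ T ∈ facesR p s 3, (facesR p T 1).card := by
  classical
  obtain ⟨s', hs, hm, hr⟩ := exists_red h0
  have h0' : IsFace p s' ∅ := by
    have := h0.sub hs
    simpa using this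
  have hrk' : rk p s' = 5 := by
    rw [← hrk]
    unfold rk
    rw [hm.span_eq h0 hs]
  set W := span ℝ (p '' (s' : Set ι)) with hW
  obtain ⟨f, hf⟩ := exists_proj W
  have hinj : ∀ w ∈ span ℝ (p '' (s' : Set ι)), f w = 0 → w = 0 := by
    intro w hw h
    rw [hf w hw] at h
    exact congrArg Subtype.val h
  have key := g2_top (V := W) (p := fun i => f (p i)) (s := s') hrk' ((isFace_map f hinj).2 h0')
    (fun i hi => (isFace_map f hinj).2 (hr i hi)) (by rw [rk_map f hinj (Subset.refl _)]; exact hrk')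
  rw [facesR_map f hinj, facesR_map f hinj] at key
  rw [← hm.card_facesR h0 hs 1, ← hm.card_facesR h0 hs 2, ← hm.card_facesR h0 hs 3,
    ← hm.sum_card h0 hs 3 1, hr.card_facesR_one h0']
  have : ∑ T ∈ facesR p s' 3, (facesR p T 1).card = ∑ T ∈ facesR p s' 3, T.card := by
    apply Finset.sum_congr rfl
    intro T hT
    have hT' := mem_facesR.1 hT
    exact (hr.restrict hT'.1).card_facesR_one ((isFace_restrict hT'.1).2 ⟨h0', empty_subset _⟩)
  rw [this]
  exact key

end Pool.Agent.Lib_helper40.Kal
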