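import Pool.Agent.Lib_helper40.Kal.Count2

/-!
Inequalities and identities for chain counting operators.
-/

set_option autoImplicit false
set_option linter.unusedSectionVars false

namespace Pool.Agent.Lib_helper40.Kal

open Finset Submodule

universe u v
variable {ι : Type u} [DecidableEq ι] {V : Type v} [AddCommGroup V] [Module ℝ V]

/-- nonnegative on the faces of rank `a` -/
def NN (p : ι → V) (s : Finset ι) (a : ℕ) (g : Finset ι → ℝ) : Prop :=
  ∀ F ∈ facesR p s a, 0 ≤ g F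

/-- zero on the faces of rank `a` -/
def ZZ (p : ι → V) (s : Finset ι) (a : ℕ) (g : Finset ι → ℝ) : Prop :=
  ∀ F ∈ facesR p s a, g F = 0

variable {p : ι → V} {s : Finset ι}

lemma NN_const (a : ℕ) : NN p s a (fun _ => 1) := fun _ _ => zero_le_one

lemma NN_one {a b : ℕ} {g : Finset ι → ℝ} (hg : NN p s b g) : NN p s a (U p s b g) :=
  fun F _ => U_nonneg hg F

lemma ZZ_U {a b : ℕ} {g : Finset ι → ℝ} (hg : ZZ p s b g) : ZZ p s a (U p s b g) :=
  fun F _ => U_eq_zero hg F

/-- comparison principle -/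
lemma NN_of_card {a b : ℕ} {g : Finset ι → ℝ} (hg : NN p s b g) (φ : Finset ι → Finset ι → ℝ)
    (hφ : ∀ F ∈ facesR p s a, ∀ G ∈ facesR p s b, F ⊆ G → 0 ≤ φ F G) :
    NN p s a (fun F => ∑ G ∈ (facesR p s b).filter (fun H => F ⊆ H), φ F G * g G) := by
  intro F hF
  apply Finset.sum_nonneg
  intro G hG
  rw [mem_filter] at hG
  exact mul_nonneg (hφ F hF G hG.1 hG.2) (hg G hG.1)

lemma card_mid_sub {F G : Finset ι} {a r : ℕ} (hF : F ∈ facesR p s a)
    {b : ℕ} (hG : G ∈ facesR p s b) (hFG : F ⊆ G) :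
    (mid p s F G (a + r)).card = (facesR (qf p F) (G \ F) r).card := by
  rw [mem_facesR] at hF hG
  rw [← card_mid hF.1 hG.1 hFG r, hF.2]

lemma sum_card_mid_sub {F G : Finset ι} {a r t : ℕ} (hF : F ∈ facesR p s a)
    {b : ℕ} (hG : G ∈ facesR p s b) (hFG : F ⊆ G) :
    ∑ K ∈ mid p s F G (a + t), (mid p s F K (a + r)).card =
      ∑ J ∈ facesR (qf p F) (G \ F) t, (facesR (qf p F) J r).card := by
  rw [mem_facesR] at hF hG
  rw [← sum_card_mid hF.1 hG.1 hFG r t, hF.2]

lemma interval_data {F G : Finset ι} {a b : ℕ} (hF : F ∈ facesR p s a)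
    (hG : G ∈ facesR p s b) (hFG : F ⊆ G) :
    IsFace (qf p F) (G \ F) ∅ ∧ rk (qf p F) (G \ F) + a = b := by
  rw [mem_facesR] at hF hG
  refine ⟨pointed_interval hF.1 hG.1 hFG, ?_⟩
  have := rk_interval (p := p) hFG
  omega

lemma U_as_sum (b : ℕ) (g : Finset ι → ℝ) (F : Finset ι) :
    U p s b g F = ∑ G ∈ (facesR p s b).filter (fun H => F ⊆ H), (1 : ℝ) * g G := by
  rw [U_apply]; simp

lemma NN_g1 (a m : ℕ) {g : Finset ι → ℝ} (hg : NN p s (a + m) g) :
    NN p s a (U p s (a + 1) (U p s (a + m) g) - (m : ℝ) • U p s (a + m) g) := by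
  have h := NN_of_card (a := a) hg
    (fun F G => ((mid p s F G (a + 1)).card : ℝ) - m) (by
      intro F hF G hG hFG
      obtain ⟨h1, h2⟩ := interval_data hF hG hFG
      have h3 := rk_le_card_rays h1
      rw [card_mid_sub hF hG hFG]
      have h4 : rk (qf p F) (G \ F) = m := by omega
      rw [h4] at h3
      have : (m : ℝ) ≤ ((facesR (qf p F) (G \ F) 1).card : ℝ) := by exact_mod_cast h3
      linarith)
  intro F hF
  have h1 := h F hF
  simp only [Pi.sub_apply, Pi.smul_apply, smul_eq_mul, U_U, U_apply (r := a + m)]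
  rw [mul_sum, ← sum_sub_distrib]
  refine h1.trans_eq (Finset.sum_congr rfl fun G _ => by ring)

lemma NN_G1 (a m : ℕ) {g : Finset ι → ℝ} (hg : NN p s (a + (m + 1)) g) :
    NN p s a (U p s (a + m) (U p s (a + (m + 1)) g) -
      ((m : ℝ) + 1) • U p s (a + (m + 1)) g) := by
  have h := NN_of_card (a := a) hg
    (fun F G => ((mid p s F G (a + m)).card : ℝ) - (m + 1)) (by
      intro F hF G hG hFG
      obtain ⟨h1, h2⟩ := interval_data hF hG hFG
      have h3 := rk_le_card_facets m h1 (by omega)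
      rw [card_mid_sub hF hG hFG]
      have : (m : ℝ) + 1 ≤ ((facesR (qf p F) (G \ F) m).card : ℝ) := by exact_mod_cast h3
      linarith)
  intro F hF
  have h1 := h F hF
  simp only [Pi.sub_apply, Pi.smul_apply, smul_eq_mul, U_U, U_apply (r := a + (m + 1))]
  rw [mul_sum, ← sum_sub_distrib]
  refine h1.trans_eq (Finset.sum_congr rfl fun G _ => by ring)

lemma NN_half (a : ℕ) {g : Finset ι → ℝ} (hg : NN p s (a + 6) g) :
    NN p s a ((2 : ℝ) • U p s (a + 4) (U p s (a + 6) g) - U p s (a + 1) (U p s (a + 6) g)) := by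
  have h := NN_of_card (a := a) hg
    (fun F G => 2 * ((mid p s F G (a + 4)).card : ℝ) - (mid p s F G (a + 1)).card) (by
      intro F hF G hG hFG
      obtain ⟨h1, h2⟩ := interval_data hF hG hFG
      have h3 := card_rays_le (k := 3) h1 (by omega)
      rw [card_mid_sub hF hG hFG, card_mid_sub hF hG hFG]
      have : ((facesR (qf p F) (G \ F) 1).card : ℝ) ≤
        2 * ((facesR (qf p F) (G \ F) 4).card : ℝ) := by exact_mod_cast h3
      linarith)
  intro F hF
  have h1 := h F hF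
  simp only [Pi.sub_apply, Pi.smul_apply, smul_eq_mul, U_U]
  rw [mul_sum, ← sum_sub_distrib]
  refine h1.trans_eq (Finset.sum_congr rfl fun G _ => by ring)

lemma NN_g2 (a : ℕ) {g : Finset ι → ℝ} (hg : NN p s (a + 5) g) :
    NN p s a ((10 : ℝ) • U p s (a + 5) g + U p s (a + 2) (U p s (a + 5) g) +
      U p s (a + 1) (U p s (a + 3) (U p s (a + 5) g)) -
      (4 : ℝ) • U p s (a + 1) (U p s (a + 5) g) - (3 : ℝ) • U p s (a + 3) (U p s (a + 5) g)) := by
  have h := NN_of_card (a := a) hg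
    (fun F G => 10 + ((mid p s F G (a + 2)).card : ℝ) +
      ((∑ K ∈ mid p s F G (a + 3), (mid p s F K (a + 1)).card : ℕ) : ℝ) -
      4 * (mid p s F G (a + 1)).card - 3 * (mid p s F G (a + 3)).card) (by
      intro F hF G hG hFG
      obtain ⟨h1, h2⟩ := interval_data hF hG hFG
      have h3 := g2_rank_five h1 (by omega)
      rw [card_mid_sub hF hG hFG, card_mid_sub hF hG hFG, card_mid_sub hF hG hFG,
        sum_card_mid_sub hF hG hFG]
      have h4 : 4 * ((facesR (qf p F) (G \ F) 1).card : ℝ) +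
          3 * ((facesR (qf p F) (G \ F) 3).card : ℝ) ≤
          10 + ((facesR (qf p F) (G \ F) 2).card : ℝ) +
            ((∑ J ∈ facesR (qf p F) (G \ F) 3, (facesR (qf p F) J 1).card : ℕ) : ℝ) := by
        exact_mod_cast h3
      linarith)
  intro F hF
  have h1 := h F hF
  simp only [Pi.sub_apply, Pi.add_apply, Pi.smul_apply, smul_eq_mul]
  rw [U_U_U p s (a + 1) (a + 3) (a + 5) g F]
  simp only [U_U, U_apply (r := a + 5)]
  rw [mul_sum, mul_sum, mul_sum, ← sum_add_distrib, ← sum_add_distrib, ← sum_sub_distrib,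
    ← sum_sub_distrib]
  refine h1.trans_eq (Finset.sum_congr rfl fun G _ => by ring)

/-- the largeness hypothesis -/
lemma NN_large {N : ℕ} (hN : ∀ K ∈ facesR p s 4, N ≤ (facesR p K 1).card) (h0 : IsFace p s ∅)
    {g : Finset ι → ℝ} (hg : NN p s 4 g) :
    NN p s 0 (U p s 1 (U p s 4 g) - (N : ℝ) • U p s 4 g) := by
  have h := NN_of_card (a := 0) hg
    (fun F G => ((mid p s F G 1).card : ℝ) - N) (by
      intro F hF G hG hFG
      rw [facesR_zero h0, mem_singleton] at hF
      subst hF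
      have h1 : mid p s ∅ G 1 = facesR p G 1 := by
        ext H
        rw [mem_mid, facesR_restrict (mem_facesR.1 hG).1, mem_facesR]
        simp
      rw [h1]
      have : (N : ℝ) ≤ ((facesR p G 1).card : ℝ) := by exact_mod_cast hN G hG
      linarith)
  intro F hF
  have h1 := h F hF
  simp only [Pi.sub_apply, Pi.smul_apply, smul_eq_mul, U_U, U_apply (r := 4)]
  rw [mul_sum, ← sum_sub_distrib]
  refine h1.trans_eq (Finset.sum_congr rfl fun G _ => by ring)

/-- Euler relation in operator form -/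
lemma ZZ_euler (a m : ℕ) (g : Finset ι → ℝ) :
    ZZ p s a (∑ r ∈ range (m + 2), ((-1 : ℝ) ^ r) • U p s (a + r) (U p s (a + (m + 1)) g)) := by
  intro F hF
  rw [Finset.sum_apply]
  simp only [Pi.smul_apply, smul_eq_mul, U_U, mul_sum]
  rw [Finset.sum_comm]
  apply Finset.sum_eq_zero
  intro G hG
  rw [mem_filter] at hG
  obtain ⟨h1, h2⟩ := interval_data hF hG.1 hG.2
  have hne : (G \ F).Nonempty := rk_pos_nonempty (p := qf p F) (by omega)
  have h3 := euler h1 hne
  have h4 : rk (qf p F) (G \ F) + 1 = m + 2 := by omega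
  rw [h4] at h3
  have h5 : ∑ r ∈ range (m + 2), (-1 : ℝ) ^ r * ((mid p s F G (a + r)).card : ℝ) = 0 := by
    have : ∀ r ∈ range (m + 2), (-1 : ℝ) ^ r * ((mid p s F G (a + r)).card : ℝ) =
        (((-1 : ℤ) ^ r * (facesR (qf p F) (G \ F) r).card : ℤ) : ℝ) := by
      intro r _
      rw [card_mid_sub hF hG.1 hG.2]
      push_cast
      ring
    rw [Finset.sum_congr rfl this, ← Int.cast_sum, h3, Int.cast_zero]
  have h6 : ∑ r ∈ range (m + 2), (-1 : ℝ) ^ r * (((mid p s F G (a + r)).card : ℝ) * g G) =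
      (∑ r ∈ range (m + 2), (-1 : ℝ) ^ r * ((mid p s F G (a + r)).card : ℝ)) * g G := by
    rw [sum_mul]
    exact Finset.sum_congr rfl fun r _ => by ring
  rw [h6, h5, zero_mul]

lemma U_self {a : ℕ} {g : Finset ι → ℝ} {F : Finset ι} (hF : F ∈ facesR p s a) :
    U p s a g F = g F := by
  rw [U_apply]
  have : (facesR p s a).filter (fun H => F ⊆ H) = {F} := by
    ext H
    rw [mem_filter, mem_singleton]
    constructor
    · rintro ⟨h1, h2⟩
      rw [mem_facesR] at h1 hF
      exact (hF.1.eq_of_rk_le h1.1.1 h2 (by omega)).symm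
    · rintro rfl
      exact ⟨hF, Subset.refl _⟩
  rw [this, sum_singleton]

lemma U_U_self (b : ℕ) (g : Finset ι → ℝ) : U p s b (U p s b g) = U p s b g := by
  funext F
  rw [U_apply, U_apply]
  apply Finset.sum_congr rfl
  intro H hH
  exact U_self (mem_filter.1 hH).1

lemma ZZ_congr {a : ℕ} {g g' : Finset ι → ℝ} (h : ZZ p s a g)
    (he : ∀ F ∈ facesR p s a, g' F = g F) : ZZ p s a g' := fun F hF => by
  rw [he F hF]; exact h F hF

lemma ZE2 (a : ℕ) (g : Finset ι → ℝ) :
    ZZ p s a ((2 : ℝ) • U p s (a + 2) g - U p s (a + 1) (U p s (a + 2) g)) := by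
  refine ZZ_congr (ZZ_euler a 1 g) fun F hF => ?_
  simp only [sum_range_succ, sum_range_zero, Pi.add_apply, Pi.sub_apply, Pi.smul_apply,
    smul_eq_mul, Nat.reduceAdd, U_U_self, add_zero, U_self hF, Pi.zero_apply]
  ring

lemma ZE3 (a : ℕ) (g : Finset ι → ℝ) :
    ZZ p s a (U p s (a + 1) (U p s (a + 3) g) - U p s (a + 2) (U p s (a + 3) g)) := by
  refine ZZ_congr (g := - (∑ r ∈ range (2 + 2), ((-1 : ℝ) ^ r) •
    U p s (a + r) (U p s (a + (2 + 1)) g))) (fun F hF => by
      rw [Pi.neg_apply, ZZ_euler a 2 g F hF, neg_zero]) fun F hF => ?_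
  simp only [sum_range_succ, sum_range_zero, Pi.add_apply, Pi.sub_apply, Pi.smul_apply,
    smul_eq_mul, Nat.reduceAdd, U_U_self, add_zero, U_self hF, Pi.zero_apply, Pi.neg_apply]
  ring

lemma ZE4 (a : ℕ) (g : Finset ι → ℝ) :
    ZZ p s a ((2 : ℝ) • U p s (a + 4) g - U p s (a + 1) (U p s (a + 4) g) +
      U p s (a + 2) (U p s (a + 4) g) - U p s (a + 3) (U p s (a + 4) g)) := by
  refine ZZ_congr (ZZ_euler a 3 g) fun F hF => ?_
  simp only [sum_range_succ, sum_range_zero, Pi.add_apply, Pi.sub_apply, Pi.smul_apply,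
    smul_eq_mul, Nat.reduceAdd, U_U_self, add_zero, U_self hF, Pi.zero_apply]
  ring

lemma ZE5 (a : ℕ) (g : Finset ι → ℝ) :
    ZZ p s a (U p s (a + 1) (U p s (a + 5) g) - U p s (a + 2) (U p s (a + 5) g) +
      U p s (a + 3) (U p s (a + 5) g) - U p s (a + 4) (U p s (a + 5) g)) := by
  refine ZZ_congr (g := - (∑ r ∈ range (4 + 2), ((-1 : ℝ) ^ r) •
    U p s (a + r) (U p s (a + (4 + 1)) g))) (fun F hF => by
      rw [Pi.neg_apply, ZZ_euler a 4 g F hF, neg_zero]) fun F hF => ?_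
  simp only [sum_range_succ, sum_range_zero, Pi.add_apply, Pi.sub_apply, Pi.smul_apply,
    smul_eq_mul, Nat.reduceAdd, U_U_self, add_zero, U_self hF, Pi.zero_apply, Pi.neg_apply]
  ring

lemma ZE6 (a : ℕ) (g : Finset ι → ℝ) :
    ZZ p s a ((2 : ℝ) • U p s (a + 6) g - U p s (a + 1) (U p s (a + 6) g) +
      U p s (a + 2) (U p s (a + 6) g) - U p s (a + 3) (U p s (a + 6) g) +
      U p s (a + 4) (U p s (a + 6) g) - U p s (a + 5) (U p s (a + 6) g)) := by
  refine ZZ_congr (ZZ_euler a 5 g) fun F hF => ?_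
  simp only [sum_range_succ, sum_range_zero, Pi.add_apply, Pi.sub_apply, Pi.smul_apply,
    smul_eq_mul, Nat.reduceAdd, U_U_self, add_zero, U_self hF, Pi.zero_apply]
  ring

lemma ZE7 (a : ℕ) (g : Finset ι → ℝ) :
    ZZ p s a (U p s (a + 1) (U p s (a + 7) g) - U p s (a + 2) (U p s (a + 7) g) +
      U p s (a + 3) (U p s (a + 7) g) - U p s (a + 4) (U p s (a + 7) g) +
      U p s (a + 5) (U p s (a + 7) g) - U p s (a + 6) (U p s (a + 7) g)) := by
  refine ZZ_congr (g := - (∑ r ∈ range (6 + 2), ((-1 : ℝ) ^ r) •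
    U p s (a + r) (U p s (a + (6 + 1)) g))) (fun F hF => by
      rw [Pi.neg_apply, ZZ_euler a 6 g F hF, neg_zero]) fun F hF => ?_
  simp only [sum_range_succ, sum_range_zero, Pi.add_apply, Pi.sub_apply, Pi.smul_apply,
    smul_eq_mul, Nat.reduceAdd, U_U_self, add_zero, U_self hF, Pi.zero_apply, Pi.neg_apply]
  ring

lemma ZE8 (a : ℕ) (g : Finset ι → ℝ) :
    ZZ p s a ((2 : ℝ) • U p s (a + 8) g - U p s (a + 1) (U p s (a + 8) g) +
      U p s (a + 2) (U p s (a + 8) g) - U p s (a + 3) (U p s (a + 8) g) +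
      U p s (a + 4) (U p s (a + 8) g) - U p s (a + 5) (U p s (a + 8) g) +
      U p s (a + 6) (U p s (a + 8) g) - U p s (a + 7) (U p s (a + 8) g)) := by
  refine ZZ_congr (ZZ_euler a 7 g) fun F hF => ?_
  simp only [sum_range_succ, sum_range_zero, Pi.add_apply, Pi.sub_apply, Pi.smul_apply,
    smul_eq_mul, Nat.reduceAdd, U_U_self, add_zero, U_self hF, Pi.zero_apply]
  ring

end Pool.Agent.Lib_helper40.Kal
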