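import Pool.Agent.Lib_helper40.Kal.Half

set_option autoImplicit false
set_option linter.unusedSectionVars false

namespace Pool.Agent.Lib_helper40.Kal

open Finset Submodule

universe u v
variable {ι : Type u} [DecidableEq ι] {E : Type v} [NormedAddCommGroup E] [NormedSpace ℝ E]
  [FiniteDimensional ℝ E]

/-- homogenization of a point family -/
def hom (x : ι → E) : ι → E × ℝ := fun i => (x i, 1)

/-- the convex hull of part of a point family -/
def hull (x : ι → E) (I : Finset ι) : Set E := convexHull ℝ (x '' (I : Set ι))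

lemma hull_mono {x : ι → E} {I J : Finset ι} (h : I ⊆ J) : hull x I ⊆ hull x J :=
  convexHull_mono (Set.image_mono (by exact_mod_cast h))

lemma mem_hull_self {x : ι → E} {I : Finset ι} {i : ι} (h : i ∈ I) : x i ∈ hull x I :=
  subset_convexHull ℝ _ (Set.mem_image_of_mem x h)

lemma aff_zero {x : ι → E} {I : Finset ι} {a : E →ₗ[ℝ] ℝ} {b : ℝ} (h : ∀ i ∈ I, a (x i) + b = 0)
    {y : E} (hy : y ∈ hull x I) : a y + b = 0 := by
  have hc : Convex ℝ {y : E | a y + b = 0} := by
    have : {y : E | a y + b = 0} = {y : E | a y = -b} := by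
      ext y; simp only [Set.mem_setOf_eq]; constructor <;> intro h <;> linarith
    rw [this]
    exact convex_hyperplane a.isLinear _
  exact convexHull_min (by rintro _ ⟨i, hi, rfl⟩; exact h i hi) hc hy

lemma aff_nonneg {x : ι → E} {I : Finset ι} {a : E →ₗ[ℝ] ℝ} {b : ℝ} (h : ∀ i ∈ I, 0 ≤ a (x i) + b)
    {y : E} (hy : y ∈ hull x I) : 0 ≤ a y + b := by
  have hc : Convex ℝ {y : E | 0 ≤ a y + b} := by
    have : {y : E | 0 ≤ a y + b} = {y : E | -b ≤ a y} := by
      ext y; simp only [Set.mem_setOf_eq]; constructor <;> intro h <;> linarith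
    rw [this]
    exact convex_halfSpace_ge a.isLinear _
  exact convexHull_min (by rintro _ ⟨i, hi, rfl⟩; exact h i hi) hc hy

lemma mem_hull_of_zero {x : ι → E} {S I : Finset ι} {a : E →ₗ[ℝ] ℝ} {b : ℝ}
    (h : ∀ i ∈ S, 0 ≤ a (x i) + b) (hz : ∀ i ∈ S, a (x i) + b = 0 → x i ∈ hull x I)
    {y : E} (hy : y ∈ hull x S) (hy0 : a y + b = 0) : y ∈ hull x I := by
  classical
  unfold hull at hy
  rw [← coe_image, Finset.mem_convexHull'] at hy
  obtain ⟨w, hw0, hw1, hwy⟩ := hy
  have hsum : ∑ e ∈ S.image x, w e * (a e + b) = 0 := by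
    have : ∑ e ∈ S.image x, w e * (a e + b) = a (∑ e ∈ S.image x, w e • e)
        + (∑ e ∈ S.image x, w e) * b := by
      rw [map_sum, sum_mul, ← sum_add_distrib]
      refine sum_congr rfl fun e _ => ?_
      rw [map_smul, smul_eq_mul]; ring
    rw [this, hwy, hw1, one_mul, hy0]
  have hterm : ∀ e ∈ S.image x, w e * (a e + b) = 0 := by
    apply (sum_eq_zero_iff_of_nonneg ?_).1 hsum
    intro e he
    obtain ⟨i, hi, rfl⟩ := mem_image.1 he
    exact mul_nonneg (hw0 _ he) (h i hi)
  -- y is a convex combination of points of hull x I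
  have hconv : Convex ℝ (hull x I) := convex_convexHull ℝ _
  have hsupp : ∑ e ∈ (S.image x).filter (fun e => w e ≠ 0), w e = 1 := by
    rw [← hw1]
    refine sum_subset (filter_subset _ _) fun e he hn => ?_
    by_contra h1
    exact hn (mem_filter.2 ⟨he, h1⟩)
  have hsy : ∑ e ∈ (S.image x).filter (fun e => w e ≠ 0), w e • e = y := by
    rw [← hwy]
    refine sum_subset (filter_subset _ _) fun e he hn => ?_
    have : w e = 0 := by
      by_contra h1
      exact hn (mem_filter.2 ⟨he, h1⟩)
    rw [this, zero_smul]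
  rw [← hsy]
  refine hconv.sum_mem (fun e he => hw0 e (mem_filter.1 he).1) hsupp fun e he => ?_
  obtain ⟨he1, he2⟩ := mem_filter.1 he
  obtain ⟨i, hi, rfl⟩ := mem_image.1 he1
  have := hterm _ he1
  exact hz i hi ((mul_eq_zero.1 this).resolve_left he2)

lemma hom_apply (x : ι → E) (l : E × ℝ →ₗ[ℝ] ℝ) (i : ι) :
    l (hom x i) = (l ∘ₗ LinearMap.inl ℝ E ℝ) (x i) + l (0, 1) := by
  simp only [hom, LinearMap.comp_apply, LinearMap.inl_apply]
  rw [← map_add]
  simp

lemma hull_nonempty_iff {x : ι → E} {I : Finset ι} : (hull x I).Nonempty ↔ I.Nonempty := by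
  unfold hull
  rw [convexHull_nonempty_iff, Set.image_nonempty, coe_nonempty]

/-- faces of the homogenized family give exposed faces -/
lemma exposed_of_isFace {x : ι → E} {S I : Finset ι} (h : IsFace (hom x) S I) :
    IsExposed ℝ (hull x S) (hull x I) := by
  intro hne
  obtain ⟨hIS, l, l0, lp⟩ := h
  set a := l ∘ₗ LinearMap.inl ℝ E ℝ with ha
  set b := l (0, 1) with hb
  have l0' : ∀ i ∈ I, a (x i) + b = 0 := fun i hi => by rw [← hom_apply]; exact l0 i hi
  have lp' : ∀ i ∈ S, i ∉ I → 0 < a (x i) + b := fun i hi hn => by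
    rw [← hom_apply]; exact lp i hi hn
  have ln : ∀ i ∈ S, 0 ≤ a (x i) + b := by
    intro i hi
    by_cases h : i ∈ I
    · exact (l0' i h).ge
    · exact (lp' i hi h).le
  refine ⟨LinearMap.toContinuousLinearMap (-a), ?_⟩
  obtain ⟨z, hz⟩ := hne
  have hz0 := aff_zero l0' hz
  ext y
  simp only [Set.mem_setOf_eq, LinearMap.coe_toContinuousLinearMap', LinearMap.neg_apply,
    neg_le_neg_iff]
  constructor
  · intro hy
    refine ⟨hull_mono hIS hy, fun y' hy' => ?_⟩
    have h1 := aff_zero l0' hy
    have h2 := aff_nonneg ln hy'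
    linarith
  · rintro ⟨hy, hmin⟩
    have h1 := hmin z (hull_mono hIS hz)
    have h2 := aff_nonneg ln hy
    refine mem_hull_of_zero ln (fun i hi h0 => ?_) hy (by linarith)
    apply mem_hull_self
    by_contra hn
    exact absurd h0 (lp' i hi hn).ne'

open Classical in
/-- the indices of a set -/
noncomputable def idx (x : ι → E) (S : Finset ι) (F : Set E) : Finset ι :=
  S.filter fun i => x i ∈ F

/-- exposed faces come from faces of the homogenized family -/
lemma isFace_of_exposed {x : ι → E} {S : Finset ι} {F : Set E} (h : IsExposed ℝ (hull x S) F) :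
    IsFace (hom x) S (idx x S F) ∧ F = hull x (idx x S F) := by
  classical
  rcases Set.eq_empty_or_nonempty F with rfl | hne
  · have : idx x S ∅ = ∅ := by simp [idx]
    rw [this]
    refine ⟨⟨empty_subset _, LinearMap.snd ℝ E ℝ, by simp, fun i _ _ => by simp [hom]⟩, ?_⟩
    simp [hull]
  · obtain ⟨l, hl⟩ := h hne
    obtain ⟨z, hz⟩ := hne
    rw [hl] at hz
    obtain ⟨hzS, hzmax⟩ := hz
    set a : E →ₗ[ℝ] ℝ := - (l : E →ₗ[ℝ] ℝ) with ha
    have hav : ∀ y, a y = - l y := fun y => by simp [ha]
    have hn : ∀ i ∈ S, 0 ≤ a (x i) + l z := by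
      intro i hi
      have := hzmax (x i) (mem_hull_self hi)
      rw [hav]; linarith
    have hFiff : ∀ y ∈ hull x S, (y ∈ F ↔ a y + l z = 0) := by
      intro y hy
      rw [hl, hav]
      simp only [Set.mem_setOf_eq]
      constructor
      · rintro ⟨_, h1⟩
        have := h1 z hzS
        have := hzmax y hy
        linarith
      · intro h1
        refine ⟨hy, fun y' hy' => ?_⟩
        have := hzmax y' hy'
        linarith
    have hidx : ∀ i, i ∈ idx x S F ↔ i ∈ S ∧ a (x i) + l z = 0 := by
      intro i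
      unfold idx
      rw [mem_filter]
      constructor
      · rintro ⟨h1, h2⟩; exact ⟨h1, (hFiff _ (mem_hull_self h1)).1 h2⟩
      · rintro ⟨h1, h2⟩; exact ⟨h1, (hFiff _ (mem_hull_self h1)).2 h2⟩
    constructor
    · refine ⟨filter_subset _ _, a.comp (LinearMap.fst ℝ E ℝ) + (l z) • LinearMap.snd ℝ E ℝ, ?_, ?_⟩
      · intro i hi
        have := ((hidx i).1 hi).2
        simpa [hom] using this
      · intro i hi hni
        have h1 := hn i hi
        have h2 : a (x i) + l z ≠ 0 := fun h => hni ((hidx i).2 ⟨hi, h⟩)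
        have h3 := lt_of_le_of_ne h1 (Ne.symm h2)
        simpa [hom] using h3
    · have hFS : F ⊆ hull x S := by rw [hl]; exact fun y hy => hy.1
      apply Set.Subset.antisymm
      · intro y hy
        refine mem_hull_of_zero hn (fun i hi h0 => ?_) (hFS hy) ((hFiff y (hFS hy)).1 hy)
        exact mem_hull_self ((hidx i).2 ⟨hi, h0⟩)
      · intro y hy
        have h1 : a y + l z = 0 := aff_zero (fun i hi => ((hidx i).1 hi).2) hy
        exact (hFiff y (hull_mono (filter_subset _ _) hy)).2 h1

lemma idx_hull {x : ι → E} {S I : Finset ι} (h : IsFace (hom x) S I) : idx x S (hull x I) = I := by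
  classical
  obtain ⟨hIS, l, l0, lp⟩ := h
  ext i
  unfold idx
  rw [mem_filter]
  constructor
  · rintro ⟨hi, hx⟩
    by_contra hn
    have h1 : (l ∘ₗ LinearMap.inl ℝ E ℝ) (x i) + l (0, 1) = 0 :=
      aff_zero (fun j hj => by rw [← hom_apply]; exact l0 j hj) hx
    rw [← hom_apply] at h1
    exact absurd h1 (lp i hi hn).ne'
  · intro hi
    exact ⟨hIS hi, mem_hull_self hi⟩

/-- The face lattice of a polytope as a poset of index sets. -/
noncomputable def faceIso (x : ι → E) (S : Finset ι) :
    {I : Finset ι // IsFace (hom x) S I} ≃o {F : Set E | IsExposed ℝ (hull x S) F} where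
  toFun I := ⟨hull x I.1, exposed_of_isFace I.2⟩
  invFun F := ⟨idx x S F.1, (isFace_of_exposed F.2).1⟩
  left_inv I := Subtype.ext (idx_hull I.2)
  right_inv F := Subtype.ext (isFace_of_exposed F.2).2.symm
  map_rel_iff' := by
    intro I J
    constructor
    · intro h
      change hull x I.1 ⊆ hull x J.1 at h
      change I.1 ⊆ J.1
      rw [← idx_hull I.2, ← idx_hull J.2]
      classical
      unfold idx
      intro i hi
      rw [mem_filter] at hi ⊢
      exact ⟨hi.1, h hi.2⟩
    · intro h
      exact hull_mono h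

/-- rank versus dimension -/
lemma rk_hom {x : ι → E} {I : Finset ι} (hI : I.Nonempty) :
    rk (hom x) I = Module.finrank ℝ (vectorSpan ℝ (hull x I)) + 1 := by
  classical
  have hvs : vectorSpan ℝ (hull x I) = vectorSpan ℝ (x '' (I : Set ι)) := by
    rw [← direction_affineSpan, ← direction_affineSpan]
    unfold hull
    rw [affineSpan_convexHull]
  rw [hvs]
  obtain ⟨i₀, hi₀⟩ := hI
  set W := span ℝ (hom x '' (I : Set ι)) with hW
  have hWfd : FiniteDimensional ℝ W := fd_span (hom x) I
  have key := LinearMap.finrank_range_add_finrank_ker ((LinearMap.snd ℝ E ℝ).domRestrict W)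
  have hr : LinearMap.range ((LinearMap.snd ℝ E ℝ).domRestrict W) = ⊤ := by
    rw [LinearMap.range_eq_top]
    intro t
    refine ⟨⟨t • hom x i₀, W.smul_mem t (subset_span (Set.mem_image_of_mem _ hi₀))⟩, ?_⟩
    simp [hom]
  have hk : Module.finrank ℝ (LinearMap.ker ((LinearMap.snd ℝ E ℝ).domRestrict W)) =
      Module.finrank ℝ (vectorSpan ℝ (x '' (I : Set ι))) := by
    have hmem : ∀ w ∈ W, w.1 - w.2 • x i₀ ∈ vectorSpan ℝ (x '' (I : Set ι)) := by
      intro w hw
      induction hw using Submodule.span_induction with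
      | mem w hw =>
        obtain ⟨i, hi, rfl⟩ := hw
        simp only [hom, one_smul]
        exact vsub_mem_vectorSpan ℝ (Set.mem_image_of_mem x hi) (Set.mem_image_of_mem x hi₀)
      | zero => simp
      | add a b _ _ ha hb =>
        have : (a + b).1 - (a + b).2 • x i₀ = (a.1 - a.2 • x i₀) + (b.1 - b.2 • x i₀) := by
          simp only [Prod.fst_add, Prod.snd_add, add_smul]; abel
        rw [this]
        exact add_mem ha hb
      | smul c a _ ha =>
        have : (c • a).1 - (c • a).2 • x i₀ = c • (a.1 - a.2 • x i₀) := by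
          simp only [Prod.smul_fst, Prod.smul_snd, smul_sub, smul_smul, smul_eq_mul]
        rw [this]
        exact Submodule.smul_mem _ _ ha
    have hmem2 : ∀ v ∈ vectorSpan ℝ (x '' (I : Set ι)), ((v, 0) : E × ℝ) ∈ W := by
      intro v hv
      unfold vectorSpan at hv
      induction hv using Submodule.span_induction with
      | mem v hv =>
        obtain ⟨_, ⟨i, hi, rfl⟩, _, ⟨j, hj, rfl⟩, rfl⟩ := hv
        have : ((x i -ᵥ x j, 0) : E × ℝ) = hom x i - hom x j := by
          simp [hom]
        simp only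
        rw [this]
        exact sub_mem (subset_span (Set.mem_image_of_mem _ hi))
          (subset_span (Set.mem_image_of_mem _ hj))
      | zero => exact zero_mem _
      | add a b _ _ ha hb =>
        have : ((a + b, 0) : E × ℝ) = (a, 0) + (b, 0) := by simp
        rw [this]
        exact add_mem ha hb
      | smul c a _ ha =>
        have : ((c • a, 0) : E × ℝ) = c • ((a, 0) : E × ℝ) := by simp
        rw [this]
        exact Submodule.smul_mem _ _ ha
    refine LinearEquiv.finrank_eq ?_
    refine LinearEquiv.ofBijective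
      (LinearMap.codRestrict (vectorSpan ℝ (x '' (I : Set ι)))
        ((LinearMap.fst ℝ E ℝ) ∘ₗ W.subtype ∘ₗ
          (LinearMap.ker ((LinearMap.snd ℝ E ℝ).domRestrict W)).subtype) ?_) ⟨?_, ?_⟩
    · rintro ⟨⟨w, hw⟩, hk⟩
      have h0 : w.2 = 0 := by simpa using hk
      have := hmem w hw
      rw [h0, zero_smul, sub_zero] at this
      exact this
    · rintro ⟨⟨w, hw⟩, hk⟩ ⟨⟨w', hw'⟩, hk'⟩ he
      have h0 : w.2 = 0 := by simpa using hk
      have h0' : w'.2 = 0 := by simpa using hk'
      have h1 : w.1 = w'.1 := by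
        have := congrArg Subtype.val he
        simpa using this
      have h2 : w = w' := Prod.ext h1 (h0.trans h0'.symm)
      subst h2
      rfl
    · rintro ⟨v, hv⟩
      refine ⟨⟨⟨(v, 0), hmem2 v hv⟩, by simp⟩, ?_⟩
      rfl
  rw [hr, hk, finrank_top, Module.finrank_self] at key
  change Module.finrank ℝ W = _
  rw [← key, add_comm]

end Pool.Agent.Lib_helper40.Kal
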