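import Pool.Agent.Lib_helper40.Kal.Euler

/-!
Intervals of the face lattice and chain counting operators.
-/

set_option autoImplicit false
set_option linter.unusedSectionVars false

namespace Pool.Agent.Lib_helper40.Kal

open Finset Submodule

universe u v
variable {ι : Type u} [DecidableEq ι] {V : Type v} [AddCommGroup V] [Module ℝ V]

/-- faces of rank `r` between `F` and `G` -/
noncomputable def mid (p : ι → V) (s F G : Finset ι) (r : ℕ) : Finset (Finset ι) :=
  (facesR p s r).filter fun H => F ⊆ H ∧ H ⊆ G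

lemma mem_mid {p : ι → V} {s F G H : Finset ι} {r : ℕ} :
    H ∈ mid p s F G r ↔ (IsFace p s H ∧ rk p H = r) ∧ F ⊆ H ∧ H ⊆ G := by
  unfold mid
  rw [mem_filter, mem_facesR]

lemma pointed_interval {p : ι → V} {s F G : Finset ι} (hF : IsFace p s F) (hG : IsFace p s G)
    (hFG : F ⊆ G) : IsFace (qf p F) (G \ F) ∅ := by
  rw [isFace_quot hFG]
  refine ⟨empty_subset _, ?_⟩
  rw [union_empty]
  exact (isFace_restrict hG).2 ⟨hF, hFG⟩

lemma rk_interval {p : ι → V} {F G : Finset ι} (hFG : F ⊆ G) :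
    rk (qf p F) (G \ F) + rk p F = rk p G := by
  have := rk_quot p F (G \ F)
  rwa [union_sdiff_of_subset hFG] at this

lemma sum_mid {M : Type*} [AddCommMonoid M] {p : ι → V} {s F G : Finset ι} (hF : IsFace p s F)
    (hG : IsFace p s G) (hFG : F ⊆ G) (r : ℕ) (φ : Finset ι → M) :
    ∑ H ∈ mid p s F G (rk p F + r), φ H = ∑ J ∈ facesR (qf p F) (G \ F) r, φ (F ∪ J) := by
  symm
  apply Finset.sum_bij' (fun J _ => F ∪ J) (fun H _ => H \ F)
  · intro J hJ
    rw [mem_facesR, isFace_quot hFG, isFace_restrict hG] at hJ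
    obtain ⟨⟨h1, h2, h3⟩, h4⟩ := hJ
    rw [mem_mid]
    refine ⟨⟨h2, ?_⟩, subset_union_left, h3⟩
    have := rk_quot p F J
    omega
  · intro H hH
    rw [mem_mid] at hH
    obtain ⟨⟨h1, h2⟩, h3, h4⟩ := hH
    rw [mem_facesR, isFace_quot hFG, isFace_restrict hG, union_sdiff_of_subset h3]
    refine ⟨⟨sdiff_subset_sdiff h4 (Subset.refl _), h1, h4⟩, ?_⟩
    have := rk_quot p F (H \ F)
    rw [union_sdiff_of_subset h3] at this
    omega
  · intro J hJ
    rw [mem_facesR, isFace_quot hFG] at hJ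
    rw [union_sdiff_left]
    apply sdiff_eq_self_of_disjoint
    rw [disjoint_left]
    intro i hi hiJ
    exact (mem_sdiff.1 (hJ.1.1 hi)).2 hiJ
  · intro H hH
    rw [mem_mid] at hH
    exact union_sdiff_of_subset hH.2.1
  · intro J hJ
    rfl

lemma card_mid {p : ι → V} {s F G : Finset ι} (hF : IsFace p s F)
    (hG : IsFace p s G) (hFG : F ⊆ G) (r : ℕ) :
    (mid p s F G (rk p F + r)).card = (facesR (qf p F) (G \ F) r).card := by
  rw [card_eq_sum_ones, sum_mid hF hG hFG r, ← card_eq_sum_ones]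

lemma sum_card_mid {p : ι → V} {s F G : Finset ι} (hF : IsFace p s F)
    (hG : IsFace p s G) (hFG : F ⊆ G) (r t : ℕ) :
    ∑ K ∈ mid p s F G (rk p F + t), (mid p s F K (rk p F + r)).card =
      ∑ J ∈ facesR (qf p F) (G \ F) t, (facesR (qf p F) J r).card := by
  rw [sum_mid hF hG hFG t]
  apply Finset.sum_congr rfl
  intro J hJ
  rw [mem_facesR, isFace_quot hFG, isFace_restrict hG] at hJ
  obtain ⟨⟨h1, h2, h3⟩, h4⟩ := hJ
  rw [card_mid hF h2 subset_union_left]
  have : (F ∪ J) \ F = J := by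
    rw [union_sdiff_left]
    apply sdiff_eq_self_of_disjoint
    rw [disjoint_left]
    intro i hi hiJ
    exact (mem_sdiff.1 (h1 hi)).2 hiJ
  rw [this]

/-! ### Chain counting operators -/

/-- sum over the faces of rank `r` containing `F` -/
noncomputable def U (p : ι → V) (s : Finset ι) (r : ℕ) :
    (Finset ι → ℝ) →ₗ[ℝ] (Finset ι → ℝ) where
  toFun g := fun F => ∑ H ∈ (facesR p s r).filter (fun H => F ⊆ H), g H
  map_add' g g' := by
    funext F
    simp [sum_add_distrib]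
  map_smul' c g := by
    funext F
    simp [mul_sum]

lemma U_apply (p : ι → V) (s : Finset ι) (r : ℕ) (g : Finset ι → ℝ) (F : Finset ι) :
    U p s r g F = ∑ H ∈ (facesR p s r).filter (fun H => F ⊆ H), g H := rfl

lemma U_U (p : ι → V) (s : Finset ι) (r b : ℕ) (g : Finset ι → ℝ) (F : Finset ι) :
    U p s r (U p s b g) F =
      ∑ G ∈ (facesR p s b).filter (fun H => F ⊆ H), ((mid p s F G r).card : ℝ) * g G := by
  simp only [U_apply]
  have h1 : ∀ G ∈ (facesR p s b).filter (fun H => F ⊆ H),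
      ((mid p s F G r).card : ℝ) * g G = ∑ H ∈ mid p s F G r, g G := by
    intro G _
    rw [sum_const, nsmul_eq_mul]
  rw [Finset.sum_congr rfl h1]
  apply Finset.sum_comm'
  intro H G
  simp only [mem_filter, mem_mid, mem_facesR]
  constructor
  · rintro ⟨⟨h1, h2⟩, h3, h4⟩
    exact ⟨⟨h1, h2, h4⟩, h3, h2.trans h4⟩
  · rintro ⟨⟨h1, h2, h4⟩, h3, _⟩
    exact ⟨⟨h1, h2⟩, h3, h4⟩

lemma U_U_U (p : ι → V) (s : Finset ι) (r t b : ℕ) (g : Finset ι → ℝ) (F : Finset ι) :
    U p s r (U p s t (U p s b g)) F =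
      ∑ G ∈ (facesR p s b).filter (fun H => F ⊆ H),
        ((∑ K ∈ mid p s F G t, (mid p s F K r).card : ℕ) : ℝ) * g G := by
  rw [U_U]
  simp only [U_apply]
  have h1 : ∀ G ∈ (facesR p s b).filter (fun H => F ⊆ H),
      ((∑ K ∈ mid p s F G t, (mid p s F K r).card : ℕ) : ℝ) * g G =
        ∑ K ∈ mid p s F G t, ((mid p s F K r).card : ℝ) * g G := by
    intro G _
    rw [Nat.cast_sum, Finset.sum_mul]
  rw [Finset.sum_congr rfl h1]
  have h2 : ∀ K ∈ (facesR p s t).filter (fun H => F ⊆ H),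
      ((mid p s F K r).card : ℝ) * ∑ H ∈ (facesR p s b).filter (fun H => K ⊆ H), g H =
        ∑ H ∈ (facesR p s b).filter (fun H => K ⊆ H), ((mid p s F K r).card : ℝ) * g H := by
    intro K _
    rw [mul_sum]
  rw [Finset.sum_congr rfl h2]
  apply Finset.sum_comm'
  intro K G
  simp only [mem_filter, mem_mid, mem_facesR]
  constructor
  · rintro ⟨⟨h1, h2⟩, h3, h4⟩
    exact ⟨⟨h1, h2, h4⟩, h3, h2.trans h4⟩
  · rintro ⟨⟨h1, h2, h4⟩, h3, _⟩
    exact ⟨⟨h1, h2⟩, h3, h4⟩

/-- positivity -/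
lemma U_nonneg {p : ι → V} {s : Finset ι} {r : ℕ} {g : Finset ι → ℝ}
    (hg : ∀ G ∈ facesR p s r, 0 ≤ g G) (F : Finset ι) : 0 ≤ U p s r g F := by
  rw [U_apply]
  exact Finset.sum_nonneg fun G hG => hg G (mem_filter.1 hG).1

/-- equality depends only on the values on faces of the right rank -/
lemma U_eq_zero {p : ι → V} {s : Finset ι} {r : ℕ} {g : Finset ι → ℝ}
    (hg : ∀ G ∈ facesR p s r, g G = 0) (F : Finset ι) : U p s r g F = 0 := by
  rw [U_apply]
  exact Finset.sum_eq_zero fun G hG => hg G (mem_filter.1 hG).1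

end Pool.Agent.Lib_helper40.Kal
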