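import Pool.Agent.Lib_helper40.Kal.Uncut

set_option autoImplicit false
set_option linter.unusedSectionVars false

namespace Pool.Agent.Lib_helper40.Kal

open Finset Submodule

universe u v
variable {ι : Type u} [DecidableEq ι] {V : Type v} [AddCommGroup V] [Module ℝ V]

open Classical in
/-- The faces of rank `r`. -/
noncomputable def facesR (p : ι → V) (s : Finset ι) (r : ℕ) : Finset (Finset ι) :=
  s.powerset.filter fun I => IsFace p s I ∧ rk p I = r

lemma mem_facesR {p : ι → V} {s I : Finset ι} {r : ℕ} :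
    I ∈ facesR p s r ↔ IsFace p s I ∧ rk p I = r := by
  classical
  simp only [facesR, mem_filter, mem_powerset]
  exact ⟨fun h => h.2, fun h => ⟨h.1.1, h⟩⟩

lemma rk_pos_nonempty {p : ι → V} {I : Finset ι} (h : 0 < rk p I) : I.Nonempty := by
  rw [nonempty_iff_ne_empty]
  rintro rfl
  rw [rk_empty] at h
  exact lt_irrefl _ h

/-- two distinct rays are disjoint -/
lemma ray_disjoint {p : ι → V} {s R R' : Finset ι} (h0 : IsFace p s ∅) (hR : R ∈ facesR p s 1)
    (hR' : R' ∈ facesR p s 1) {i : ι} (hi : i ∈ R) (hi' : i ∈ R') : R = R' := by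
  rw [mem_facesR] at hR hR'
  have hin := hR.1.inter hR'.1
  have hlt : 0 < rk p (R ∩ R') := by
    have := h0.rk_lt hin.1 ⟨empty_subset _, fun h => by
      have := h (mem_inter.2 ⟨hi, hi'⟩); simp at this⟩
    omega
  have h1 : R ∩ R' = R := by
    by_contra hne
    have := hin.rk_lt hR.1.1 ⟨inter_subset_left, fun h => hne (Subset.antisymm inter_subset_left h)⟩
    omega
  have h2 : R ∩ R' = R' := by
    by_contra hne
    have := hin.rk_lt hR'.1.1
      ⟨inter_subset_right, fun h => hne (Subset.antisymm inter_subset_right h)⟩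
    omega
  rw [← h1, h2]

lemma exists_generic (p : ι → V) (s : Finset ι) (lam : V →ₗ[ℝ] ℝ) :
    ∃ psi : V →ₗ[ℝ] ℝ, ∀ i ∈ s, ∀ j ∈ s, lam (p i) • p j - lam (p j) • p i ≠ 0 →
      psi (lam (p i) • p j - lam (p j) • p i) ≠ 0 := by
  classical
  let T := {q : ι × ι // q ∈ (s ×ˢ s).filter fun q : ι × ι =>
    lam (p q.1) • p q.2 - lam (p q.2) • p q.1 ≠ 0}
  obtain ⟨f, hf⟩ := Module.exists_dual_forall_apply_ne_zero (K := ℝ) (M := V)
    (fun q : T => lam (p q.1.1) • p q.1.2 - lam (p q.1.2) • p q.1.1)
    (fun q => (mem_filter.1 q.2).2)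
  refine ⟨f, fun i hi j hj h => ?_⟩
  exact hf ⟨(i, j), mem_filter.2 ⟨mem_product.2 ⟨hi, hj⟩, h⟩⟩

/-- rank one: all vectors of a ray are proportional -/
lemma ray_prop {p : ι → V} {s R : Finset ι} (h0 : IsFace p s ∅) (hR : R ∈ facesR p s 1)
    {i j : ι} (hi : i ∈ R) (hj : j ∈ R) : p j ∈ span ℝ (p '' (({i} : Finset ι) : Set ι)) := by
  rw [mem_facesR] at hR
  have h1 : span ℝ (p '' (({i} : Finset ι) : Set ι)) ≤ span ℝ (p '' (R : Set ι)) :=
    span_mono (Set.image_mono (by simpa using hi))
  have h2 : span ℝ (p '' (({i} : Finset ι) : Set ι)) = span ℝ (p '' (R : Set ι)) := by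
    apply Submodule.eq_of_le_of_finrank_le h1
    have h3 : Module.finrank ℝ (span ℝ (p '' (R : Set ι))) = 1 := hR.2
    rw [h3]
    have hpi : p i ≠ 0 := by
      intro h
      obtain ⟨_, l, _, lp⟩ := h0
      have := lp i (hR.1.1 hi) (by simp)
      rw [h] at this
      simp at this
    rw [coe_singleton, Set.image_singleton, finrank_span_singleton hpi]
  rw [h2]
  exact subset_span (Set.mem_image_of_mem p hj)

theorem card_rays_le {p : ι → V} {s : Finset ι} (h0 : IsFace p s ∅) {k : ℕ}
    (hk : 2 * k ≤ rk p s) :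
    (facesR p s 1).card ≤ 2 * (facesR p s (k + 1)).card := by
  classical
  obtain ⟨_, lam, _, lpos⟩ := id h0
  have lpos : ∀ i ∈ s, 0 < lam (p i) := fun i hi => lpos i hi (by simp)
  obtain ⟨psi, hpsi⟩ := exists_generic p s lam
  -- key statement
  have key : ∀ R ∈ facesR p s 1, ∃ G ∈ facesR p s (k + 1), ∃ b : Bool, R ⊆ G ∧
      ∀ i ∈ R, ∀ j ∈ G, j ∉ R → if b then psi (p i) * lam (p j) < psi (p j) * lam (p i)
        else psi (p j) * lam (p i) < psi (p i) * lam (p j) := by
    intro R hR
    obtain ⟨hRf, hR1⟩ := mem_facesR.1 hR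
    obtain ⟨i₀, hi₀⟩ := rk_pos_nonempty (p := p) (I := R) (by omega)
    have hi₀s := hRf.1 hi₀
    have hl₀ := lpos i₀ hi₀s
    set h : V →ₗ[ℝ] ℝ := lam (p i₀) • psi - psi (p i₀) • lam with hh
    have hval : ∀ x, h x = lam (p i₀) * psi x - psi (p i₀) * lam x := by
      intro x; simp [hh]
    have hprop : ∀ i ∈ R, ∃ c : ℝ, p i = c • p i₀ := by
      intro i hi
      have := ray_prop h0 hR hi₀ hi
      rw [coe_singleton, Set.image_singleton, mem_span_singleton] at this
      obtain ⟨c, hc⟩ := this
      exact ⟨c, hc.symm⟩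
    have hR0 : ∀ i ∈ R, h (p i) = 0 := by
      intro i hi
      obtain ⟨c, hc⟩ := hprop i hi
      rw [hval, hc]
      simp only [map_smul, smul_eq_mul]
      ring
    have hne : ∀ j ∈ s, j ∉ R → h (p j) ≠ 0 := by
      intro j hj hjR
      have hv : lam (p i₀) • p j - lam (p j) • p i₀ ≠ 0 := by
        intro he
        apply hjR
        refine hRf.mem_of_span hj ?_
        have h1 : p j = (lam (p j) / lam (p i₀)) • p i₀ := by
          rw [sub_eq_zero] at he
          rw [div_eq_inv_mul, mul_smul, ← he, smul_smul, inv_mul_cancel₀ hl₀.ne', one_smul]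
        rw [h1]
        exact smul_mem _ _ (subset_span (Set.mem_image_of_mem p hi₀))
      have := hpsi i₀ hi₀s j hj hv
      rw [map_sub, map_smul, map_smul, smul_eq_mul, smul_eq_mul] at this
      rw [hval]
      intro h2
      apply this
      linarith
    -- the quotient family
    have hker : span ℝ (p '' (R : Set ι)) ≤ LinearMap.ker h := le_ker_of_zero hR0
    set hb : (V ⧸ span ℝ (p '' (R : Set ι))) →ₗ[ℝ] ℝ := liftQ _ h hker with hhb
    have hbv : ∀ i, hb (qf p R i) = h (p i) := by
      intro i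
      simp [hhb, qf]
    have hq0 : IsFace (qf p R) (s \ R) ∅ := by
      rw [isFace_quot hRf.1]
      exact ⟨empty_subset _, by simpa using hRf⟩
    obtain ⟨FA, FB, hFA, hFB, hA, hB, hsum⟩ := exists_uncut hq0 hb (by
      intro i hi
      rw [hbv]
      rw [mem_sdiff] at hi
      exact hne i hi.1 hi.2)
    have hrks : rk (qf p R) (s \ R) + 1 = rk p s := by
      have := rk_quot p R (s \ R)
      rw [union_sdiff_of_subset hRf.1, hR1] at this
      exact this
    -- common finishing
    have finish : ∀ F, IsFace (qf p R) (s \ R) F → k ≤ rk (qf p R) F →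
        ∃ F', F' ⊆ F ∧ R ∪ F' ∈ facesR p s (k + 1) := by
      intro F hF hkF
      have h1 : IsFace (qf p R) F ∅ := (isFace_restrict hF).2 ⟨hq0, empty_subset _⟩
      obtain ⟨F', hF', -, hr⟩ := exists_face_rk h1 k (by rw [rk_empty]; omega) hkF
      have h2 := (isFace_restrict hF).1 hF'
      have h3 := (isFace_quot hRf.1).1 h2.1
      refine ⟨F', h2.2, mem_facesR.2 ⟨h3.2, ?_⟩⟩
      have := rk_quot p R F'
      omega
    have hor : k ≤ rk (qf p R) FA ∨ k ≤ rk (qf p R) FB := by omega
    have trans1 : ∀ i ∈ R, ∀ j, h (p j) * lam (p i) =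
        lam (p i₀) * (psi (p j) * lam (p i) - psi (p i) * lam (p j)) := by
      intro i hi j
      obtain ⟨c, hc⟩ := hprop i hi
      rw [hval, hc]
      simp only [map_smul, smul_eq_mul]
      ring
    rcases hor with hor | hor
    · obtain ⟨F', hF', hG⟩ := finish FA hFA hor
      refine ⟨_, hG, true, subset_union_left, ?_⟩
      intro i hi j hj hjR
      simp only [if_true]
      have hjF : j ∈ F' := (mem_union.1 hj).resolve_left hjR
      have h1 := hA j (hF' hjF)
      rw [hbv] at h1
      have h2 := mul_pos h1 (lpos i (hRf.1 hi))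
      rw [trans1 i hi j] at h2
      have := (mul_pos_iff_of_pos_left hl₀).1 h2
      linarith
    · obtain ⟨F', hF', hG⟩ := finish FB hFB hor
      refine ⟨_, hG, false, subset_union_left, ?_⟩
      intro i hi j hj hjR
      simp only [Bool.false_eq_true, if_false]
      have hjF : j ∈ F' := (mem_union.1 hj).resolve_left hjR
      have h1 := hB j (hF' hjF)
      rw [hbv] at h1
      have h2 := mul_neg_of_neg_of_pos h1 (lpos i (hRf.1 hi))
      rw [trans1 i hi j] at h2
      by_contra hc
      push Not at hc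
      have := mul_nonneg hl₀.le (sub_nonneg.2 hc)
      linarith
  choose! G hG b hb using key
  have hinj : Set.InjOn (fun R => (G R, b R)) (facesR p s 1 : Set (Finset ι)) := by
    intro R hR R' hR' he
    simp only [Prod.mk.injEq] at he
    have hR := mem_coe.1 hR
    have hR' := mem_coe.1 hR'
    by_contra hne
    obtain ⟨i, hi⟩ := rk_pos_nonempty (p := p) (I := R) (by rw [(mem_facesR.1 hR).2]; omega)
    obtain ⟨j, hj⟩ := rk_pos_nonempty (p := p) (I := R') (by rw [(mem_facesR.1 hR').2]; omega)
    have hjR : j ∉ R := fun h => hne (ray_disjoint h0 hR hR' h hj)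
    have hiR' : i ∉ R' := fun h => hne (ray_disjoint h0 hR hR' hi h)
    have h1 := (hb R hR).2 i hi j (he.1 ▸ (hb R' hR').1 hj) hjR
    have h2 := (hb R' hR').2 j hj i (he.1 ▸ (hb R hR).1 hi) hiR'
    rw [he.2] at h1
    cases hbb : b R' with
    | true =>
      rw [hbb] at h1 h2
      simp only [if_true] at h1 h2
      linarith
    | false =>
      rw [hbb] at h1 h2
      simp only [Bool.false_eq_true, if_false] at h1 h2
      linarith
  have hcard := card_le_card_of_injOn (s := facesR p s 1)
    (t := facesR p s (k + 1) ×ˢ (univ : Finset Bool)) (fun R => (G R, b R)) (by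
      intro R hR
      simp only [coe_product, Set.mem_prod, mem_coe, mem_univ, and_true]
      exact hG R (mem_coe.1 hR)) hinj
  rw [card_product] at hcard
  simp only [card_univ, Fintype.card_bool] at hcard
  omega

end Pool.Agent.Lib_helper40.Kal
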