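import Pool.Agent.Lib_helper40.Kal.Main3

/-!
Polytopes whose (k-1)-faces lie in boundedly many facets.
-/

set_option autoImplicit false
set_option linter.unusedSectionVars false

namespace Pool.Agent.Lib_helper40.Kal

open Finset Submodule

universe u v
variable {ι : Type u} [DecidableEq ι] {V : Type v} [AddCommGroup V] [Module ℝ V]

/-- a face and a point outside are separated by a facet -/
lemma exists_facet_avoid {p : ι → V} {s G : Finset ι} {n : ℕ} (hs : rk p s = n + 1)
    (hG : IsFace p s G) {i : ι} (hi : i ∈ s) (hiG : i ∉ G) :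
    ∃ T ∈ facesR p s n, G ⊆ T ∧ i ∉ T := by
  classical
  let P : Finset (Finset ι) := s.powerset.filter fun T => IsFace p s T ∧ G ⊆ T ∧ i ∉ T
  have hP : P.Nonempty := ⟨G, by
    simp only [P, mem_filter, mem_powerset]
    exact ⟨hG.1, hG, Subset.refl _, hiG⟩⟩
  obtain ⟨T, hT, hmax⟩ := exists_max_image P (rk p) hP
  simp only [P, mem_filter, mem_powerset] at hT hmax
  obtain ⟨hTs, hTf, hGT, hiT⟩ := hT
  refine ⟨T, mem_facesR.2 ⟨hTf, ?_⟩, hGT, hiT⟩
  have hlt := hTf.rk_lt (Subset.refl s) ⟨hTs, fun h => hiT (h hi)⟩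
  by_contra hne
  have h2 : 2 ≤ rk (qf p T) (s \ T) := by
    have := rk_interval (p := p) hTs
    omega
  have hq0 := pointed_interval hTf (isFace_self p s) hTs
  have hrays := rk_le_card_rays hq0
  obtain ⟨R, hR, R', hR', hRR⟩ := one_lt_card.1 (by omega : 1 < (facesR (qf p T) (s \ T) 1).card)
  have key : ∀ R ∈ facesR (qf p T) (s \ T) 1, i ∈ R := by
    intro R hR
    rw [mem_facesR, isFace_quot hTs] at hR
    by_contra hiR
    have h3 := hmax (T ∪ R) ⟨hR.1.2.1, hR.1.2, hGT.trans subset_union_left, by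
      rw [mem_union, not_or]; exact ⟨hiT, hiR⟩⟩
    have := rk_quot p T R
    omega
  exact hRR (ray_disjoint hq0 hR hR' (key R hR) (key R' hR'))

open Classical in
/-- the faces containing `F` -/
noncomputable def upf (p : ι → V) (s F : Finset ι) : Finset (Finset ι) :=
  s.powerset.filter fun G => IsFace p s G ∧ F ⊆ G

lemma mem_upf {p : ι → V} {s F G : Finset ι} : G ∈ upf p s F ↔ IsFace p s G ∧ F ⊆ G := by
  classical
  unfold upf
  rw [mem_filter, mem_powerset]
  exact ⟨fun h => h.2, fun h => ⟨h.1.1, h⟩⟩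

lemma card_upf_le {p : ι → V} {s F : Finset ι} {n : ℕ} (hs : rk p s = n + 1) :
    (upf p s F).card ≤ 2 ^ ((facesR p s n).filter (fun T => F ⊆ T)).card := by
  classical
  rw [← card_powerset]
  apply card_le_card_of_injOn
    (fun G => ((facesR p s n).filter (fun T => F ⊆ T)).filter (fun T => G ⊆ T))
  · intro G _
    rw [mem_coe, mem_powerset]
    exact filter_subset _ _
  · intro G hG G' hG' he
    have hG := mem_upf.1 (mem_coe.1 hG)
    have hG' := mem_upf.1 (mem_coe.1 hG')
    have key : ∀ A B : Finset ι, IsFace p s A → F ⊆ A → IsFace p s B →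
        ((facesR p s n).filter (fun T => F ⊆ T)).filter (fun T => A ⊆ T) =
        ((facesR p s n).filter (fun T => F ⊆ T)).filter (fun T => B ⊆ T) → B ⊆ A := by
      intro A B hA hFA hB heq i hi
      by_contra hiA
      obtain ⟨T, hT, hAT, hiT⟩ := exists_facet_avoid hs hA (hB.1 hi) hiA
      have : T ∈ ((facesR p s n).filter (fun T => F ⊆ T)).filter (fun T => A ⊆ T) := by
        rw [mem_filter, mem_filter]
        exact ⟨⟨hT, hFA.trans hAT⟩, hAT⟩
      rw [heq, mem_filter] at this
      exact hiT (this.2 hi)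
    exact Subset.antisymm (key G' G hG'.1 hG'.2 hG.1 he.symm) (key G G' hG.1 hG.2 hG'.1 he)

/-- double counting -/
lemma sum_card_comm {p : ι → V} {s : Finset ι} (r m : ℕ) :
    ∑ F ∈ facesR p s r, ((facesR p s m).filter (fun G => F ⊆ G)).card =
      ∑ G ∈ facesR p s m, (facesR p G r).card := by
  have h1 : ∀ F ∈ facesR p s r, ((facesR p s m).filter (fun G => F ⊆ G)).card =
      ∑ G ∈ (facesR p s m).filter (fun G => F ⊆ G), 1 := fun F _ => by simp
  have h2 : ∀ G ∈ facesR p s m, (facesR p G r).card = ∑ F ∈ facesR p G r, 1 := fun G _ => by simp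
  rw [Finset.sum_congr rfl h1, Finset.sum_congr rfl h2]
  apply Finset.sum_comm'
  intro F G
  rw [mem_filter]
  constructor
  · rintro ⟨h1, h2, h3⟩
    exact ⟨(facesR_restrict (mem_facesR.1 h2).1).2 ⟨h1, h3⟩, h2⟩
  · rintro ⟨h1, h2⟩
    obtain ⟨h3, h4⟩ := (facesR_restrict (mem_facesR.1 h2).1).1 h1
    exact ⟨h3, h2, h4⟩

/-- the constants -/
def cst (B : ℕ) : ℕ → ℕ
  | 0 => 2
  | r + 1 => 2 * B * cst B r

theorem card_le_cst (k B : ℕ) (hk : 1 ≤ k) (r : ℕ) : ∀ (s : Finset ι) (p : ι → V),
    IsFace p s ∅ → k * 2 ^ (r + 1) ≤ rk p s →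
    (∀ F ∈ facesR p s (k + 1), (upf p s F).card ≤ B) →
    (facesR p s (r + 1)).card ≤ cst B r * (facesR p s (k + 1)).card := by
  classical
  induction r with
  | zero =>
    intro s p h0 hrk _
    have := card_rays_le (k := k) h0 (by omega)
    simpa [cst] using this
  | succ r ih =>
    intro s p h0 hrk hB
    set m := k * 2 ^ (r + 1) with hm
    have hpow : r + 2 ≤ m := by
      have h1 : r + 2 ≤ 2 ^ (r + 1) := by
        have := Nat.lt_two_pow_self (n := r + 1)
        omega
      calc r + 2 ≤ 2 ^ (r + 1) := h1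
        _ = 1 * 2 ^ (r + 1) := (one_mul _).symm
        _ ≤ k * 2 ^ (r + 1) := Nat.mul_le_mul_right _ hk
    have h2m : 2 * m ≤ rk p s := by
      have : k * 2 ^ (r + 1 + 1) = 2 * m := by rw [hm]; ring
      omega
    -- step 1
    have step1 : (facesR p s (r + 1 + 1)).card ≤
        ∑ F ∈ facesR p s (r + 1), ((facesR p s (r + 1 + 1)).filter (fun G => F ⊆ G)).card := by
      rw [sum_card_comm]
      rw [card_eq_sum_ones]
      apply Finset.sum_le_sum
      intro G hG
      rw [mem_facesR] at hG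
      obtain ⟨F, hF, -, hFr⟩ := exists_face_rk ((isFace_restrict hG.1).2 ⟨h0, empty_subset _⟩)
        (r + 1) (by rw [rk_empty]; omega) (by omega)
      exact card_pos.2 ⟨F, mem_facesR.2 ⟨hF, hFr⟩⟩
    -- step 2
    have step2 : ∀ F ∈ facesR p s (r + 1),
        ((facesR p s (r + 1 + 1)).filter (fun G => F ⊆ G)).card ≤
          2 * ((facesR p s m).filter (fun G => F ⊆ G)).card := by
      intro F hF
      have hF' := mem_facesR.1 hF
      have hmid : ∀ t, (facesR p s (rk p F + t)).filter (fun G => F ⊆ G) =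
          mid p s F s (rk p F + t) := by
        intro t
        ext G
        rw [mem_filter, mem_mid, mem_facesR]
        constructor
        · rintro ⟨h1, h2⟩; exact ⟨h1, h2, h1.1.1⟩
        · rintro ⟨h1, h2, _⟩; exact ⟨h1, h2⟩
      have hq0 := pointed_interval hF'.1 (isFace_self p s) hF'.1.1
      have hqr := rk_interval (p := p) hF'.1.1
      obtain ⟨j, hj⟩ := Nat.exists_eq_add_of_le hpow
      have h1 := hmid 1
      have h2 := hmid (j + 1)
      rw [hF'.2] at h1 h2
      have hmj : r + 1 + (j + 1) = m := by omega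
      rw [hmj] at h2
      rw [h1, h2]
      have h3 := card_mid hF'.1 (isFace_self p s) hF'.1.1 1
      have h4 := card_mid hF'.1 (isFace_self p s) hF'.1.1 (j + 1)
      rw [hF'.2] at h3 h4
      rw [hmj] at h4
      rw [h3, h4]
      apply card_rays_le hq0
      omega
    -- step 3
    have step3 : ∀ G ∈ facesR p s m, (facesR p G (r + 1)).card ≤
        cst B r * (facesR p G (k + 1)).card := by
      intro G hG
      have hG' := mem_facesR.1 hG
      apply ih G p ((isFace_restrict hG'.1).2 ⟨h0, empty_subset _⟩) (by omega)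
      intro F hF
      have hF' := (facesR_restrict hG'.1).1 hF
      refine le_trans (card_le_card ?_) (hB F hF'.1)
      intro H hH
      rw [mem_upf, isFace_restrict hG'.1] at hH
      exact mem_upf.2 ⟨hH.1.1, hH.2⟩
    have step4 : ∑ G ∈ facesR p s m, (facesR p G (k + 1)).card ≤
        B * (facesR p s (k + 1)).card := by
      rw [← sum_card_comm]
      calc ∑ F ∈ facesR p s (k + 1), ((facesR p s m).filter (fun G => F ⊆ G)).card
          ≤ ∑ F ∈ facesR p s (k + 1), B := by
            apply Finset.sum_le_sum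
            intro F hF
            refine le_trans (card_le_card ?_) (hB F hF)
            intro G hG
            rw [mem_filter, mem_facesR] at hG
            exact mem_upf.2 ⟨hG.1.1, hG.2⟩
        _ = B * (facesR p s (k + 1)).card := by rw [sum_const, smul_eq_mul, mul_comm]
    calc (facesR p s (r + 1 + 1)).card
        ≤ ∑ F ∈ facesR p s (r + 1), 2 * ((facesR p s m).filter (fun G => F ⊆ G)).card :=
          step1.trans (Finset.sum_le_sum step2)
      _ = 2 * ∑ G ∈ facesR p s m, (facesR p G (r + 1)).card := by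
          rw [← mul_sum, sum_card_comm]
      _ ≤ 2 * ∑ G ∈ facesR p s m, cst B r * (facesR p G (k + 1)).card :=
          Nat.mul_le_mul_left _ (Finset.sum_le_sum step3)
      _ = 2 * cst B r * ∑ G ∈ facesR p s m, (facesR p G (k + 1)).card := by
          rw [← mul_sum, mul_assoc]
      _ ≤ 2 * cst B r * (B * (facesR p s (k + 1)).card) := Nat.mul_le_mul_left _ step4
      _ = cst B (r + 1) * (facesR p s (k + 1)).card := by
          simp only [cst]; ring

/-- families whose rank `k+1` faces lie in at most `M` facets have a small face of rank `k+1` -/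
theorem exists_small_bounded (k M : ℕ) (hk : 1 ≤ k) {p : ι → V} {s : Finset ι} {n : ℕ}
    (h0 : IsFace p s ∅) (hs : rk p s = n + 1) (hrk : k * 2 ^ (k + 1) ≤ rk p s)
    (hM : ∀ F ∈ facesR p s (k + 1), ((facesR p s n).filter (fun T => F ⊆ T)).card ≤ M) :
    ∃ K ∈ facesR p s (k + 1), (facesR p K 1).card ≤ 2 ^ cst (2 ^ M) k := by
  classical
  obtain ⟨r, rfl⟩ : ∃ r, k = r + 1 := ⟨k - 1, by omega⟩
  set B := 2 ^ M with hBd
  have hB : ∀ F ∈ facesR p s (r + 1 + 1), (upf p s F).card ≤ B := fun F hF =>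
    (card_upf_le hs).trans (Nat.pow_le_pow_right (by norm_num) (hM F hF))
  set m := (r + 1) * 2 ^ (r + 1) with hm
  have h2m : 2 * m ≤ rk p s := by
    have : (r + 1) * 2 ^ (r + 1 + 1) = 2 * m := by rw [hm]; ring
    omega
  have hpow : r + 2 ≤ m := by
    have h1 : 2 ≤ 2 ^ (r + 1) := by
      have := Nat.lt_two_pow_self (n := r + 1)
      omega
    have h2 : (r + 1) * 2 ≤ (r + 1) * 2 ^ (r + 1) := Nat.mul_le_mul_left _ h1
    omega
  have hne : (facesR p s (r + 1 + 1)).Nonempty := by
    obtain ⟨F, hF, -, hFr⟩ := exists_face_rk h0 (r + 1 + 1) (by rw [rk_empty]; omega) (by omega)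
    exact ⟨F, mem_facesR.2 ⟨hF, hFr⟩⟩
  -- step 2
  have step2 : ∀ F ∈ facesR p s (r + 1),
      ((facesR p s (r + 1 + 1)).filter (fun G => F ⊆ G)).card ≤
        2 * ((facesR p s m).filter (fun G => F ⊆ G)).card := by
    intro F hF
    have hF' := mem_facesR.1 hF
    have hmid : ∀ t, (facesR p s (rk p F + t)).filter (fun G => F ⊆ G) =
        mid p s F s (rk p F + t) := by
      intro t
      ext G
      rw [mem_filter, mem_mid, mem_facesR]
      constructor
      · rintro ⟨h1, h2⟩; exact ⟨h1, h2, h1.1.1⟩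
      · rintro ⟨h1, h2, _⟩; exact ⟨h1, h2⟩
    have hq0 := pointed_interval hF'.1 (isFace_self p s) hF'.1.1
    have hqr := rk_interval (p := p) hF'.1.1
    obtain ⟨j, hj⟩ := Nat.exists_eq_add_of_le hpow
    have h1 := hmid 1
    have h2 := hmid (j + 1)
    rw [hF'.2] at h1 h2
    have hmj : r + 1 + (j + 1) = m := by omega
    rw [hmj] at h2
    rw [h1, h2]
    have h3 := card_mid hF'.1 (isFace_self p s) hF'.1.1 1
    have h4 := card_mid hF'.1 (isFace_self p s) hF'.1.1 (j + 1)
    rw [hF'.2] at h3 h4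
    rw [hmj] at h4
    rw [h3, h4]
    apply card_rays_le hq0
    omega
  -- step 3
  have step3 : ∀ G ∈ facesR p s m, (facesR p G (r + 1)).card ≤
      cst B r * (facesR p G (r + 1 + 1)).card := by
    intro G hG
    have hG' := mem_facesR.1 hG
    apply card_le_cst (r + 1) B (by omega) r G p
      ((isFace_restrict hG'.1).2 ⟨h0, empty_subset _⟩) (by rw [hG'.2])
    intro F hF
    have hF' := (facesR_restrict hG'.1).1 hF
    refine le_trans (card_le_card ?_) (hB F hF'.1)
    intro H hH
    rw [mem_upf, isFace_restrict hG'.1] at hH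
    exact mem_upf.2 ⟨hH.1.1, hH.2⟩
  have step4 : ∑ G ∈ facesR p s m, (facesR p G (r + 1 + 1)).card ≤
      B * (facesR p s (r + 1 + 1)).card := by
    rw [← sum_card_comm]
    calc ∑ F ∈ facesR p s (r + 1 + 1), ((facesR p s m).filter (fun G => F ⊆ G)).card
        ≤ ∑ F ∈ facesR p s (r + 1 + 1), B := by
          apply Finset.sum_le_sum
          intro F hF
          refine le_trans (card_le_card ?_) (hB F hF)
          intro G hG
          rw [mem_filter, mem_facesR] at hG
          exact mem_upf.2 ⟨hG.1.1, hG.2⟩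
      _ = B * (facesR p s (r + 1 + 1)).card := by rw [sum_const, smul_eq_mul, mul_comm]
  have hsum : ∑ K ∈ facesR p s (r + 1 + 1), (facesR p K (r + 1)).card ≤
      cst B (r + 1) * (facesR p s (r + 1 + 1)).card := by
    rw [← sum_card_comm]
    calc ∑ F ∈ facesR p s (r + 1), ((facesR p s (r + 1 + 1)).filter (fun G => F ⊆ G)).card
        ≤ ∑ F ∈ facesR p s (r + 1), 2 * ((facesR p s m).filter (fun G => F ⊆ G)).card :=
          Finset.sum_le_sum step2
      _ = 2 * ∑ G ∈ facesR p s m, (facesR p G (r + 1)).card := by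
          rw [← mul_sum, sum_card_comm]
      _ ≤ 2 * ∑ G ∈ facesR p s m, cst B r * (facesR p G (r + 1 + 1)).card :=
          Nat.mul_le_mul_left _ (Finset.sum_le_sum step3)
      _ = 2 * cst B r * ∑ G ∈ facesR p s m, (facesR p G (r + 1 + 1)).card := by
          rw [← mul_sum, mul_assoc]
      _ ≤ 2 * cst B r * (B * (facesR p s (r + 1 + 1)).card) := Nat.mul_le_mul_left _ step4
      _ = cst B (r + 1) * (facesR p s (r + 1 + 1)).card := by
          simp only [cst]; ring
  obtain ⟨K, hK, hKle⟩ : ∃ K ∈ facesR p s (r + 1 + 1), (facesR p K (r + 1)).card ≤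
      cst B (r + 1) := by
    apply exists_le_of_sum_le hne
    rw [sum_const, smul_eq_mul, mul_comm]
    exact hsum
  refine ⟨K, hK, ?_⟩
  have hK' := mem_facesR.1 hK
  have h1 : (upf p K ∅).card ≤ 2 ^ cst B (r + 1) := by
    refine (card_upf_le (F := ∅) hK'.2).trans (Nat.pow_le_pow_right (by norm_num) ?_)
    exact (card_filter_le _ _).trans hKle
  refine le_trans (card_le_card ?_) h1
  intro R hR
  rw [mem_facesR] at hR
  exact mem_upf.2 ⟨hR.1, empty_subset _⟩

/-- **Polytopes whose `k`-faces lie in at most `M` facets.** -/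
theorem mainBounded (k M : ℕ) (hk : 1 ≤ k) :
    ∃ (m : ℕ) (Q : Fin m → Set (EuclideanSpace ℝ (Fin k))),
      (∀ i, (∃ S : Finset (EuclideanSpace ℝ (Fin k)),
              Q i = convexHull ℝ (S : Set (EuclideanSpace ℝ (Fin k)))) ∧
            Module.finrank ℝ (vectorSpan ℝ (Q i)) = k) ∧
      ∀ (n : ℕ) (P : Set (EuclideanSpace ℝ (Fin n))),
        (∃ S : Finset (EuclideanSpace ℝ (Fin n)),
            P = convexHull ℝ (S : Set (EuclideanSpace ℝ (Fin n)))) →
        k * 2 ^ (k + 1) ≤ Module.finrank ℝ (vectorSpan ℝ P) →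
        (∀ F : Set (EuclideanSpace ℝ (Fin n)), IsExposed ℝ P F → F.Nonempty →
          Module.finrank ℝ (vectorSpan ℝ F) = k →
          {G : Set (EuclideanSpace ℝ (Fin n)) | IsExposed ℝ P G ∧ F ⊆ G ∧
            Module.finrank ℝ (vectorSpan ℝ G) + 1 =
              Module.finrank ℝ (vectorSpan ℝ P)}.encard ≤ M) →
        ∃ F : Set (EuclideanSpace ℝ (Fin n)), IsExposed ℝ P F ∧ F.Nonempty ∧
          Module.finrank ℝ (vectorSpan ℝ F) = k ∧
          ∃ i : Fin m, Nonempty
            ({G : Set (EuclideanSpace ℝ (Fin n)) | IsExposed ℝ F G} ≃o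
             {G : Set (EuclideanSpace ℝ (Fin k)) | IsExposed ℝ (Q i) G}) := by
  classical
  obtain ⟨m, Q, hQ, hlist⟩ := exists_list k (2 ^ cst (2 ^ M) k)
  refine ⟨m, Q, hQ, ?_⟩
  rintro n P ⟨S, rfl⟩ hP hM
  set x : EuclideanSpace ℝ (Fin n) → EuclideanSpace ℝ (Fin n) := id with hx
  have hPS : convexHull ℝ (S : Set _) = hull x S := by
    unfold hull; rw [hx, Set.image_id]
  rw [hPS] at hP hM ⊢
  have hpos : 1 ≤ k * 2 ^ (k + 1) := Nat.mul_pos hk (by positivity)
  have hS : S.Nonempty := by
    rw [nonempty_iff_ne_empty]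
    rintro rfl
    unfold hull at hP
    rw [coe_empty, Set.image_empty, convexHull_empty, vectorSpan_empty, finrank_bot] at hP
    omega
  have hrk := rk_hom (x := x) hS
  have h0 := hom_pointed x S
  obtain ⟨K, hK, hKc⟩ := exists_small_bounded k M hk h0 hrk (by omega) (by
    intro F hF
    have hF' := mem_facesR.1 hF
    have hFne : F.Nonempty := rk_pos_nonempty (p := hom x) (by omega)
    have h1 := hM (hull x F) (exposed_of_isFace hF'.1) (hull_nonempty_iff.2 hFne) (by
      have := rk_hom (x := x) hFne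
      omega)
    have h2 : ((((facesR (hom x) S (Module.finrank ℝ (vectorSpan ℝ (hull x S)))).filter
        (fun T => F ⊆ T)).image (hull x) : Finset _) : Set _) ⊆
        {G : Set (EuclideanSpace ℝ (Fin n)) | IsExposed ℝ (hull x S) G ∧ hull x F ⊆ G ∧
            Module.finrank ℝ (vectorSpan ℝ G) + 1 =
              Module.finrank ℝ (vectorSpan ℝ (hull x S))} := by
      intro G hG
      rw [mem_coe, mem_image] at hG
      obtain ⟨T, hT, rfl⟩ := hG
      rw [mem_filter, mem_facesR] at hT
      refine ⟨exposed_of_isFace hT.1.1, hull_mono hT.2, ?_⟩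
      have hTne : T.Nonempty := rk_pos_nonempty (p := hom x) (by omega)
      have := rk_hom (x := x) hTne
      omega
    have h3 := (Set.encard_le_encard h2).trans h1
    rw [Set.encard_coe_eq_coe_finsetCard, card_image_of_injOn] at h3
    · exact_mod_cast h3
    · intro T hT T' hT' he
      have hT := (mem_facesR.1 (mem_filter.1 (mem_coe.1 hT)).1).1
      have hT' := (mem_facesR.1 (mem_filter.1 (mem_coe.1 hT')).1).1
      rw [← idx_hull hT, ← idx_hull hT', he])
  have hK' := mem_facesR.1 hK
  have hKne : K.Nonempty := rk_pos_nonempty (p := hom x) (by omega)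
  have hK3 : Module.finrank ℝ (vectorSpan ℝ (hull x K)) = k := by
    have := rk_hom (x := x) hKne
    omega
  refine ⟨hull x K, exposed_of_isFace hK'.1, hull_nonempty_iff.2 hKne, hK3, ?_⟩
  obtain ⟨i, hi⟩ := hlist _ _ x K hKne hK3 hKc
  exact ⟨i, hi⟩

end Pool.Agent.Lib_helper40.Kal
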