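import Pool.Agent.Lib_helper40.Kal.Flags

/-!
The linear certificate for rank eight families (7-polytopes).
-/

set_option autoImplicit false
set_option linter.unusedSectionVars false
set_option linter.unusedSimpArgs false

namespace Pool.Agent.Lib_helper40.Kal

open Finset Submodule

universe u v
variable {ι : Type u} [DecidableEq ι] {V : Type v} [AddCommGroup V] [Module ℝ V]

/-- Every rank eight pointed family has a rank four face with fewer than 97 rays. -/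
theorem exists_small {p : ι → V} {s : Finset ι} (h0 : IsFace p s ∅) (hrk : rk p s = 8) :
    ∃ K ∈ facesR p s 4, (facesR p K 1).card < 97 := by
  classical
  by_contra hcon
  push Not at hcon
  have hN : ∀ K ∈ facesR p s 4, 97 ≤ (facesR p K 1).card := hcon
  have hm : ∅ ∈ facesR p s 0 := by rw [facesR_zero h0]; exact mem_singleton_self _
  have htop : U p s 8 (fun _ => 1) ∅ = 1 := by
    rw [U_apply]
    have h8 : facesR p s 8 = {s} := by rw [← hrk]; exact facesR_top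
    rw [h8]
    simp [filter_singleton]
  -- 1_5*1_1
  have i0 := (NN_one (p := p) (s := s) (a := 0) (b := 6) (NN_one (p := p) (s := s) (a := 6) (b := 8) (NN_const (p := p) (s := s) 8))) ∅ hm
  -- g1_6*1_0
  have i1 := (NN_g1 (p := p) (s := s) 0 7 (NN_one (p := p) (s := s) (a := 7) (b := 8) (NN_const (p := p) (s := s) 8))) ∅ hm
  -- G1_7
  have i2 := (NN_G1 (p := p) (s := s) 0 7 (NN_const (p := p) (s := s) 8)) ∅ hm
  -- 1_0*g1_6
  have i3 := (NN_one (p := p) (s := s) (a := 0) (b := 1) (NN_g1 (p := p) (s := s) 1 7 (NN_const (p := p) (s := s) 8))) ∅ hm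
  -- 1_4*g1_2
  have i4 := (NN_one (p := p) (s := s) (a := 0) (b := 5) (NN_g1 (p := p) (s := s) 5 3 (NN_const (p := p) (s := s) 8))) ∅ hm
  -- 1_0*G1_3*g1_2
  have i5 := (NN_one (p := p) (s := s) (a := 0) (b := 1) (NN_G1 (p := p) (s := s) 1 3 (NN_g1 (p := p) (s := s) 5 3 (NN_const (p := p) (s := s) 8)))) ∅ hm
  -- 1_0*g24*1_1
  have i6 := (NN_one (p := p) (s := s) (a := 0) (b := 1) (NN_g2 (p := p) (s := s) 1 (NN_one (p := p) (s := s) (a := 6) (b := 8) (NN_const (p := p) (s := s) 8)))) ∅ hm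
  -- 1_1*1_1*G1_3
  have i7 := (NN_one (p := p) (s := s) (a := 0) (b := 2) (NN_one (p := p) (s := s) (a := 2) (b := 4) (NN_G1 (p := p) (s := s) 4 3 (NN_const (p := p) (s := s) 8)))) ∅ hm
  -- g1_2*g24
  have i8 := (NN_g1 (p := p) (s := s) 0 3 (NN_g2 (p := p) (s := s) 3 (NN_const (p := p) (s := s) 8))) ∅ hm
  -- h35*1_1
  have i9 := (NN_half (p := p) (s := s) 0 (NN_one (p := p) (s := s) (a := 6) (b := 8) (NN_const (p := p) (s := s) 8))) ∅ hm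
  -- 1_4*1_0*1_1
  have i10 := (NN_one (p := p) (s := s) (a := 0) (b := 5) (NN_one (p := p) (s := s) (a := 5) (b := 6) (NN_one (p := p) (s := s) (a := 6) (b := 8) (NN_const (p := p) (s := s) 8)))) ∅ hm
  -- 1_0*G1_6
  have i11 := (NN_one (p := p) (s := s) (a := 0) (b := 1) (NN_G1 (p := p) (s := s) 1 6 (NN_const (p := p) (s := s) 8))) ∅ hm
  -- 1_1*1_1*g1_2*1_0
  have i12 := (NN_one (p := p) (s := s) (a := 0) (b := 2) (NN_one (p := p) (s := s) (a := 2) (b := 4) (NN_g1 (p := p) (s := s) 4 3 (NN_one (p := p) (s := s) (a := 7) (b := 8) (NN_const (p := p) (s := s) 8))))) ∅ hm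
  -- 1_0*1_1*g24
  have i13 := (NN_one (p := p) (s := s) (a := 0) (b := 1) (NN_one (p := p) (s := s) (a := 1) (b := 3) (NN_g2 (p := p) (s := s) 3 (NN_const (p := p) (s := s) 8)))) ∅ hm
  -- g1_2*g1_2*1_1
  have i14 := (NN_g1 (p := p) (s := s) 0 3 (NN_g1 (p := p) (s := s) 3 3 (NN_one (p := p) (s := s) (a := 6) (b := 8) (NN_const (p := p) (s := s) 8)))) ∅ hm
  -- 1_0*g1_2*G1_3
  have i15 := (NN_one (p := p) (s := s) (a := 0) (b := 1) (NN_g1 (p := p) (s := s) 1 3 (NN_G1 (p := p) (s := s) 4 3 (NN_const (p := p) (s := s) 8)))) ∅ hm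
  -- 1_1*g1_2*1_0*1_1
  have i16 := (NN_one (p := p) (s := s) (a := 0) (b := 2) (NN_g1 (p := p) (s := s) 2 3 (NN_one (p := p) (s := s) (a := 5) (b := 6) (NN_one (p := p) (s := s) (a := 6) (b := 8) (NN_const (p := p) (s := s) 8))))) ∅ hm
  -- L*G1_3
  have i17 := (NN_large hN h0 (NN_G1 (p := p) (s := s) 4 3 (NN_const (p := p) (s := s) 8))) ∅ hm
  -- 1_0*1_2*g1_2*1_0
  have i18 := (NN_one (p := p) (s := s) (a := 0) (b := 1) (NN_one (p := p) (s := s) (a := 1) (b := 4) (NN_g1 (p := p) (s := s) 4 3 (NN_one (p := p) (s := s) (a := 7) (b := 8) (NN_const (p := p) (s := s) 8))))) ∅ hm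
  -- L*1_1*1_1
  have i19 := (NN_large hN h0 (NN_one (p := p) (s := s) (a := 4) (b := 6) (NN_one (p := p) (s := s) (a := 6) (b := 8) (NN_const (p := p) (s := s) 8)))) ∅ hm
  have e0 := (ZE8 (p := p) (s := s) 0 (fun _ => 1)) ∅ hm
  have e1 := (ZZ_U (p := p) (s := s) (a := 0) (b := 1) (ZE7 (p := p) (s := s) 1 (fun _ => 1))) ∅ hm
  have e2 := (ZZ_U (p := p) (s := s) (a := 0) (b := 1) (ZZ_U (p := p) (s := s) (a := 1) (b := 3) (ZZ_U (p := p) (s := s) (a := 3) (b := 5) (ZE3 (p := p) (s := s) 5 (fun _ => 1))))) ∅ hm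
  have e3 := (ZZ_U (p := p) (s := s) (a := 0) (b := 1) (ZZ_U (p := p) (s := s) (a := 1) (b := 3) (ZE3 (p := p) (s := s) 3 (U p s 8 (fun _ => 1))))) ∅ hm
  have e4 := (ZZ_U (p := p) (s := s) (a := 0) (b := 1) (ZE3 (p := p) (s := s) 1 (U p s 8 (fun _ => 1)))) ∅ hm
  have e5 := (ZZ_U (p := p) (s := s) (a := 0) (b := 1) (ZZ_U (p := p) (s := s) (a := 1) (b := 4) (ZE4 (p := p) (s := s) 4 (fun _ => 1)))) ∅ hm
  have e6 := (ZZ_U (p := p) (s := s) (a := 0) (b := 1) (ZE3 (p := p) (s := s) 1 (U p s 6 (U p s 8 (fun _ => 1))))) ∅ hm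
  have e7 := (ZZ_U (p := p) (s := s) (a := 0) (b := 1) (ZE4 (p := p) (s := s) 1 (U p s 8 (fun _ => 1)))) ∅ hm
  have e8 := (ZZ_U (p := p) (s := s) (a := 0) (b := 1) (ZZ_U (p := p) (s := s) (a := 1) (b := 5) (ZE3 (p := p) (s := s) 5 (fun _ => 1)))) ∅ hm
  have e9 := (ZZ_U (p := p) (s := s) (a := 0) (b := 1) (ZE4 (p := p) (s := s) 1 (U p s 6 (U p s 8 (fun _ => 1))))) ∅ hm
  have e10 := (ZZ_U (p := p) (s := s) (a := 0) (b := 1) (ZE4 (p := p) (s := s) 1 (U p s 7 (U p s 8 (fun _ => 1))))) ∅ hm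
  have e11 := (ZZ_U (p := p) (s := s) (a := 0) (b := 1) (ZE5 (p := p) (s := s) 1 (U p s 8 (fun _ => 1)))) ∅ hm
  have e12 := (ZE2 (p := p) (s := s) 0 (U p s 8 (fun _ => 1))) ∅ hm
  have e13 := (ZE2 (p := p) (s := s) 0 (U p s 4 (U p s 8 (fun _ => 1)))) ∅ hm
  have e14 := (ZZ_U (p := p) (s := s) (a := 0) (b := 2) (ZZ_U (p := p) (s := s) (a := 2) (b := 4) (ZE4 (p := p) (s := s) 4 (fun _ => 1)))) ∅ hm
  have e15 := (ZE2 (p := p) (s := s) 0 (U p s 4 (U p s 6 (U p s 8 (fun _ => 1))))) ∅ hm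
  have e16 := (ZE2 (p := p) (s := s) 0 (U p s 4 (U p s 7 (U p s 8 (fun _ => 1))))) ∅ hm
  have e17 := (ZE2 (p := p) (s := s) 0 (U p s 5 (U p s 8 (fun _ => 1)))) ∅ hm
  have e18 := (ZZ_U (p := p) (s := s) (a := 0) (b := 2) (ZE3 (p := p) (s := s) 2 (U p s 8 (fun _ => 1)))) ∅ hm
  have e19 := (ZZ_U (p := p) (s := s) (a := 0) (b := 2) (ZZ_U (p := p) (s := s) (a := 2) (b := 5) (ZE3 (p := p) (s := s) 5 (fun _ => 1)))) ∅ hm
  have e20 := (ZE2 (p := p) (s := s) 0 (U p s 5 (U p s 6 (U p s 8 (fun _ => 1))))) ∅ hm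
  have e21 := (ZE2 (p := p) (s := s) 0 (U p s 5 (U p s 7 (U p s 8 (fun _ => 1))))) ∅ hm
  have e22 := (ZZ_U (p := p) (s := s) (a := 0) (b := 2) (ZE3 (p := p) (s := s) 2 (U p s 7 (U p s 8 (fun _ => 1))))) ∅ hm
  have e23 := (ZE2 (p := p) (s := s) 0 (U p s 6 (U p s 8 (fun _ => 1)))) ∅ hm
  have e24 := (ZZ_U (p := p) (s := s) (a := 0) (b := 2) (ZE4 (p := p) (s := s) 2 (U p s 8 (fun _ => 1)))) ∅ hm
  have e25 := (ZE3 (p := p) (s := s) 0 (U p s 5 (U p s 8 (fun _ => 1)))) ∅ hm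
  have e26 := (ZE3 (p := p) (s := s) 0 (U p s 5 (U p s 6 (U p s 8 (fun _ => 1))))) ∅ hm
  have e27 := (ZE3 (p := p) (s := s) 0 (U p s 5 (U p s 7 (U p s 8 (fun _ => 1))))) ∅ hm
  have e28 := (ZE3 (p := p) (s := s) 0 (U p s 6 (U p s 8 (fun _ => 1)))) ∅ hm
  have e29 := (ZE4 (p := p) (s := s) 0 (U p s 8 (fun _ => 1))) ∅ hm
  have e30 := (ZZ_U (p := p) (s := s) (a := 0) (b := 4) (ZE4 (p := p) (s := s) 4 (fun _ => 1))) ∅ hm
  have e31 := (ZE4 (p := p) (s := s) 0 (U p s 6 (U p s 8 (fun _ => 1)))) ∅ hm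
  have e32 := (ZE5 (p := p) (s := s) 0 (U p s 8 (fun _ => 1))) ∅ hm
  have e33 := (ZE6 (p := p) (s := s) 0 (U p s 8 (fun _ => 1))) ∅ hm
  simp only [map_add, map_sub, map_smul, Pi.add_apply, Pi.sub_apply, Pi.smul_apply, smul_eq_mul,
    Nat.reduceAdd, Nat.cast_ofNat, zero_add] at i0 i1 i2 i3 i4 i5 i6 i7 i8 i9 i10 i11 i12 i13 i14 i15 i16 i17 i18 i19 e0 e1 e2 e3 e4 e5 e6 e7 e8 e9 e10 e11 e12 e13 e14 e15 e16 e17 e18 e19 e20 e21 e22 e23 e24 e25 e26 e27 e28 e29 e30 e31 e32 e33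
  linarith

end Pool.Agent.Lib_helper40.Kal
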