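import Pool.Agent.Lib_helper40.Kal.Rig4

/-!
The lower bound inequality for 4-polytopes (rank five families), from rigidity.
-/

set_option autoImplicit false
set_option linter.unusedSectionVars false

namespace Pool.Agent.Lib_helper40.Kal

open Finset Submodule

section linalg

variable {X X' : Type*} [AddCommGroup X] [Module ℝ X] [FiniteDimensional ℝ X]
  [AddCommGroup X'] [Module ℝ X'] [FiniteDimensional ℝ X']

lemma finrank_map_mkQ (N R : Submodule ℝ X') (h : R ≤ N) :
    Module.finrank ℝ (N.map R.mkQ) + Module.finrank ℝ R = Module.finrank ℝ N := by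
  have key := LinearMap.finrank_range_add_finrank_ker (R.mkQ.domRestrict N)
  have h1 : LinearMap.range (R.mkQ.domRestrict N) = N.map R.mkQ := by
    rw [LinearMap.range_domRestrict]
  have h2 : Module.finrank ℝ (LinearMap.ker (R.mkQ.domRestrict N)) = Module.finrank ℝ R := by
    rw [LinearMap.ker_domRestrict, Submodule.ker_mkQ]
    exact (Submodule.comapSubtypeEquivOfLe h).finrank_eq
  rw [h1, h2] at key
  exact key

lemma codim_comap (ρ : X →ₗ[ℝ] X') (K : Submodule ℝ X) (N R : Submodule ℝ X')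
    (hKN : K ≤ N.comap ρ) (hRN : R ≤ N) :
    Module.finrank ℝ K + Module.finrank ℝ R ≤
      Module.finrank ℝ (K ⊓ R.comap ρ : Submodule ℝ X) + Module.finrank ℝ N := by
  have key := LinearMap.finrank_range_add_finrank_ker ((R.mkQ ∘ₗ ρ).domRestrict K)
  have h1 : Module.finrank ℝ (LinearMap.range ((R.mkQ ∘ₗ ρ).domRestrict K)) ≤
      Module.finrank ℝ (N.map R.mkQ) := by
    apply Submodule.finrank_mono
    rw [LinearMap.range_domRestrict, Submodule.map_comp]
    apply Submodule.map_mono
    rw [Submodule.map_le_iff_le_comap]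
    exact hKN
  have h2 : Module.finrank ℝ (LinearMap.ker ((R.mkQ ∘ₗ ρ).domRestrict K)) =
      Module.finrank ℝ (K ⊓ R.comap ρ : Submodule ℝ X) := by
    rw [LinearMap.ker_domRestrict, LinearMap.ker_comp, Submodule.ker_mkQ]
    have h3 : Submodule.comap K.subtype (R.comap ρ) =
        Submodule.comap K.subtype (K ⊓ R.comap ρ) := by
      ext x
      simp
    rw [h3]
    exact (Submodule.comapSubtypeEquivOfLe (inf_le_left : K ⊓ R.comap ρ ≤ K)).finrank_eq
  have h3 := finrank_map_mkQ N R hRN
  omega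

lemma codim_iInf {τ : Type*} [DecidableEq τ] (K : Submodule ℝ X) (L : τ → Submodule ℝ X)
    (c : τ → ℕ) (S : Finset τ)
    (h : ∀ t ∈ S, Module.finrank ℝ K ≤ Module.finrank ℝ (K ⊓ L t : Submodule ℝ X) + c t) :
    Module.finrank ℝ K ≤ Module.finrank ℝ (K ⊓ ⨅ t ∈ S, L t : Submodule ℝ X) + ∑ t ∈ S, c t := by
  induction S using Finset.induction_on with
  | empty =>
    have h1 : (⨅ t ∈ (∅ : Finset τ), L t) = ⊤ := by simp
    rw [h1, inf_top_eq]
    simp
  | insert t S ht ih =>
    have ih' := ih fun t' ht' => h t' (mem_insert_of_mem ht')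
    have h1 := h t (mem_insert_self _ _)
    have key := Submodule.finrank_sup_add_finrank_inf_eq (K ⊓ ⨅ t ∈ S, L t) (K ⊓ L t)
    have h2 : Module.finrank ℝ ((K ⊓ ⨅ t ∈ S, L t) ⊔ (K ⊓ L t) : Submodule ℝ X) ≤
        Module.finrank ℝ K := by
      apply Submodule.finrank_mono
      exact sup_le inf_le_left inf_le_left
    have h3 : (K ⊓ ⨅ t ∈ S, L t) ⊓ (K ⊓ L t) = K ⊓ ⨅ t' ∈ insert t S, L t' := by
      rw [Finset.iInf_insert]
      ext x
      simp only [Submodule.mem_inf]
      tauto
    rw [h3] at key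
    rw [Finset.sum_insert ht]
    omega

end linalg

universe u v
variable {ι : Type u} [DecidableEq ι]

/-- extension by zero -/
def extz (s : Finset ι) (M : Type*) [AddCommGroup M] [Module ℝ M] :
    ({i // i ∈ s} → M) →ₗ[ℝ] (ι → M) where
  toFun Y := fun i => if h : i ∈ s then Y ⟨i, h⟩ else 0
  map_add' Y Y' := by
    funext i
    by_cases h : i ∈ s <;> simp [h]
  map_smul' c Y := by
    funext i
    by_cases h : i ∈ s <;> simp [h]

lemma extz_mem {s : Finset ι} {M : Type*} [AddCommGroup M] [Module ℝ M] (Y : {i // i ∈ s} → M)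
    {i : ι} (h : i ∈ s) : extz s M Y i = Y ⟨i, h⟩ := by
  simp [extz, h]

section plane

variable {W : Type v} [AddCommGroup W] [Module ℝ W]

/-- prescribing values at a vertex of a polygon and its neighbours -/
lemma exists_fun {p : ι → W} {T : Finset ι} (h0 : IsFace p T ∅) (hr : Red p T)
    (hrk : rk p T = 3) {i : ι} (hi : i ∈ T) (a : ℝ) (t : ι → ℝ) :
    ∃ Z : W →ₗ[ℝ] ℝ, Z (p i) = a ∧ ∀ k, Adj p T i k → Z (p k) = t k := by
  classical
  obtain ⟨T1, T2, hT1, hT2, hne, hi1, hi2, hint, hall⟩ :=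
    exists_two_facets (mem_facesR.2 ⟨hr i hi, Red.rk_one h0 hi⟩) (by omega)
  obtain ⟨k, hk1, hik⟩ := hr.edge_eq h0 hT1 (hi1 (mem_singleton_self i))
  obtain ⟨l, hl2, hil⟩ := hr.edge_eq h0 hT2 (hi2 (mem_singleton_self i))
  have hkl : k ≠ l := by
    rintro rfl
    exact hne (by rw [hk1, hl2])
  obtain ⟨_, l1, l10, l1p⟩ := (mem_facesR.1 hT1).1
  obtain ⟨_, l2, l20, l2p⟩ := (mem_facesR.1 hT2).1
  obtain ⟨_, lam, _, lpos⟩ := id h0
  have lpos : ∀ i ∈ T, 0 < lam (p i) := fun i hi => lpos i hi (by simp)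
  have hlT1 : l ∉ T1 := by
    rw [hk1, mem_insert, mem_singleton, not_or]
    exact ⟨hil.1.symm, hkl.symm⟩
  have hkT2 : k ∉ T2 := by
    rw [hl2, mem_insert, mem_singleton, not_or]
    exact ⟨hik.1.symm, hkl⟩
  have a1 := l1p l hil.right hlT1
  have a2 := l2p k hik.right hkT2
  have a3 := lpos i hi
  refine ⟨(a / lam (p i)) • lam + ((t k - a / lam (p i) * lam (p k)) / l2 (p k)) • l2 +
    ((t l - a / lam (p i) * lam (p l)) / l1 (p l)) • l1, ?_, ?_⟩
  · simp only [LinearMap.add_apply, LinearMap.smul_apply, smul_eq_mul]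
    rw [l10 i (hi1 (mem_singleton_self i)), l20 i (hi2 (mem_singleton_self i))]
    field_simp
    ring
  · intro m him
    have hE : ({i, m} : Finset ι) ∈ facesR p T 2 := mem_facesR.2 ⟨him.2, him.rk_eq h0 hr⟩
    have hor := hall _ hE (by simp)
    have hm : m = k ∨ m = l := by
      rcases hor with h | h
      · left
        have : m ∈ T1 := by rw [← h]; simp
        rw [hk1, mem_insert, mem_singleton] at this
        exact this.resolve_left him.1.symm
      · right
        have : m ∈ T2 := by rw [← h]; simp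
        rw [hl2, mem_insert, mem_singleton] at this
        exact this.resolve_left him.1.symm
    simp only [LinearMap.add_apply, LinearMap.smul_apply, smul_eq_mul]
    rcases hm with rfl | rfl
    · rw [l10 m (by rw [hk1]; simp)]
      field_simp
      ring
    · rw [l20 m (by rw [hl2]; simp)]
      field_simp
      ring

/-- self and edge functionals -/
noncomputable def conMap (p : ι → W) (T : Finset ι) :
    ({i // i ∈ T} → (W →ₗ[ℝ] ℝ)) →ₗ[ℝ]
      ({i // i ∈ T} → ℝ) × ({E // E ∈ facesR p T 2} → ℝ) where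
  toFun Z := (fun i => extz T _ Z i (p i), fun E => ∑ i ∈ E.1, ∑ j ∈ E.1, extz T _ Z i (p j))
  map_add' Z Z' := by
    ext x
    · simp
    · simp [Finset.sum_add_distrib]
  map_smul' c Z := by
    ext x
    · simp
    · simp [Finset.mul_sum]

/-- the space of motions with all constraints in `T` -/
def conSub (p : ι → W) (T : Finset ι) : Submodule ℝ ({i // i ∈ T} → (W →ₗ[ℝ] ℝ)) where
  carrier := {Z | Con p (extz T _ Z) T}
  add_mem' := by
    intro a b ha hb i hi j hj
    have h1 := ha i hi j hj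
    have h2 := hb i hi j hj
    simp only [map_add, Pi.add_apply, LinearMap.add_apply]
    linarith
  zero_mem' := by
    intro i hi j hj
    simp
  smul_mem' := by
    intro c a ha i hi j hj
    have h1 := ha i hi j hj
    simp only [map_smul, Pi.smul_apply, LinearMap.smul_apply, smul_eq_mul]
    rw [← mul_add, h1, mul_zero]

lemma con_edge {p : ι → W} {Y : ι → W →ₗ[ℝ] ℝ} {T E : Finset ι} (h : Con p Y T) (hE : E ⊆ T) :
    ∑ i ∈ E, ∑ j ∈ E, Y i (p j) = 0 := by
  have h1 : ∑ i ∈ E, ∑ j ∈ E, Y i (p j) = ∑ i ∈ E, ∑ j ∈ E, - Y i (p j) := by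
    rw [Finset.sum_comm]
    apply Finset.sum_congr rfl
    intro i hi
    apply Finset.sum_congr rfl
    intro j hj
    have := h i (hE hi) j (hE hj)
    linarith
  simp only [Finset.sum_neg_distrib] at h1
  linarith

lemma conSub_le (p : ι → W) (T : Finset ι) : conSub p T ≤ LinearMap.ker (conMap p T) := by
  intro Z hZ
  have hZ' : Con p (extz T _ Z) T := hZ
  rw [LinearMap.mem_ker]
  ext x
  · simp only [conMap, LinearMap.coe_mk, AddHom.coe_mk, Prod.fst_zero, Pi.zero_apply]
    exact hZ'.self x.2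
  · simp only [conMap, LinearMap.coe_mk, AddHom.coe_mk, Prod.snd_zero, Pi.zero_apply]
    exact con_edge hZ' (mem_facesR.1 x.2).1.1

lemma conMap_surj [FiniteDimensional ℝ W] {p : ι → W} {T : Finset ι} (h0 : IsFace p T ∅)
    (hr : Red p T) (hrk : rk p T = 3) : Function.Surjective (conMap p T) := by
  classical
  rintro ⟨a, b⟩
  let a' : ι → ℝ := fun i => if h : i ∈ T then a ⟨i, h⟩ else 0
  let b' : Finset ι → ℝ := fun E => if h : E ∈ facesR p T 2 then b ⟨E, h⟩ else 0
  have hex := fun (i : {i // i ∈ T}) =>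
    exists_fun h0 hr hrk i.2 (a' i) (fun k => (b' {i.1, k} - a' i - a' k) / 2)
  choose Z hZ1 hZ2 using hex
  refine ⟨Z, ?_⟩
  ext x
  · simp only [conMap, LinearMap.coe_mk, AddHom.coe_mk]
    rw [extz_mem _ x.2, hZ1]
    simp [a']
  · obtain ⟨E, hE⟩ := x
    simp only [conMap, LinearMap.coe_mk, AddHom.coe_mk]
    obtain ⟨i, hi⟩ := rk_pos_nonempty (p := p) (I := E) (by rw [(mem_facesR.1 hE).2]; omega)
    obtain ⟨k, rfl, hik⟩ := hr.edge_eq h0 hE hi
    rw [sum_pair hik.1, sum_pair hik.1, sum_pair hik.1, extz_mem _ hik.left,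
      extz_mem _ hik.right, hZ1, hZ1, hZ2 ⟨i, hik.left⟩ k hik, hZ2 ⟨k, hik.right⟩ i hik.symm]
    have h1 : ({k, i} : Finset ι) = {i, k} := pair_comm _ _
    simp only [h1]
    have h2 : b' {i, k} = b ⟨{i, k}, hE⟩ := by simp only [b', dif_pos hE]
    rw [h2]
    ring

lemma finrank_ker_conMap [FiniteDimensional ℝ W] (hW : Module.finrank ℝ W = 3) {p : ι → W}
    {T : Finset ι} (h0 : IsFace p T ∅) (hr : Red p T) (hrk : rk p T = 3) :
    Module.finrank ℝ (LinearMap.ker (conMap p T)) = T.card := by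
  have key := LinearMap.finrank_range_add_finrank_ker (conMap p T)
  rw [LinearMap.range_eq_top.2 (conMap_surj h0 hr hrk), finrank_top] at key
  rw [Module.finrank_prod, Module.finrank_pi, Module.finrank_pi, Module.finrank_pi_fintype] at key
  have h1 : Module.finrank ℝ (W →ₗ[ℝ] ℝ) = 3 := by
    rw [Module.finrank_linearMap, hW, Module.finrank_self]
  simp only [h1, Finset.sum_const, Finset.card_univ, smul_eq_mul, Fintype.card_coe] at key
  have h2 := card_rank_three h0 hrk
  rw [hr.card_facesR_one h0] at h2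
  omega

lemma finrank_conSub [FiniteDimensional ℝ W] (hW : Module.finrank ℝ W = 3) {p : ι → W}
    {T : Finset ι} (hrk : rk p T = 3) :
    3 ≤ Module.finrank ℝ (conSub p T) := by
  classical
  have hsp : span ℝ (p '' (T : Set ι)) = ⊤ := by
    apply Submodule.eq_top_of_finrank_eq
    rw [hW]; exact hrk
  let b : Module.Basis (Fin 3) ℝ W := Module.finBasisOfFinrankEq ℝ W hW
  let B : (Fin 3 → ℝ) →ₗ[ℝ] (W →ₗ[ℝ] W →ₗ[ℝ] ℝ) :=
    (LinearMap.proj 0).smulRight ((b.coord 1).smulRight (b.coord 2) - (b.coord 2).smulRight (b.coord 1)) +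
    (LinearMap.proj 1).smulRight ((b.coord 2).smulRight (b.coord 0) - (b.coord 0).smulRight (b.coord 2)) +
    (LinearMap.proj 2).smulRight ((b.coord 0).smulRight (b.coord 1) - (b.coord 1).smulRight (b.coord 0))
  have hB : ∀ c x y, B c x y =
      c 0 * (b.coord 1 x * b.coord 2 y - b.coord 2 x * b.coord 1 y) +
      c 1 * (b.coord 2 x * b.coord 0 y - b.coord 0 x * b.coord 2 y) +
      c 2 * (b.coord 0 x * b.coord 1 y - b.coord 1 x * b.coord 0 y) := by
    intro c x y
    simp [B]
  let f : (Fin 3 → ℝ) →ₗ[ℝ] ({i // i ∈ T} → (W →ₗ[ℝ] ℝ)) :=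
    { toFun := fun c i => B c (p i)
      map_add' := fun c c' => by funext i; simp
      map_smul' := fun r c => by funext i; simp }
  have hfr : ∀ c, f c ∈ conSub p T := by
    intro c
    change Con p (extz T _ (f c)) T
    intro i hi j hj
    rw [extz_mem _ hi, extz_mem _ hj]
    simp only [f, LinearMap.coe_mk, AddHom.coe_mk]
    rw [hB, hB]
    ring
  let g : (Fin 3 → ℝ) →ₗ[ℝ] conSub p T := f.codRestrict _ hfr
  have hinj : Function.Injective g := by
    apply (injective_iff_map_eq_zero g).2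
    intro c hc
    have h1 : ∀ i ∈ T, B c (p i) = 0 := by
      intro i hi
      have := congrArg (fun z => z.1 ⟨i, hi⟩) hc
      simpa [g, f] using this
    have h2 : B c = 0 := by
      apply LinearMap.ext_on hsp
      rintro _ ⟨i, hi, rfl⟩
      rw [h1 i hi]; rfl
    have h3 : ∀ x y, B c x y = 0 := fun x y => by rw [h2]; rfl
    funext t
    fin_cases t
    · have := h3 (b 1) (b 2)
      rw [hB] at this
      simpa [Module.Basis.coord_apply, Module.Basis.repr_self, Finsupp.single_apply] using this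
    · have := h3 (b 2) (b 0)
      rw [hB] at this
      simpa [Module.Basis.coord_apply, Module.Basis.repr_self, Finsupp.single_apply] using this
    · have := h3 (b 0) (b 1)
      rw [hB] at this
      simpa [Module.Basis.coord_apply, Module.Basis.repr_self, Finsupp.single_apply] using this
  have := LinearMap.finrank_le_finrank_of_injective hinj
  simpa using this

end plane

end Pool.Agent.Lib_helper40.Kal
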