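import Pool.Agent.Lib_helper40.Kal.Types

/-!
Euler relation for pointed families, by sweeping.
-/

set_option autoImplicit false
set_option linter.unusedSectionVars false

namespace Pool.Agent.Lib_helper40.Kal

open Finset Submodule

universe u v
variable {ι : Type u} [DecidableEq ι]

open Classical in
/-- signed count of the faces contained in `A` -/
noncomputable def eul {V : Type v} [AddCommGroup V] [Module ℝ V] (p : ι → V) (s A : Finset ι) : ℤ :=
  ∑ I ∈ s.powerset.filter (fun I => IsFace p s I ∧ I ⊆ A), (-1 : ℤ) ^ rk p I

lemma eul_ray {V : Type v} [AddCommGroup V] [Module ℝ V] {p : ι → V} {s R : Finset ι}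
    (h0 : IsFace p s ∅) (hR : R ∈ facesR p s 1) : eul p s R = 0 := by
  classical
  have hR' := mem_facesR.1 hR
  have hne : R.Nonempty := rk_pos_nonempty (p := p) (by omega)
  have : s.powerset.filter (fun I => IsFace p s I ∧ I ⊆ R) = {∅, R} := by
    ext I
    simp only [mem_filter, mem_powerset, mem_insert, mem_singleton]
    constructor
    · rintro ⟨-, hI, hIR⟩
      by_cases he : I = ∅
      · exact Or.inl he
      · right
        have h1 : 0 < rk p I := by
          have := h0.rk_lt hI.1 ⟨empty_subset _, fun h => he (subset_empty.1 h)⟩
          omega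
        exact hI.eq_of_rk_le hR'.1.1 hIR (by omega)
    · rintro (rfl | rfl)
      · exact ⟨empty_subset _, h0, empty_subset _⟩
      · exact ⟨hR'.1.1, hR'.1, Subset.refl _⟩
  unfold eul
  rw [this, sum_pair hne.ne_empty.symm, rk_empty, hR'.2]
  norm_num

/-- a positive functional separating -/
lemma exists_pos_ne {V : Type v} [AddCommGroup V] [Module ℝ V] {p : ι → V} {s : Finset ι}
    (h0 : IsFace p s ∅) {w : V} (hw : w ≠ 0) :
    ∃ lam : V →ₗ[ℝ] ℝ, (∀ i ∈ s, 0 < lam (p i)) ∧ lam w ≠ 0 := by
  obtain ⟨_, lam, _, lpos⟩ := h0
  have lpos : ∀ i ∈ s, 0 < lam (p i) := fun i hi => lpos i hi (by simp)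
  by_cases h : lam w = 0
  · obtain ⟨m, -, hm⟩ := exists_dual_of_notMem (W := (⊥ : Submodule ℝ V)) (x := w) (by simpa using hw)
    obtain ⟨M, hM⟩ := exists_bound s (fun i => - m (p i) / lam (p i))
    refine ⟨m + (max M 0 + 1) • lam, fun i hi => ?_, by simpa [h] using hm⟩
    have h1 := hM i hi
    rw [div_le_iff₀ (lpos i hi)] at h1
    have h2 : M * lam (p i) ≤ max M 0 * lam (p i) :=
      mul_le_mul_of_nonneg_right (le_max_left _ _) (lpos i hi).le
    simp only [LinearMap.add_apply, LinearMap.smul_apply, smul_eq_mul]
    have := lpos i hi
    linarith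
  · exact ⟨lam, lpos, h⟩

theorem euler_aux (n : ℕ) : ∀ (V : Type v) [AddCommGroup V] [Module ℝ V] (p : ι → V)
    (s : Finset ι), rk p s ≤ n → IsFace p s ∅ → ∀ (m : ℕ) (h : V →ₗ[ℝ] ℝ),
    (s.filter fun i => 0 < h (p i)).card ≤ m → (s.filter fun i => 0 < h (p i)).Nonempty →
    eul p s (s.filter fun i => 0 < h (p i)) = 0 := by
  classical
  induction n with
  | zero =>
    intro V _ _ p s hr h0 m h _ hne
    obtain ⟨i, hi⟩ := hne
    rw [mem_filter] at hi
    have : 0 < rk p s := by
      have := h0.rk_lt (Subset.refl s) ⟨empty_subset _, fun h' => by simpa using h' hi.1⟩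
      omega
    omega
  | succ n ihn =>
    intro V _ _ p s hr h0 m
    induction m with
    | zero =>
      intro h hc hne
      exact absurd hne.card_pos (by omega)
    | succ m ihm =>
      intro h hc hne
      set A := s.filter fun i => 0 < h (p i) with hA
      by_cases hpar : ∃ a ∈ A, ∃ b ∈ A, h (p a) • p b - h (p b) • p a ≠ 0
      · obtain ⟨a, ha, b, hb, hw⟩ := hpar
        obtain ⟨lam, lpos, hlw⟩ := exists_pos_ne h0 hw
        obtain ⟨i₀, hi₀, hmin⟩ := exists_min_image A (fun i => h (p i) / lam (p i)) hne
        set c := h (p i₀) / lam (p i₀) with hcdef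
        have hi₀' := mem_filter.1 hi₀
        have hcpos : 0 < c := div_pos hi₀'.2 (lpos _ hi₀'.1)
        set h' : V →ₗ[ℝ] ℝ := h - c • lam with hh'
        have hval : ∀ x, h' x = h x - c * lam x := fun x => by simp [hh']
        have hA0 : ∀ i ∈ A, 0 ≤ h' (p i) := by
          intro i hi
          have := hmin i hi
          rw [le_div_iff₀ (lpos i (mem_filter.1 hi).1)] at this
          rw [hval]; linarith
        set A' := s.filter fun i => 0 < h' (p i) with hA'
        set Z := A.filter fun i => h' (p i) = 0 with hZ
        have hA'A : A' ⊆ A := by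
          intro i hi
          rw [hA', mem_filter, hval] at hi
          rw [hA, mem_filter]
          have := mul_pos hcpos (lpos i hi.1)
          exact ⟨hi.1, by linarith [hi.2]⟩
        have hmemA' : ∀ i, i ∈ A' ↔ i ∈ A ∧ i ∉ Z := by
          intro i
          constructor
          · intro hi
            refine ⟨hA'A hi, fun hz => ?_⟩
            have h1 := (mem_filter.1 hz).2
            have h2 := (mem_filter.1 hi).2
            rw [h1] at h2; exact lt_irrefl _ h2
          · rintro ⟨h1, h2⟩
            rw [hA', mem_filter]
            refine ⟨(mem_filter.1 h1).1, lt_of_le_of_ne (hA0 i h1) fun he => h2 ?_⟩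
            exact mem_filter.2 ⟨h1, he.symm⟩
        have hi₀Z : i₀ ∈ Z := by
          rw [hZ, mem_filter, hval, hcdef]
          refine ⟨hi₀, ?_⟩
          have := (lpos _ hi₀'.1).ne'
          field_simp
          ring
        have hA'ne : A'.Nonempty := by
          by_contra hemp
          rw [not_nonempty_iff_eq_empty] at hemp
          have hall : ∀ i ∈ A, h' (p i) = 0 := by
            intro i hi
            by_contra hne'
            have : i ∈ A' := (hmemA' i).2 ⟨hi, fun hz => hne' (mem_filter.1 hz).2⟩
            rw [hemp] at this
            simp at this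
          have h1 := hall a ha
          have h2 := hall b hb
          rw [hval] at h1 h2
          apply hlw
          rw [map_sub, map_smul, map_smul, smul_eq_mul, smul_eq_mul]
          have h3 : h (p a) = c * lam (p a) := by linarith
          have h4 : h (p b) = c * lam (p b) := by linarith
          rw [h3, h4]; ring
        have hA'card : A'.card ≤ m := by
          have : A'.card < A.card := card_lt_card ⟨hA'A, fun hs => by
            have := (hmemA' i₀).1 (hs hi₀)
            exact this.2 hi₀Z⟩
          omega
        -- fiberwise
        have hmaps : ∀ I ∈ s.powerset.filter (fun I => IsFace p s I ∧ I ⊆ A),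
            I ∩ Z ∈ s.powerset.filter (fun I => IsFace p s I ∧ I ⊆ Z) := by
          intro I hI
          simp only [mem_filter, mem_powerset] at hI ⊢
          refine ⟨inter_subset_left.trans hI.1, ?_, inter_subset_right⟩
          have h1 := isFace_of_nonneg (p := p) (s := I) (l := h') (fun i hi => hA0 i (hI.2.2 hi))
          have h2 : I.filter (fun i => h' (p i) = 0) = I ∩ Z := by
            ext i
            simp only [hZ, mem_filter, mem_inter]
            exact ⟨fun hh => ⟨hh.1, hI.2.2 hh.1, hh.2⟩, fun hh => ⟨hh.1, hh.2.2⟩⟩
          rw [h2] at h1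
          exact ((isFace_restrict hI.2.1).1 h1).1
        have hfib := Finset.sum_fiberwise_of_maps_to (g := fun I => I ∩ Z) hmaps
          (fun I => (-1 : ℤ) ^ rk p I)
        unfold eul
        rw [← hfib]
        apply Finset.sum_eq_zero
        intro J hJ
        simp only [mem_filter, mem_powerset] at hJ
        obtain ⟨hJs, hJf, hJZ⟩ := hJ
        by_cases hJe : J = ∅
        · subst hJe
          have h1 := ihm h' hA'card hA'ne
          rw [← hA'] at h1
          unfold eul at h1
          rw [← h1]
          apply Finset.sum_congr _ (fun _ _ => rfl)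
          ext I
          simp only [mem_filter, mem_powerset]
          constructor
          · rintro ⟨⟨h2, h3, h4⟩, h5⟩
            refine ⟨h2, h3, fun i hi => (hmemA' i).2 ⟨h4 hi, fun hz => ?_⟩⟩
            have : i ∈ I ∩ Z := mem_inter.2 ⟨hi, hz⟩
            rw [h5] at this
            simp at this
          · rintro ⟨h2, h3, h4⟩
            refine ⟨⟨h2, h3, h4.trans hA'A⟩, ?_⟩
            rw [← disjoint_iff_inter_eq_empty, disjoint_left]
            intro i hi hz
            exact ((hmemA' i).1 (h4 hi)).2 hz
        · -- quotient by J
          have hJ0 : ∀ i ∈ J, h' (p i) = 0 := fun i hi => (mem_filter.1 (hJZ hi)).2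
          have hker : span ℝ (p '' (J : Set ι)) ≤ LinearMap.ker h' := le_ker_of_zero hJ0
          set hb : (V ⧸ span ℝ (p '' (J : Set ι))) →ₗ[ℝ] ℝ := liftQ _ h' hker with hhb
          have hbv : ∀ i, hb (qf p J i) = h' (p i) := fun i => by simp [hhb, qf]
          have hq0 : IsFace (qf p J) (s \ J) ∅ := by
            rw [isFace_quot hJf.1]
            exact ⟨empty_subset _, by simpa using hJf⟩
          have hrkJ : 0 < rk p J := by
            have := h0.rk_lt hJf.1 ⟨empty_subset _, fun h => hJe (subset_empty.1 h)⟩
            omega
          have hrkq : rk (qf p J) (s \ J) ≤ n := by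
            have := rk_quot p J (s \ J)
            rw [union_sdiff_of_subset hJf.1] at this
            omega
          have hAq : (s \ J).filter (fun i => 0 < hb (qf p J i)) = A' := by
            ext i
            simp only [mem_filter, mem_sdiff, hbv, hA']
            constructor
            · rintro ⟨⟨h1, -⟩, h2⟩; exact ⟨h1, h2⟩
            · rintro ⟨h1, h2⟩
              refine ⟨⟨h1, fun h3 => ?_⟩, h2⟩
              rw [hJ0 i h3] at h2
              exact lt_irrefl _ h2
          have h1 := ihn _ (qf p J) (s \ J) hrkq hq0 _ hb le_rfl (by rw [hAq]; exact hA'ne)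
          rw [hAq] at h1
          unfold eul at h1
          have h2 : ∑ I ∈ (s.powerset.filter (fun I => IsFace p s I ∧ I ⊆ A)).filter
              (fun I => I ∩ Z = J), (-1 : ℤ) ^ rk p I =
              (-1) ^ rk p J * ∑ I ∈ (s \ J).powerset.filter
                (fun I => IsFace (qf p J) (s \ J) I ∧ I ⊆ A'), (-1 : ℤ) ^ rk (qf p J) I := by
            rw [mul_sum]
            symm
            apply Finset.sum_bij' (fun K _ => J ∪ K) (fun I _ => I \ J)
            · intro K hK
              simp only [mem_filter, mem_powerset] at hK ⊢
              obtain ⟨hK1, hK2, hK3⟩ := hK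
              have h3 := (isFace_quot hJf.1).1 hK2
              refine ⟨⟨union_subset hJs (hK1.trans sdiff_subset), h3.2,
                union_subset (hJZ.trans (filter_subset _ _)) (hK3.trans hA'A)⟩, ?_⟩
              ext i
              simp only [mem_inter, mem_union]
              constructor
              · rintro ⟨h4 | h4, h5⟩
                · exact h4
                · exact absurd h5 ((hmemA' i).1 (hK3 h4)).2
              · intro h4
                exact ⟨Or.inl h4, hJZ h4⟩
            · intro I hI
              simp only [mem_filter, mem_powerset] at hI ⊢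
              obtain ⟨⟨hI1, hI2, hI3⟩, hI4⟩ := hI
              have hJI : J ⊆ I := by rw [← hI4]; exact inter_subset_left
              refine ⟨sdiff_subset_sdiff hI1 (Subset.refl _), ?_, ?_⟩
              · rw [isFace_quot hJf.1]
                refine ⟨sdiff_subset_sdiff hI1 (Subset.refl _), ?_⟩
                rwa [union_sdiff_of_subset hJI]
              · intro i hi
                rw [mem_sdiff] at hi
                refine (hmemA' i).2 ⟨hI3 hi.1, fun hz => hi.2 ?_⟩
                rw [← hI4]
                exact mem_inter.2 ⟨hi.1, hz⟩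
            · intro K hK
              simp only [mem_filter, mem_powerset] at hK
              rw [union_sdiff_left]
              apply sdiff_eq_self_of_disjoint
              rw [disjoint_left]
              intro i hi hiJ
              exact (mem_sdiff.1 (hK.1 hi)).2 hiJ
            · intro I hI
              simp only [mem_filter, mem_powerset] at hI
              have hJI : J ⊆ I := by rw [← hI.2]; exact inter_subset_left
              exact union_sdiff_of_subset hJI
            · intro K hK
              rw [← pow_add, ← rk_quot p J K, add_comm]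
          rw [h2, h1, mul_zero]
      · -- A is a ray
        push Not at hpar
        obtain ⟨i₁, hi₁⟩ := id hne
        have hi₁' := mem_filter.1 hi₁
        obtain ⟨R, hR, hRpos⟩ := exists_ray_pos h0 h hi₁'.1 hi₁'.2
        have hR' := mem_facesR.1 hR
        have hRA : R = A := by
          apply Subset.antisymm
          · intro i hi
            exact mem_filter.2 ⟨hR'.1.1 hi, hRpos i hi⟩
          · intro b hb
            obtain ⟨a, ha⟩ := rk_pos_nonempty (p := p) (I := R) (by omega)
            have haA : a ∈ A := mem_filter.2 ⟨hR'.1.1 ha, hRpos a ha⟩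
            have h1 := hpar a haA b hb
            have h2 : 0 < h (p a) := hRpos a ha
            refine hR'.1.mem_of_span (mem_filter.1 hb).1 ?_
            have h3 : p b = (h (p b) / h (p a)) • p a := by
              rw [sub_eq_zero] at h1
              rw [div_eq_inv_mul, mul_smul, ← h1, smul_smul, inv_mul_cancel₀ h2.ne', one_smul]
            rw [h3]
            exact smul_mem _ _ (subset_span (Set.mem_image_of_mem p ha))
        rw [← hRA]
        exact eul_ray h0 hR

/-- **Euler relation** for a pointed family. -/
theorem euler {V : Type v} [AddCommGroup V] [Module ℝ V] {p : ι → V} {s : Finset ι}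
    (h0 : IsFace p s ∅) (hs : s.Nonempty) :
    ∑ r ∈ range (rk p s + 1), (-1 : ℤ) ^ r * (facesR p s r).card = 0 := by
  classical
  obtain ⟨_, lam, _, lpos⟩ := id h0
  have lpos : ∀ i ∈ s, 0 < lam (p i) := fun i hi => lpos i hi (by simp)
  have hA : s.filter (fun i => 0 < lam (p i)) = s := filter_true_of_mem lpos
  have h := euler_aux _ V p s le_rfl h0 _ lam le_rfl (by rw [hA]; exact hs)
  rw [hA] at h
  unfold eul at h
  rw [← h]
  have h1 : s.powerset.filter (fun I => IsFace p s I ∧ I ⊆ s) =
      s.powerset.filter (fun I => IsFace p s I) := by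
    ext I
    simp only [mem_filter, mem_powerset]
    exact ⟨fun h => ⟨h.1, h.2.1⟩, fun h => ⟨h.1, h.2, h.1⟩⟩
  rw [h1]
  rw [← Finset.sum_fiberwise_of_maps_to (t := range (rk p s + 1)) (g := fun I => rk p I)
    (f := fun I => (-1 : ℤ) ^ rk p I)]
  · apply Finset.sum_congr rfl
    intro r _
    have h2 : (s.powerset.filter (fun I => IsFace p s I)).filter (fun I => rk p I = r) =
        facesR p s r := by
      ext I
      rw [mem_facesR]
      simp only [mem_filter, mem_powerset]
      exact ⟨fun h => ⟨h.1.2, h.2⟩, fun h => ⟨⟨h.1.1, h.1⟩, h.2⟩⟩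
    rw [h2]
    rw [Finset.sum_congr rfl (g := fun _ => (-1 : ℤ) ^ r) (fun I hI => by
      rw [(mem_facesR.1 hI).2])]
    simp [mul_comm]
  · intro I hI
    simp only [mem_filter, mem_powerset] at hI
    rw [mem_range]
    have := rk_mono (p := p) hI.1
    omega

end Pool.Agent.Lib_helper40.Kal
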