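import Mathlib

/-!
Finite vector families and their faces (face lattices of pointed polyhedral cones).
-/

set_option autoImplicit false
set_option linter.unusedSectionVars false

namespace Pool.Agent.Lib_helper40.Kal

open Finset Submodule

universe u v
variable {ι : Type u} [DecidableEq ι] {V : Type v} [AddCommGroup V] [Module ℝ V]

/-- `I` is a face of the vector family `p` restricted to the index set `s`. -/
def IsFace (p : ι → V) (s I : Finset ι) : Prop :=
  I ⊆ s ∧ ∃ l : V →ₗ[ℝ] ℝ, (∀ i ∈ I, l (p i) = 0) ∧ ∀ i ∈ s, i ∉ I → 0 < l (p i)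

/-- The rank of an index set. -/
noncomputable def rk (p : ι → V) (I : Finset ι) : ℕ :=
  Module.finrank ℝ (span ℝ (p '' (I : Set ι)))

instance fd_span (p : ι → V) (I : Finset ι) :
    FiniteDimensional ℝ (span ℝ (p '' (I : Set ι))) :=
  FiniteDimensional.span_of_finite ℝ (I.finite_toSet.image p)

lemma IsFace.subset {p : ι → V} {s I : Finset ι} (h : IsFace p s I) : I ⊆ s := h.1

lemma isFace_self (p : ι → V) (s : Finset ι) : IsFace p s s :=
  ⟨Subset.refl _, 0, by simp, fun i hi h => absurd hi h⟩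

lemma exists_bound (s : Finset ι) (f : ι → ℝ) : ∃ M : ℝ, ∀ i ∈ s, f i ≤ M := by
  obtain ⟨M, hM⟩ := (s.image f).exists_le
  exact ⟨M, fun i hi => hM _ (mem_image_of_mem f hi)⟩

lemma isFace_restrict {p : ι → V} {s G I : Finset ι} (hG : IsFace p s G) :
    IsFace p G I ↔ IsFace p s I ∧ I ⊆ G := by
  constructor
  · rintro ⟨hIG, l, h0, hpos⟩
    obtain ⟨hGs, g, g0, gpos⟩ := hG
    refine ⟨⟨hIG.trans hGs, ?_⟩, hIG⟩
    obtain ⟨M, hM⟩ := exists_bound s (fun i => - l (p i) / g (p i))
    refine ⟨l + (max M 0 + 1) • g, ?_, ?_⟩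
    · intro i hi
      simp [h0 i hi, g0 i (hIG hi)]
    · intro i hi hiI
      simp only [LinearMap.add_apply, LinearMap.smul_apply, smul_eq_mul]
      by_cases hiG : i ∈ G
      · rw [g0 i hiG]
        simpa using hpos i hiG hiI
      · have hg := gpos i hi hiG
        have h1 := hM i hi
        have h2 : - l (p i) ≤ M * g (p i) := by
          rwa [div_le_iff₀ hg] at h1
        have h3 : M * g (p i) ≤ max M 0 * g (p i) :=
          mul_le_mul_of_nonneg_right (le_max_left _ _) hg.le
        linarith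
  · rintro ⟨⟨_, l, h0, hpos⟩, hIG⟩
    exact ⟨hIG, l, h0, fun i hi hiI => hpos i (hG.1 hi) hiI⟩

/-- the quotient family -/
noncomputable abbrev qf (p : ι → V) (I : Finset ι) : ι → (V ⧸ span ℝ (p '' (I : Set ι))) :=
  fun i => (span ℝ (p '' (I : Set ι))).mkQ (p i)

lemma qf_eq_zero {p : ι → V} {I : Finset ι} {i : ι} (hi : i ∈ I) : qf p I i = 0 := by
  simp only [qf, mkQ_apply, Quotient.mk_eq_zero]
  exact subset_span (Set.mem_image_of_mem p hi)

lemma le_ker_of_zero {p : ι → V} {I : Finset ι} {l : V →ₗ[ℝ] ℝ} (h : ∀ i ∈ I, l (p i) = 0) :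
    span ℝ (p '' (I : Set ι)) ≤ LinearMap.ker l := by
  rw [span_le]
  rintro _ ⟨i, hi, rfl⟩
  exact h i hi

lemma isFace_quot {p : ι → V} {s I J : Finset ι} (hI : I ⊆ s) :
    IsFace (qf p I) (s \ I) J ↔ J ⊆ s \ I ∧ IsFace p s (I ∪ J) := by
  constructor
  · rintro ⟨hJ, l, h0, hpos⟩
    refine ⟨hJ, union_subset hI (hJ.trans sdiff_subset), l ∘ₗ mkQ _, ?_, ?_⟩
    · intro i hi
      rcases mem_union.1 hi with h | h
      · have := qf_eq_zero (p := p) h
        simp only [qf] at this
        simp [LinearMap.comp_apply, this]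
      · exact h0 i h
    · intro i hi hn
      rw [mem_union, not_or] at hn
      exact hpos i (mem_sdiff.2 ⟨hi, hn.1⟩) hn.2
  · rintro ⟨hJ, hs, l, h0, hpos⟩
    have hk : span ℝ (p '' (I : Set ι)) ≤ LinearMap.ker l :=
      le_ker_of_zero fun i hi => h0 i (mem_union_left _ hi)
    refine ⟨hJ, liftQ _ l hk, ?_, ?_⟩
    · intro i hi
      simp only [qf, mkQ_apply, liftQ_apply]
      exact h0 i (mem_union_right _ hi)
    · intro i hi hn
      simp only [qf, mkQ_apply, liftQ_apply]
      rw [mem_sdiff] at hi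
      exact hpos i hi.1 (by simp [mem_union, hi.2, hn])

lemma span_image_union (p : ι → V) (I J : Finset ι) :
    span ℝ (p '' ((I ∪ J : Finset ι) : Set ι)) =
      span ℝ (p '' (I : Set ι)) ⊔ span ℝ (p '' (J : Set ι)) := by
  rw [coe_union, Set.image_union, span_union]

lemma rk_mono {p : ι → V} {I J : Finset ι} (h : I ⊆ J) : rk p I ≤ rk p J := by
  apply Submodule.finrank_mono
  exact span_mono (Set.image_mono (by exact_mod_cast h))

lemma rk_quot (p : ι → V) (I J : Finset ι) :
    rk (qf p I) J + rk p I = rk p (I ∪ J) := by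
  classical
  set W := span ℝ (p '' (I : Set ι)) with hW
  set U := span ℝ (p '' ((I ∪ J : Finset ι) : Set ι)) with hU
  have hWU : W ≤ U := span_mono (Set.image_mono (by simp))
  have hmap : span ℝ (qf p I '' (J : Set ι)) = U.map W.mkQ := by
    rw [hU, span_image_union, Submodule.map_sup]
    have h1 : (span ℝ (p '' (I : Set ι))).map W.mkQ = ⊥ := by
      rw [← hW, ← Submodule.mkQ_map_self]
    rw [h1, bot_sup_eq, Submodule.map_span]
    congr 1
    rw [← Set.image_comp]
    rfl
  have : FiniteDimensional ℝ U := fd_span p (I ∪ J)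
  have : FiniteDimensional ℝ W := fd_span p I
  have key := LinearMap.finrank_range_add_finrank_ker (W.mkQ.domRestrict U)
  have h1 : LinearMap.range (W.mkQ.domRestrict U) = U.map W.mkQ := by
    rw [LinearMap.range_domRestrict]
  have h2 : Module.finrank ℝ (LinearMap.ker (W.mkQ.domRestrict U)) = Module.finrank ℝ W := by
    rw [LinearMap.ker_domRestrict, Submodule.ker_mkQ]
    exact (Submodule.comapSubtypeEquivOfLe hWU).finrank_eq
  unfold rk
  rw [hmap, ← h1, ← h2]
  exact key

end Pool.Agent.Lib_helper40.Kal
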