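import Pool.Agent.Lib_helper40.Kal.Fam

set_option autoImplicit false
set_option linter.unusedSectionVars false

namespace Pool.Agent.Lib_helper40.Kal

open Finset Submodule

universe u v
variable {ι : Type u} [DecidableEq ι] {V : Type v} [AddCommGroup V] [Module ℝ V]

lemma IsFace.mem_of_span {p : ι → V} {s I : Finset ι} (h : IsFace p s I) {j : ι} (hj : j ∈ s)
    (hs : p j ∈ span ℝ (p '' (I : Set ι))) : j ∈ I := by
  by_contra hn
  obtain ⟨_, l, h0, hpos⟩ := h
  have := le_ker_of_zero h0 hs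
  rw [LinearMap.mem_ker] at this
  exact absurd this (hpos j hj hn).ne'

lemma IsFace.subset_of_span {p : ι → V} {s I J : Finset ι} (h : IsFace p s I) (hJ : J ⊆ s)
    (hs : span ℝ (p '' (J : Set ι)) ≤ span ℝ (p '' (I : Set ι))) : J ⊆ I := fun j hj =>
  h.mem_of_span (hJ hj) (hs (subset_span (Set.mem_image_of_mem p hj)))

lemma IsFace.rk_lt {p : ι → V} {s I J : Finset ι} (h : IsFace p s I) (hJ : J ⊆ s) (hIJ : I ⊂ J) :
    rk p I < rk p J := by
  have hle : span ℝ (p '' (I : Set ι)) ≤ span ℝ (p '' (J : Set ι)) :=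
    span_mono (Set.image_mono (by exact_mod_cast hIJ.1))
  apply Submodule.finrank_lt_finrank_of_lt
  refine lt_of_le_of_ne hle fun he => hIJ.2 ?_
  exact h.subset_of_span hJ he.ge

lemma IsFace.eq_of_rk_le {p : ι → V} {s I J : Finset ι} (h : IsFace p s I) (hJ : J ⊆ s)
    (hIJ : I ⊆ J) (hr : rk p J ≤ rk p I) : I = J := by
  by_contra hne
  exact absurd (h.rk_lt hJ ⟨hIJ, fun h' => hne (Subset.antisymm hIJ h')⟩) (not_lt.2 hr)

lemma IsFace.inter {p : ι → V} {s I J : Finset ι} (h : IsFace p s I) (h' : IsFace p s J) :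
    IsFace p s (I ∩ J) := by
  obtain ⟨hI, l, l0, lp⟩ := h
  obtain ⟨hJ, m, m0, mp⟩ := h'
  refine ⟨inter_subset_left.trans hI, l + m, ?_, ?_⟩
  · intro i hi
    rw [mem_inter] at hi
    simp [l0 i hi.1, m0 i hi.2]
  · intro i hi hn
    simp only [LinearMap.add_apply]
    by_cases h1 : i ∈ I
    · have h2 : i ∉ J := fun h2 => hn (mem_inter.2 ⟨h1, h2⟩)
      rw [l0 i h1, zero_add]
      exact mp i hi h2
    · have := lp i hi h1
      by_cases h2 : i ∈ J
      · rw [m0 i h2, add_zero]; exact this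
      · have := mp i hi h2
        linarith

/-- zero set of a nonnegative functional is a face -/
lemma isFace_of_nonneg {p : ι → V} {s : Finset ι} {l : V →ₗ[ℝ] ℝ} (h : ∀ i ∈ s, 0 ≤ l (p i)) :
    IsFace p s (s.filter fun i => l (p i) = 0) := by
  refine ⟨filter_subset _ _, l, fun i hi => (mem_filter.1 hi).2, fun i hi hn => ?_⟩
  refine lt_of_le_of_ne (h i hi) fun he => hn (mem_filter.2 ⟨hi, he.symm⟩)

/-- argmin face of a ratio -/
lemma isFace_argmin {p : ι → V} {s F : Finset ι} {l m : V →ₗ[ℝ] ℝ} {c : ℝ} (hF : F ⊆ s)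
    (l0 : ∀ i ∈ F, l (p i) = 0) (m0 : ∀ i ∈ F, m (p i) = 0)
    (hc : ∀ i ∈ s, i ∉ F → c * l (p i) ≤ m (p i)) :
    IsFace p s (s.filter fun i => m (p i) = c * l (p i)) := by
  have h := isFace_of_nonneg (p := p) (s := s) (l := m - c • l) (by
    intro i hi
    simp only [LinearMap.sub_apply, LinearMap.smul_apply, smul_eq_mul]
    by_cases h : i ∈ F
    · simp [l0 i h, m0 i h]
    · have := hc i hi h
      linarith)
  convert h using 2
  simp only [LinearMap.sub_apply, LinearMap.smul_apply, smul_eq_mul, sub_eq_zero]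

lemma exists_dual_of_notMem {W : Submodule ℝ V} {x : V} (hx : x ∉ W) :
    ∃ m : V →ₗ[ℝ] ℝ, (∀ w ∈ W, m w = 0) ∧ m x ≠ 0 := by
  obtain ⟨f, hf, hW⟩ := Submodule.exists_dual_map_eq_bot_of_notMem hx inferInstance
  refine ⟨f, fun w hw => ?_, hf⟩
  have : f w ∈ W.map f := Submodule.mem_map_of_mem hw
  rw [hW] at this
  simpa using this

/-- A pointed family with a proper nonempty... : between a proper face and the whole there is a
facet.  Version: existence of a facet. -/
lemma exists_facet {p : ι → V} {s : Finset ι} {I : Finset ι} (hI : IsFace p s I) (hne : I ≠ s) :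
    ∃ F, IsFace p s F ∧ I ⊆ F ∧ rk p F + 1 = rk p s := by
  classical
  -- choose proper face containing I with maximal rank
  let P : Finset (Finset ι) := s.powerset.filter fun F => IsFace p s F ∧ I ⊆ F ∧ F ≠ s
  have hP : P.Nonempty := ⟨I, by
    simp only [P, mem_filter, mem_powerset]
    exact ⟨hI.1, hI, Subset.refl _, hne⟩⟩
  obtain ⟨F, hF, hmax⟩ := exists_max_image P (rk p) hP
  simp only [P, mem_filter, mem_powerset] at hF hmax
  obtain ⟨hFs, hFf, hIF, hFne⟩ := hF
  refine ⟨F, hFf, hIF, ?_⟩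
  have hlt : rk p F < rk p s := hFf.rk_lt (Subset.refl _) ⟨hFs, fun h => hFne (Subset.antisymm hFs h)⟩
  by_contra hcon
  have hlt2 : rk p F + 1 < rk p s := by omega
  obtain ⟨i₀, hi₀s, hi₀⟩ : ∃ i ∈ s, i ∉ F := by
    by_contra h
    push Not at h
    exact hFne (Subset.antisymm hFs h)
  -- W = span of F and i₀
  have hWlt : rk p (insert i₀ F) < rk p s := by
    have : rk p (insert i₀ F) ≤ rk p F + 1 := by
      have h1 := rk_quot p F {i₀}
      have h2 : F ∪ {i₀} = insert i₀ F := by ext; simp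
      rw [h2] at h1
      have h3 : rk (qf p F) {i₀} ≤ 1 := by
        unfold rk
        rw [coe_singleton, Set.image_singleton]
        exact (finrank_span_le_card (R := ℝ) ({_} : Set _)).trans (by simp)
      omega
    omega
  obtain ⟨j, hj, hjW⟩ : ∃ j ∈ s, p j ∉ span ℝ (p '' ((insert i₀ F : Finset ι) : Set ι)) := by
    by_contra h
    push Not at h
    have : span ℝ (p '' (s : Set ι)) ≤ span ℝ (p '' ((insert i₀ F : Finset ι) : Set ι)) := by
      rw [span_le]
      rintro _ ⟨i, hi, rfl⟩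
      exact h i hi
    exact absurd (Submodule.finrank_mono this) (not_le.2 hWlt)
  obtain ⟨m, hm0, hmj⟩ := exists_dual_of_notMem hjW
  obtain ⟨_, l, l0, lp⟩ := hFf
  have hjF : j ∉ F := fun h => hjW (subset_span (Set.mem_image_of_mem p (by simp [h])))
  have hmF : ∀ i ∈ F, m (p i) = 0 := fun i hi =>
    hm0 _ (subset_span (Set.mem_image_of_mem p (by simp [hi])))
  have hmi₀ : m (p i₀) = 0 := hm0 _ (subset_span (Set.mem_image_of_mem p (by simp)))
  -- minimal ratio
  have hne' : (s \ F).Nonempty := ⟨i₀, mem_sdiff.2 ⟨hi₀s, hi₀⟩⟩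
  obtain ⟨a, ha, hamin⟩ := exists_min_image (s \ F) (fun i => m (p i) / l (p i)) hne'
  have hG := isFace_argmin (c := m (p a) / l (p a)) hFs l0 hmF (by
    intro i hi hn
    have hl := lp i hi hn
    have := hamin i (mem_sdiff.2 ⟨hi, hn⟩)
    rwa [le_div_iff₀ hl] at this)
  set G := s.filter fun i => m (p i) = m (p a) / l (p a) * l (p i) with hGdef
  rw [mem_sdiff] at ha
  have hla := lp a ha.1 ha.2
  have haG : a ∈ G := by
    rw [hGdef, mem_filter]
    refine ⟨ha.1, ?_⟩
    field_simp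
  have hFG : F ⊆ G := fun i hi => by
    rw [hGdef, mem_filter]
    exact ⟨hFs hi, by rw [l0 i hi, hmF i hi]; simp⟩
  have hGne : G ≠ s := by
    intro he
    have h1 : i₀ ∈ G := he ▸ hi₀s
    have h2 : j ∈ G := he ▸ hj
    rw [hGdef, mem_filter] at h1 h2
    have h3 : m (p a) / l (p a) = 0 := by
      have := h1.2
      rw [hmi₀] at this
      have hl := lp i₀ hi₀s hi₀
      rcases mul_eq_zero.1 this.symm with h | h
      · exact h
      · exact absurd h hl.ne'
    rw [h3, zero_mul] at h2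
    exact hmj h2.2
  have hFG' : F ⊂ G := ⟨hFG, fun h => ha.2 (h haG)⟩
  have := hmax G ⟨hG.1, hG, hIF.trans hFG, hGne⟩
  have h2 := IsFace.rk_lt (p := p) ⟨hFs, l, l0, lp⟩ hG.1 hFG'
  omega

/-- gradedness: a face of any intermediate rank. -/
lemma exists_face_rk {p : ι → V} {s : Finset ι} {I : Finset ι} (hI : IsFace p s I) :
    ∀ r, rk p I ≤ r → r ≤ rk p s → ∃ F, IsFace p s F ∧ I ⊆ F ∧ rk p F = r := by
  intro r hr hrs
  induction' hn : rk p s - r with n ih generalizing s
  · exact ⟨s, isFace_self p s, hI.1, by omega⟩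
  · have hne : I ≠ s := by rintro rfl; omega
    obtain ⟨F, hF, hIF, hrk⟩ := exists_facet hI hne
    obtain ⟨G, hG, hIG, hGr⟩ := ih ((isFace_restrict hF).2 ⟨hI, hIF⟩) (by omega) (by omega)
    exact ⟨G, ((isFace_restrict hF).1 hG).1, hIG, hGr⟩

lemma rk_empty (p : ι → V) : rk p ∅ = 0 := by
  unfold rk; simp

end Pool.Agent.Lib_helper40.Kal
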