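import Pool.Agent.Lib_helper40.Kal.Cert

/-!
Three-dimensional faces of polytopes of dimension at least seven.
-/

set_option autoImplicit false
set_option linter.unusedSectionVars false

namespace Pool.Agent.Lib_helper40.Kal

open Finset Submodule

section hulls

variable {ι : Type} [DecidableEq ι] {E : Type} [NormedAddCommGroup E] [NormedSpace ℝ E]
  [FiniteDimensional ℝ E]

lemma hull_of_meets {x : ι → E} {I s' : Finset ι} (h : Meets (hom x) I s') (hs : s' ⊆ I) :
    hull x s' = hull x I := by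
  apply Set.Subset.antisymm (hull_mono hs)
  apply convexHull_min _ (convex_convexHull ℝ _)
  rintro _ ⟨i, hi, rfl⟩
  by_contra hn
  have hclosed : IsClosed (hull x s') := by
    unfold hull
    exact (s'.finite_toSet.image x).isClosed_convexHull ℝ
  obtain ⟨f, u, hfu, huf⟩ := geometric_hahn_banach_closed_point (convex_convexHull ℝ _)
    hclosed hn
  obtain ⟨R, hR, hpos⟩ := exists_ray_pos (hom_pointed x I)
    ((f : E →ₗ[ℝ] ℝ) ∘ₗ LinearMap.fst ℝ E ℝ - u • LinearMap.snd ℝ E ℝ) (i₀ := i) hi (by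
      simp only [hom, LinearMap.sub_apply, LinearMap.comp_apply, LinearMap.fst_apply,
        LinearMap.smul_apply, LinearMap.snd_apply, smul_eq_mul, mul_one]
      exact sub_pos.2 huf)
  obtain ⟨j, hj⟩ := h R hR
  rw [mem_inter] at hj
  have h1 := hpos j hj.1
  simp only [hom, LinearMap.sub_apply, LinearMap.comp_apply, LinearMap.fst_apply,
        LinearMap.smul_apply, LinearMap.snd_apply, smul_eq_mul, mul_one] at h1
  have h2 : f (x j) < u := hfu _ (mem_hull_self hj.2)
  have h3 : u < f (x j) := sub_pos.1 h1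
  exact lt_asymm h2 h3

/-- a polytope of dimension at least seven has a three-dimensional face with at most 96
vertices -/
lemma exists_three_face (x : ι → E) (S : Finset ι)
    (hd : 7 ≤ Module.finrank ℝ (vectorSpan ℝ (hull x S))) :
    ∃ K : Finset ι, IsFace (hom x) S K ∧ K.Nonempty ∧
      Module.finrank ℝ (vectorSpan ℝ (hull x K)) = 3 ∧ (facesR (hom x) K 1).card ≤ 96 := by
  have hS : S.Nonempty := by
    rw [nonempty_iff_ne_empty]
    rintro rfl
    unfold hull at hd
    rw [coe_empty, Set.image_empty, convexHull_empty, vectorSpan_empty, finrank_bot] at hd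
    omega
  have hrk := rk_hom (x := x) hS
  have h0 := hom_pointed x S
  obtain ⟨G, hG, -, hGr⟩ := exists_face_rk h0 8 (by rw [rk_empty]; omega) (by omega)
  obtain ⟨K, hK, hcard⟩ := exists_small ((isFace_restrict hG).2 ⟨h0, empty_subset _⟩) hGr
  rw [facesR_restrict hG, mem_facesR] at hK
  have hKne : K.Nonempty := rk_pos_nonempty (p := hom x) (by omega)
  refine ⟨K, hK.1.1, hKne, ?_, by omega⟩
  have := rk_hom (x := x) hKne
  omega

end hulls

theorem main3 :
    ∃ (m : ℕ) (Q : Fin m → Set (EuclideanSpace ℝ (Fin 3))),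
      (∀ i, (∃ S : Finset (EuclideanSpace ℝ (Fin 3)),
              Q i = convexHull ℝ (S : Set (EuclideanSpace ℝ (Fin 3)))) ∧
            Module.finrank ℝ (vectorSpan ℝ (Q i)) = 3) ∧
      ∀ (n : ℕ) (P : Set (EuclideanSpace ℝ (Fin n))),
        (∃ S : Finset (EuclideanSpace ℝ (Fin n)),
            P = convexHull ℝ (S : Set (EuclideanSpace ℝ (Fin n)))) →
        7 ≤ Module.finrank ℝ (vectorSpan ℝ P) →
        ∃ F : Set (EuclideanSpace ℝ (Fin n)), IsExposed ℝ P F ∧ F.Nonempty ∧
          Module.finrank ℝ (vectorSpan ℝ F) = 3 ∧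
          (∃ T : Finset (EuclideanSpace ℝ (Fin n)), T.card ≤ 96 ∧
            F = convexHull ℝ (T : Set (EuclideanSpace ℝ (Fin n)))) ∧
          ∃ i : Fin m, Nonempty
            ({G : Set (EuclideanSpace ℝ (Fin n)) | IsExposed ℝ F G} ≃o
             {G : Set (EuclideanSpace ℝ (Fin 3)) | IsExposed ℝ (Q i) G}) := by
  classical
  obtain ⟨m, Q, hQ, hlist⟩ := exists_list 3 96
  refine ⟨m, Q, hQ, ?_⟩
  rintro n P ⟨S, rfl⟩ hP
  have hPS : hull (id : EuclideanSpace ℝ (Fin n) → _) S = convexHull ℝ (S : Set _) := by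
    unfold hull; rw [Set.image_id]
  rw [← hPS] at hP
  obtain ⟨K, hK, hKne, hK3, hKc⟩ := exists_three_face
    (id : EuclideanSpace ℝ (Fin n) → EuclideanSpace ℝ (Fin n)) S hP
  obtain ⟨s', hs, hm, hr⟩ := exists_red (hom_pointed (id : EuclideanSpace ℝ (Fin n) → _) K)
  have h0' : IsFace (hom (id : EuclideanSpace ℝ (Fin n) → _)) s' ∅ := hom_pointed _ _
  refine ⟨hull id K, ?_, hull_nonempty_iff.2 hKne, hK3, ⟨s', ?_, ?_⟩, ?_⟩
  · rw [← hPS]
    exact exposed_of_isFace hK
  · rw [← hr.card_facesR_one h0', hm.card_facesR (hom_pointed _ K) hs]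
    exact hKc
  · rw [← hull_of_meets hm hs]
    unfold hull
    rw [Set.image_id]
  · obtain ⟨i, hi⟩ := hlist _ _ (id : EuclideanSpace ℝ (Fin n) → _) K hKne hK3 hKc
    exact ⟨i, hi⟩

end Pool.Agent.Lib_helper40.Kal
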