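import Pool.Agent.Lib_helper40.Kal.Interval

/-!
Reduction to families in which every index is its own ray.
-/

set_option autoImplicit false
set_option linter.unusedSectionVars false

namespace Pool.Agent.Lib_helper40.Kal

open Finset Submodule

universe u v
variable {ι : Type u} [DecidableEq ι] {V : Type v} [AddCommGroup V] [Module ℝ V]

/-- `s'` meets every ray -/
def Meets (p : ι → V) (s s' : Finset ι) : Prop :=
  ∀ R ∈ facesR p s 1, (R ∩ s').Nonempty

lemma Meets.restrict {p : ι → V} {s s' I : Finset ι} (h : Meets p s s') (hI : IsFace p s I) :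
    Meets p I (I ∩ s') := by
  intro R hR
  rw [mem_facesR, isFace_restrict hI] at hR
  obtain ⟨i, hi⟩ := h R (mem_facesR.2 ⟨hR.1.1, hR.2⟩)
  rw [mem_inter] at hi
  exact ⟨i, mem_inter.2 ⟨hi.1, mem_inter.2 ⟨hR.1.2 hi.1, hi.2⟩⟩⟩

/-- the span is generated by any set of representatives of the rays -/
lemma Meets.span_eq {p : ι → V} {s s' : Finset ι} (h0 : IsFace p s ∅) (h : Meets p s s')
    (hs : s' ⊆ s) : span ℝ (p '' (s' : Set ι)) = span ℝ (p '' (s : Set ι)) := by
  apply le_antisymm (span_mono (Set.image_mono (by exact_mod_cast hs)))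
  rw [span_le]
  rintro _ ⟨i, hi, rfl⟩
  by_contra hn
  obtain ⟨m, hm0, hmi⟩ := exists_dual_of_notMem hn
  have key : ∀ m : V →ₗ[ℝ] ℝ, (∀ w ∈ span ℝ (p '' (s' : Set ι)), m w = 0) → 0 < m (p i) →
      False := by
    intro m hm0 hmi
    obtain ⟨R, hR, hpos⟩ := exists_ray_pos h0 m hi hmi
    obtain ⟨j, hj⟩ := h R hR
    rw [mem_inter] at hj
    have h1 := hpos j hj.1
    rw [hm0 _ (subset_span (Set.mem_image_of_mem p hj.2))] at h1
    exact lt_irrefl _ h1
  rcases lt_or_gt_of_ne hmi with h1 | h1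
  · exact key (-m) (fun w hw => by simp [hm0 w hw]) (by simpa using h1)
  · exact key m hm0 h1

lemma Meets.span_inter {p : ι → V} {s s' I : Finset ι} (h0 : IsFace p s ∅) (h : Meets p s s')
    (hI : IsFace p s I) : span ℝ (p '' ((I ∩ s' : Finset ι) : Set ι)) = span ℝ (p '' (I : Set ι)) :=
  (h.restrict hI).span_eq ((isFace_restrict hI).2 ⟨h0, empty_subset _⟩) inter_subset_left

lemma Meets.rk_inter {p : ι → V} {s s' I : Finset ι} (h0 : IsFace p s ∅) (h : Meets p s s')
    (hI : IsFace p s I) : rk p (I ∩ s') = rk p I := by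
  unfold rk
  rw [h.span_inter h0 hI]

lemma IsFace.sub {p : ι → V} {s s' I : Finset ι} (hI : IsFace p s I) (hs : s' ⊆ s) :
    IsFace p s' (I ∩ s') := by
  obtain ⟨_, l, l0, lp⟩ := hI
  refine ⟨inter_subset_right, l, fun i hi => l0 i (mem_inter.1 hi).1, fun i hi hn => ?_⟩
  exact lp i (hs hi) fun h => hn (mem_inter.2 ⟨h, hi⟩)

lemma Meets.lift {p : ι → V} {s s' J : Finset ι} (h0 : IsFace p s ∅) (h : Meets p s s')
    (hs : s' ⊆ s) (hJ : IsFace p s' J) : ∃ I, IsFace p s I ∧ I ∩ s' = J := by
  obtain ⟨hJs, l, l0, lp⟩ := hJ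
  have hnn : ∀ i ∈ s, 0 ≤ l (p i) := by
    intro i hi
    by_contra hn
    push Not at hn
    obtain ⟨R, hR, hpos⟩ := exists_ray_pos h0 (-l) hi (by simpa using hn)
    obtain ⟨j, hj⟩ := h R hR
    rw [mem_inter] at hj
    have h1 := hpos j hj.1
    simp only [LinearMap.neg_apply] at h1
    by_cases h2 : j ∈ J
    · rw [l0 j h2] at h1; simp at h1
    · have := lp j hj.2 h2
      linarith
  refine ⟨_, isFace_of_nonneg hnn, ?_⟩
  ext i
  simp only [mem_inter, mem_filter]
  constructor
  · rintro ⟨⟨h1, h2⟩, h3⟩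
    by_contra hn
    exact absurd h2 (lp i h3 hn).ne'
  · intro hi
    exact ⟨⟨hs (hJs hi), l0 i hi⟩, hJs hi⟩

lemma Meets.inj {p : ι → V} {s s' I I' : Finset ι} (h0 : IsFace p s ∅) (h : Meets p s s')
    (hI : IsFace p s I) (hI' : IsFace p s I') (he : I ∩ s' ⊆ I') : I ⊆ I' := by
  refine hI'.subset_of_span hI.1 ?_
  rw [← h.span_inter h0 hI]
  exact span_mono (Set.image_mono (by exact_mod_cast he))

lemma Meets.sum_facesR {M : Type*} [AddCommMonoid M] {p : ι → V} {s s' : Finset ι}
    (h0 : IsFace p s ∅) (h : Meets p s s') (hs : s' ⊆ s) (r : ℕ) (φ : Finset ι → M) :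
    ∑ I ∈ facesR p s r, φ (I ∩ s') = ∑ J ∈ facesR p s' r, φ J := by
  apply Finset.sum_nbij (fun I => I ∩ s')
  · intro I hI
    rw [mem_facesR] at hI ⊢
    exact ⟨hI.1.sub hs, by rw [h.rk_inter h0 hI.1]; exact hI.2⟩
  · intro I hI I' hI' he
    have hI := (mem_facesR.1 (mem_coe.1 hI)).1
    have hI' := (mem_facesR.1 (mem_coe.1 hI')).1
    simp only at he
    apply Subset.antisymm
    · exact h.inj h0 hI hI' (by rw [he]; exact inter_subset_left)
    · exact h.inj h0 hI' hI (by rw [← he]; exact inter_subset_left)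
  · intro J hJ
    have hJ := mem_facesR.1 (mem_coe.1 hJ)
    obtain ⟨I, hI, hIJ⟩ := h.lift h0 hs hJ.1
    refine ⟨I, mem_coe.2 (mem_facesR.2 ⟨hI, ?_⟩), hIJ⟩
    rw [← h.rk_inter h0 hI, hIJ]
    exact hJ.2
  · intro I _
    rfl

lemma Meets.card_facesR {p : ι → V} {s s' : Finset ι}
    (h0 : IsFace p s ∅) (h : Meets p s s') (hs : s' ⊆ s) (r : ℕ) :
    (facesR p s' r).card = (facesR p s r).card := by
  rw [card_eq_sum_ones, card_eq_sum_ones, ← h.sum_facesR h0 hs r]

lemma Meets.sum_card {p : ι → V} {s s' : Finset ι}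
    (h0 : IsFace p s ∅) (h : Meets p s s') (hs : s' ⊆ s) (r t : ℕ) :
    ∑ J ∈ facesR p s' r, (facesR p J t).card = ∑ I ∈ facesR p s r, (facesR p I t).card := by
  rw [← h.sum_facesR h0 hs r]
  apply Finset.sum_congr rfl
  intro I hI
  have hI' := (mem_facesR.1 hI).1
  exact (h.restrict hI').card_facesR ((isFace_restrict hI').2 ⟨h0, empty_subset _⟩)
    inter_subset_left t

/-- every index is a ray -/
def Red (p : ι → V) (s : Finset ι) : Prop := ∀ i ∈ s, IsFace p s {i}

lemma Red.rk_one {p : ι → V} {s : Finset ι} (h0 : IsFace p s ∅) {i : ι} (hi : i ∈ s) :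
    rk p {i} = 1 := by
  unfold rk
  rw [coe_singleton, Set.image_singleton, finrank_span_singleton]
  intro he
  obtain ⟨_, l, _, lp⟩ := h0
  have := lp i hi (by simp)
  rw [he] at this
  simp at this

lemma exists_red {p : ι → V} {s : Finset ι} (h0 : IsFace p s ∅) :
    ∃ s' ⊆ s, Meets p s s' ∧ Red p s' := by
  classical
  have hch : ∀ R : {R // R ∈ facesR p s 1}, ∃ i, i ∈ R.1 := fun R =>
    rk_pos_nonempty (p := p) (by rw [(mem_facesR.1 R.2).2]; omega)
  choose f hf using hch
  refine ⟨univ.image f, ?_, ?_, ?_⟩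
  · intro i hi
    obtain ⟨R, -, rfl⟩ := mem_image.1 hi
    exact (mem_facesR.1 R.2).1.1 (hf R)
  · intro R hR
    exact ⟨f ⟨R, hR⟩, mem_inter.2 ⟨hf ⟨R, hR⟩, mem_image_of_mem f (mem_univ _)⟩⟩
  · intro i hi
    obtain ⟨R, -, rfl⟩ := mem_image.1 hi
    have h1 := (mem_facesR.1 R.2).1.sub (s' := univ.image f) (by
      intro i hi
      obtain ⟨R, -, rfl⟩ := mem_image.1 hi
      exact (mem_facesR.1 R.2).1.1 (hf R))
    have h2 : R.1 ∩ univ.image f = {f R} := by
      ext j
      simp only [mem_inter, mem_image, mem_univ, true_and, mem_singleton]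
      constructor
      · rintro ⟨h3, R', rfl⟩
        have : R' = R := Subtype.ext (ray_disjoint h0 R'.2 R.2 (hf R') h3)
        rw [this]
      · rintro rfl
        exact ⟨hf R, R, rfl⟩
    rwa [h2] at h1

lemma Red.restrict {p : ι → V} {s I : Finset ι} (h : Red p s) (hI : IsFace p s I) : Red p I :=
  fun i hi => (isFace_restrict hI).2 ⟨h i (hI.1 hi), by simpa using hi⟩

lemma Red.facesR_one {p : ι → V} {s : Finset ι} (h0 : IsFace p s ∅) (h : Red p s) :
    facesR p s 1 = s.image fun i => {i} := by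
  ext R
  rw [mem_facesR, mem_image]
  constructor
  · rintro ⟨h1, h2⟩
    obtain ⟨i, hi⟩ := rk_pos_nonempty (p := p) (I := R) (by omega)
    have his := h1.1 hi
    refine ⟨i, his, ?_⟩
    exact ray_disjoint h0 (mem_facesR.2 ⟨h i his, Red.rk_one h0 his⟩) (mem_facesR.2 ⟨h1, h2⟩)
      (mem_singleton_self i) hi
  · rintro ⟨i, hi, rfl⟩
    exact ⟨h i hi, Red.rk_one h0 hi⟩

lemma Red.card_facesR_one {p : ι → V} {s : Finset ι} (h0 : IsFace p s ∅) (h : Red p s) :
    (facesR p s 1).card = s.card := by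
  rw [h.facesR_one h0, card_image_of_injective _ singleton_injective]

lemma Red.sum_facesR_one {M : Type*} [AddCommMonoid M] {p : ι → V} {s : Finset ι}
    (h0 : IsFace p s ∅) (h : Red p s) (φ : Finset ι → M) :
    ∑ R ∈ facesR p s 1, φ R = ∑ i ∈ s, φ {i} := by
  rw [h.facesR_one h0, sum_image]
  intro a _ b _ hab
  exact singleton_injective hab

lemma facesR_zero {p : ι → V} {s : Finset ι} (h0 : IsFace p s ∅) : facesR p s 0 = {∅} := by
  ext I
  rw [mem_facesR, mem_singleton]
  constructor
  · rintro ⟨h1, h2⟩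
    by_contra hne
    have := h0.rk_lt h1.1 ⟨empty_subset _, fun h => hne (subset_empty.1 h)⟩
    omega
  · rintro rfl
    exact ⟨h0, rk_empty p⟩

lemma facesR_top {p : ι → V} {s : Finset ι} : facesR p s (rk p s) = {s} := by
  ext I
  rw [mem_facesR, mem_singleton]
  constructor
  · rintro ⟨h1, h2⟩
    exact h1.eq_of_rk_le (Subset.refl _) h1.1 h2.ge
  · rintro rfl
    exact ⟨isFace_self p _, rfl⟩

lemma facesR_gt {p : ι → V} {s : Finset ι} {r : ℕ} (h : rk p s < r) : facesR p s r = ∅ := by
  rw [← not_nonempty_iff_eq_empty]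
  rintro ⟨I, hI⟩
  rw [mem_facesR] at hI
  have := rk_mono (p := p) hI.1.1
  omega

/-- rank two: exactly two rays -/
lemma card_rank_two {p : ι → V} {s : Finset ι} (h0 : IsFace p s ∅) (h : rk p s = 2) :
    (facesR p s 1).card = 2 := by
  have hs : s.Nonempty := rk_pos_nonempty (p := p) (by omega)
  have := euler h0 hs
  have h2 : facesR p s 2 = {s} := by rw [← h]; exact facesR_top
  rw [h] at this
  simp only [sum_range_succ, sum_range_zero, facesR_zero h0, h2, card_singleton] at this
  have h3 : ((facesR p s 1).card : ℤ) = 2 := by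
    norm_num at this
    linarith
  exact_mod_cast h3

/-- rank three: as many edges as rays -/
lemma card_rank_three {p : ι → V} {s : Finset ι} (h0 : IsFace p s ∅) (h : rk p s = 3) :
    (facesR p s 2).card = (facesR p s 1).card := by
  have hs : s.Nonempty := rk_pos_nonempty (p := p) (by omega)
  have := euler h0 hs
  have h2 : facesR p s 3 = {s} := by rw [← h]; exact facesR_top
  rw [h] at this
  simp only [sum_range_succ, sum_range_zero, facesR_zero h0, h2, card_singleton] at this
  have h3 : ((facesR p s 2).card : ℤ) = (facesR p s 1).card := by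
    norm_num at this
    linarith
  exact_mod_cast h3

/-- diamond property -/
lemma card_diamond {p : ι → V} {s F G : Finset ι} (hF : IsFace p s F)
    (hG : IsFace p s G) (hFG : F ⊆ G) (h : rk p G = rk p F + 2) :
    (mid p s F G (rk p F + 1)).card = 2 := by
  rw [card_mid hF hG hFG]
  apply card_rank_two (pointed_interval hF hG hFG)
  have := rk_interval (p := p) hFG
  omega

/-- a rank `n` family has at least `n` rays -/
lemma rk_le_card_rays {p : ι → V} {s : Finset ι} (h0 : IsFace p s ∅) :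
    rk p s ≤ (facesR p s 1).card := by
  classical
  obtain ⟨s', hs, hm, hr⟩ := exists_red h0
  have h0' : IsFace p s' ∅ := by
    have := h0.sub hs
    simpa using this
  rw [← hm.card_facesR h0 hs, hr.card_facesR_one h0']
  have : rk p s = rk p s' := by
    unfold rk
    rw [hm.span_eq h0 hs]
  rw [this]
  unfold rk
  have h1 : p '' (s' : Set ι) = ((s'.image p : Finset V) : Set V) := by rw [coe_image]
  rw [h1]
  exact (finrank_span_finset_le_card _).trans card_image_le

/-- a rank `n ≥ 1` family has at least `n` facets -/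
lemma rk_le_card_facets (n : ℕ) {p : ι → V} {s : Finset ι} (h0 : IsFace p s ∅)
    (h : rk p s = n + 1) : n + 1 ≤ (facesR p s n).card := by
  classical
  induction n generalizing s with
  | zero =>
    rw [facesR_zero h0]; simp
  | succ n ih =>
    obtain ⟨F, hF, -, hrk⟩ := exists_facet h0 (by rintro rfl; rw [rk_empty] at h; omega)
    have hFn : rk p F = n + 1 := by omega
    have h1 := ih ((isFace_restrict hF).2 ⟨h0, empty_subset _⟩) hFn
    -- each facet of F lies in another facet
    have key : ∀ G ∈ facesR p F n, ∃ H ∈ facesR p s (n + 1), G ⊆ H ∧ H ≠ F := by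
      intro G hG
      rw [mem_facesR, isFace_restrict hF] at hG
      have h2 := card_diamond hG.1.1 (isFace_self p s) hG.1.1.1 (by omega)
      have h3 : F ∈ mid p s G s (rk p G + 1) := by
        rw [mem_mid]
        exact ⟨⟨hF, by omega⟩, hG.1.2, hF.1⟩
      obtain ⟨H, hH, hne⟩ := exists_mem_ne (by omega : 1 < (mid p s G s (rk p G + 1)).card) F
      rw [mem_mid] at hH
      exact ⟨H, mem_facesR.2 ⟨hH.1.1, by omega⟩, hH.2.1, hne⟩
    choose! f hf using key
    have hinj : Set.InjOn f (facesR p F n : Set (Finset ι)) := by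
      intro G hG G' hG' he
      have hG := mem_coe.1 hG
      have hG' := mem_coe.1 hG'
      have a1 := hf G hG
      have a2 := hf G' hG'
      rw [mem_facesR, isFace_restrict hF] at hG hG'
      have hH := mem_facesR.1 a1.1
      have hin := hF.inter hH.1
      have hsub : G ⊆ F ∩ f G := subset_inter hG.1.2 a1.2.1
      have hsub' : G' ⊆ F ∩ f G := subset_inter hG'.1.2 (by rw [he]; exact a2.2.1)
      have hlt : rk p (F ∩ f G) < rk p F := by
        apply hin.rk_lt hF.1
        refine ⟨inter_subset_left, fun h2 => a1.2.2 ?_⟩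
        have h3 : F ⊆ f G := h2.trans inter_subset_right
        exact (hF.eq_of_rk_le hH.1.1 h3 (by omega)).symm
      have e1 := hG.1.1.eq_of_rk_le hin.1 hsub (by omega)
      have e2 := hG'.1.1.eq_of_rk_le hin.1 hsub' (by omega)
      rw [e1, e2]
    have h4 : insert F ((facesR p F n).image f) ⊆ facesR p s (n + 1) := by
      intro H hH
      rcases mem_insert.1 hH with rfl | hH
      · exact mem_facesR.2 ⟨hF, by omega⟩
      · obtain ⟨G, hG, rfl⟩ := mem_image.1 hH
        exact (hf G hG).1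
    have h5 := card_le_card h4
    rw [card_insert_of_notMem, card_image_of_injOn hinj] at h5
    · omega
    · intro h6
      obtain ⟨G, hG, he⟩ := mem_image.1 h6
      exact (hf G hG).2.2 he

end Pool.Agent.Lib_helper40.Kal
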