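import Pool.Agent.Lib_helper40.Kal.Graph

/-!
Infinitesimal rigidity: basic lemmas.
-/

set_option autoImplicit false
set_option linter.unusedSectionVars false

namespace Pool.Agent.Lib_helper40.Kal

open Finset Submodule

universe u v
variable {ι : Type u} [DecidableEq ι] {V : Type v} [AddCommGroup V] [Module ℝ V]

/-- alternating bilinear forms -/
def Alt (B : V →ₗ[ℝ] V →ₗ[ℝ] ℝ) : Prop := ∀ x, B x x = 0

lemma Alt.swap {B : V →ₗ[ℝ] V →ₗ[ℝ] ℝ} (h : Alt B) (x y : V) : B x y = - B y x := by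
  have := h (x + y)
  simp only [map_add, LinearMap.add_apply, h x, h y] at this
  linarith

lemma Alt.add {B C : V →ₗ[ℝ] V →ₗ[ℝ] ℝ} (h : Alt B) (h' : Alt C) : Alt (B + C) := fun x => by
  simp [h x, h' x]

/-- the constraint for a set of indices -/
def Con (p : ι → V) (Y : ι → V →ₗ[ℝ] ℝ) (T : Finset ι) : Prop :=
  ∀ i ∈ T, ∀ j ∈ T, Y i (p j) + Y j (p i) = 0

lemma Con.self {p : ι → V} {Y : ι → V →ₗ[ℝ] ℝ} {T : Finset ι} (h : Con p Y T) {i : ι}
    (hi : i ∈ T) : Y i (p i) = 0 := by
  have := h i hi i hi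
  linarith

lemma Con.sub_alt {p : ι → V} {Y : ι → V →ₗ[ℝ] ℝ} {T : Finset ι} (h : Con p Y T)
    {B : V →ₗ[ℝ] V →ₗ[ℝ] ℝ} (hB : Alt B) : Con p (fun i => Y i - B (p i)) T := by
  intro i hi j hj
  have h1 := h i hi j hj
  have h2 := hB.swap (p i) (p j)
  simp only [LinearMap.sub_apply]
  linarith

/-- complete graph rigidity -/
lemma exists_alt_of_con (p : ι → V) (Y : ι → V →ₗ[ℝ] ℝ) (T : Finset ι) (h : Con p Y T) :
    ∃ B : V →ₗ[ℝ] V →ₗ[ℝ] ℝ, Alt B ∧ ∀ i ∈ T, ∀ j ∈ T, Y i (p j) = B (p i) (p j) := by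
  classical
  set W := span ℝ (p '' (T : Set ι)) with hW
  let f : (T → ℝ) →ₗ[ℝ] V := Fintype.linearCombination ℝ (fun i : T => p i)
  have hf : ∀ a, f a = ∑ i : T, a i • p i := fun a => by
    simp [f, Fintype.linearCombination_apply]
  have hrange : LinearMap.range f = W := by
    rw [hW, Fintype.range_linearCombination]
    congr 1
    ext x
    simp
  let f' : (T → ℝ) →ₗ[ℝ] W := f.codRestrict W (fun a => by rw [← hrange]; exact ⟨a, rfl⟩)
  have hf'surj : LinearMap.range f' = ⊤ := by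
    rw [LinearMap.range_eq_top]
    rintro ⟨w, hw⟩
    rw [← hrange] at hw
    obtain ⟨a, ha⟩ := hw
    exact ⟨a, Subtype.ext ha⟩
  obtain ⟨g', hg'⟩ := LinearMap.exists_rightInverse_of_surjective f' hf'surj
  obtain ⟨g, hg⟩ := LinearMap.exists_extend g'
  have hfg : ∀ x ∈ W, f (g x) = x := by
    intro x hx
    have h1 : g x = g' ⟨x, hx⟩ := by
      have := congrArg (fun h => h ⟨x, hx⟩) hg
      simpa using this
    have h2 : f' (g' ⟨x, hx⟩) = ⟨x, hx⟩ := by
      have := congrArg (fun h => h ⟨x, hx⟩) hg'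
      simpa using this
    rw [h1]
    exact congrArg Subtype.val h2
  let B : V →ₗ[ℝ] V →ₗ[ℝ] ℝ :=
    ∑ i : T, ((LinearMap.proj i).comp g).smulRight ((Y i).comp (f.comp g))
  have hB : ∀ x y, B x y = ∑ i : T, g x i * Y i (f (g y)) := by
    intro x y
    simp [B, LinearMap.sum_apply]
  refine ⟨B, ?_, ?_⟩
  · intro x
    rw [hB]
    have h1 : ∀ i : T, g x i * Y i (f (g x)) = ∑ j : T, g x i * (g x j * Y i (p j)) := by
      intro i
      rw [hf, map_sum, mul_sum]
      simp
    rw [Finset.sum_congr rfl (fun i _ => h1 i)]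
    have h2 : ∑ i : T, ∑ j : T, g x i * (g x j * Y i (p j)) =
        ∑ i : T, ∑ j : T, - (g x i * (g x j * Y i (p j))) := by
      rw [Finset.sum_comm]
      apply Finset.sum_congr rfl
      intro i _
      apply Finset.sum_congr rfl
      intro j _
      have := h i.1 i.2 j.1 j.2
      have h3 : Y j (p i) = - Y i (p j) := by linarith
      rw [h3]; ring
    simp only [Finset.sum_neg_distrib] at h2
    linarith
  · intro i hi j hj
    have hpi : p i ∈ W := subset_span (Set.mem_image_of_mem p hi)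
    have hpj : p j ∈ W := subset_span (Set.mem_image_of_mem p hj)
    rw [hB, hfg _ hpj]
    have h1 : ∀ k : T, g (p i) k * Y k (p j) = - (g (p i) k * Y j (p k)) := by
      intro k
      have := h k.1 k.2 j hj
      have h3 : Y k (p j) = - Y j (p k) := by linarith
      rw [h3]; ring
    rw [Finset.sum_congr rfl (fun k _ => h1 k), Finset.sum_neg_distrib]
    have h2 : ∑ k : T, g (p i) k * Y j (p k) = Y j (f (g (p i))) := by
      rw [hf, map_sum]
      simp
    rw [h2, hfg _ hpi]
    have := h i hi j hj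
    linarith

/-- a trilinear alternating form modulo `v` -/
lemma exists_tri (hV : Module.finrank ℝ V = 4) (v : V) :
    ∃ D : V → V → (V →ₗ[ℝ] ℝ), (∀ x y, D y x = - D x y) ∧ (∀ x y, D x y x = 0) ∧
      (∀ x y, D x y y = 0) ∧ (∀ x y z, D x z y = - D x y z) ∧
      (∀ x y z, LinearIndependent ℝ ![v, x, y, z] → D x y z ≠ 0) := by
  have : FiniteDimensional ℝ V := Module.finite_of_finrank_eq_succ hV
  let b : Module.Basis (Fin 4) ℝ V := Module.finBasisOfFinrankEq ℝ V hV
  let ω : V [⋀^Fin 3]→ₗ[ℝ] ℝ := b.det.curryLeft v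
  have hω : ∀ x y z, ω ![x, y, z] = b.det ![v, x, y, z] := by
    intro x y z
    simp [ω]
  have hD : ∀ x y z, ω.curryLeft z ![x, y] = ω ![z, x, y] := by
    intro x y z
    simp
  refine ⟨fun x y =>
    { toFun := fun z => ω.curryLeft z ![x, y]
      map_add' := fun a b => by simp [map_add]
      map_smul' := fun c a => by simp [map_smul] }, ?_, ?_, ?_, ?_, ?_⟩
  · intro x y
    ext z
    simp only [LinearMap.coe_mk, AddHom.coe_mk, LinearMap.neg_apply]
    rw [hD, hD]
    have := ω.map_swap ![z, x, y] (i := 1) (j := 2) (by decide)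
    rw [← this]
    congr 1
    ext i
    fin_cases i <;> simp [Equiv.swap_apply_def]
  · intro x y
    simp only [LinearMap.coe_mk, AddHom.coe_mk]
    rw [hD]
    exact ω.map_eq_zero_of_eq _ (i := 0) (j := 1) (by simp) (by decide)
  · intro x y
    simp only [LinearMap.coe_mk, AddHom.coe_mk]
    rw [hD]
    exact ω.map_eq_zero_of_eq _ (i := 0) (j := 2) (by simp) (by decide)
  · intro x y z
    simp only [LinearMap.coe_mk, AddHom.coe_mk]
    rw [hD, hD]
    have := ω.map_swap ![z, x, y] (i := 0) (j := 2) (by decide)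
    rw [← this]
    congr 1
    ext i
    fin_cases i <;> simp [Equiv.swap_apply_def]
  · intro x y z hli
    simp only [LinearMap.coe_mk, AddHom.coe_mk]
    rw [hD, hω]
    intro h0
    have hli2 : LinearIndependent ℝ ![v, z, x, y] := by
      have e : ![v, z, x, y] = ![v, x, y, z] ∘ ![0, 3, 1, 2] := by
        ext i
        fin_cases i <;> rfl
      rw [e]
      apply hli.comp
      decide
    have h1 := (Module.Basis.is_basis_iff_det b (v := ![v, z, x, y])).1 ⟨hli2, by
      apply hli2.span_eq_top_of_card_eq_finrank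
      simp [hV]⟩
    rw [h0] at h1
    exact not_isUnit_zero h1

end Pool.Agent.Lib_helper40.Kal
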