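import Pool.Agent.Lib_helper40.Kal.Rig

/-!
Infinitesimal rigidity of 3-polytopes with rigid facets (rank four families).
-/

set_option autoImplicit false
set_option linter.unusedSectionVars false

namespace Pool.Agent.Lib_helper40.Kal

open Finset Submodule

universe u v
variable {ι : Type u} [DecidableEq ι] {V : Type v} [AddCommGroup V] [Module ℝ V]

lemma Red.ray_fun {p : ι → V} {s : Finset ι} (hr : Red p s) {i : ι} (hi : i ∈ s) :
    ∃ ρ : V →ₗ[ℝ] ℝ, ρ (p i) = 0 ∧ ∀ j ∈ s, j ≠ i → 0 < ρ (p j) := by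
  obtain ⟨_, ρ, ρ0, ρp⟩ := hr i hi
  exact ⟨ρ, ρ0 i (mem_singleton_self i), fun j hj hji => ρp j hj (by simpa using hji)⟩

/-- the equilibrium relation at a vertex -/
lemma vertex_rel (hV : Module.finrank ℝ V = 4) {p : ι → V} {s : Finset ι} (h0 : IsFace p s ∅)
    (hr : Red p s) (hrk : rk p s = 4) {Y : ι → V →ₗ[ℝ] ℝ}
    (hY : ∀ T ∈ facesR p s 3, Con p Y T) (lam : V →ₗ[ℝ] ℝ) {i : ι}
    (hli : 0 < lam (p i)) (o : V) (hlo : lam o = 0)
    (ho : ∀ T ∈ facesR p s 3, i ∈ T → ∀ l : V →ₗ[ℝ] ℝ, (∀ j ∈ T, l (p j) = 0) →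
      (∀ j ∈ s, j ∉ T → 0 < l (p j)) → 0 < l o) :
    ∃ c : ι → ℝ, (∀ k ∈ nb p s i, 0 < c k) ∧
      ∑ k ∈ nb p s i, c k * (lam (p i) * Y k o - lam (p k) * Y i o) = 0 := by
  classical
  obtain ⟨D, D1, D2, D3, D4, D5⟩ := exists_tri hV (p i)
  set q : ι → V := fun k => lam (p i) • p k - lam (p k) • p i with hq
  set W : ι → V →ₗ[ℝ] ℝ := fun k => lam (p i) • Y k - lam (p k) • Y i with hW
  have hWv : ∀ k x, W k x = lam (p i) * Y k x - lam (p k) * Y i x := fun k x => by simp [hW]
  have hlq : ∀ k, lam (q k) = 0 := fun k => by simp [hq]; ring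
  have hasym : ∀ T ∈ facesR p s 3, i ∈ T → ∀ k ∈ T, ∀ l ∈ T, W k (q l) = - W l (q k) := by
    intro T hT hi k hk l hl
    have hc := hY T hT
    have e1 := hc k hk l hl
    have e2 := hc k hk i hi
    have e3 := hc l hl i hi
    have e4 := hc.self hi
    simp only [hWv, hq, map_sub, map_smul, smul_eq_mul]
    linear_combination (lam (p i)) ^ 2 * e1 - lam (p i) * lam (p l) * e2 -
      lam (p i) * lam (p k) * e3 + 2 * lam (p k) * lam (p l) * e4
  set σ : ι → ι → ℝ := fun k l => W k (q l) / |D (q k) (q l) o| with hσ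
  have hσasym : ∀ T ∈ facesR p s 3, i ∈ T → ∀ k ∈ T, ∀ l ∈ T, σ k l = - σ l k := by
    intro T hT hi k hk l hl
    simp only [hσ]
    rw [hasym T hT hi k hk l hl, D1 (q l) (q k), LinearMap.neg_apply, abs_neg, neg_div]
  -- key relation
  have key : ∀ k ∈ nb p s i, ∃ c : ℝ, 0 < c ∧ c * W k o =
      ∑ T ∈ (facesR p s 3).filter (fun T => {i, k} ⊆ T), ∑ l ∈ (nb p s i).filter (fun l => l ∈ T),
        σ k l := by
    intro k hk
    have hik := mem_nb.1 hk
    have his := hik.left
    have hE : ({i, k} : Finset ι) ∈ facesR p s 2 := mem_facesR.2 ⟨hik.2, hik.rk_eq h0 hr⟩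
    obtain ⟨T, T', hT, hT', hTT, hET, hET', hint, hall⟩ := exists_two_facets hE (by omega)
    have hiT : i ∈ T := hET (by simp)
    have hkT : k ∈ T := hET (by simp)
    have hiT' : i ∈ T' := hET' (by simp)
    have hkT' : k ∈ T' := hET' (by simp)
    obtain ⟨l, hlk, hil, hlT, hl⟩ := exists_other h0 hr hT hik hiT hkT
    obtain ⟨m, hmk, him, hmT', hm⟩ := exists_other h0 hr hT' hik hiT' hkT'
    have hlT' : l ∉ T' := by
      intro h
      have : l ∈ T ∩ T' := mem_inter.2 ⟨hlT, h⟩
      rw [hint, mem_insert, mem_singleton] at this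
      rcases this with h | h
      · exact hil.1 h.symm
      · exact hlk h
    have hmT : m ∉ T := by
      intro h
      have : m ∈ T ∩ T' := mem_inter.2 ⟨h, hmT'⟩
      rw [hint, mem_insert, mem_singleton] at this
      rcases this with h | h
      · exact him.1 h.symm
      · exact hmk h
    obtain ⟨_, lT, lT0, lTp⟩ := (mem_facesR.1 hT).1
    obtain ⟨_, lT', lT'0, lT'p⟩ := (mem_facesR.1 hT').1
    have hoT := ho T hT hiT lT lT0 lTp
    have hoT' := ho T' hT' hiT' lT' lT'0 lT'p
    have a1 : 0 < lT (p m) := lTp m him.right hmT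
    have a2 : 0 < lT' (p l) := lT'p l hil.right hlT'
    obtain ⟨ρ, ρ0, ρp⟩ := hr.ray_fun his
    have a3 : 0 < ρ (p k) := ρp k hik.right hik.1.symm
    have hli2 : LinearIndependent ℝ ![p i, q k, q l, q m] := by
      rw [Fintype.linearIndependent_iff]
      intro g hg
      rw [Fin.sum_univ_four] at hg
      simp only [Matrix.cons_val_zero, Matrix.cons_val_one, Matrix.cons_val_two,
        Matrix.cons_val_three, Matrix.head_cons, Matrix.tail_cons, Matrix.cons_val, hq] at hg
      have g3 : g 3 = 0 := by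
        have := congrArg lT hg
        simp only [map_add, map_smul, map_sub, smul_eq_mul, lT0 i hiT, lT0 k hkT, lT0 l hlT,
          map_zero] at this
        have h2 : g 3 * (lam (p i) * lT (p m)) = 0 := by linarith
        exact (mul_eq_zero.1 h2).resolve_right (mul_pos hli a1).ne'
      have g2 : g 2 = 0 := by
        have := congrArg lT' hg
        simp only [map_add, map_smul, map_sub, smul_eq_mul, lT'0 i hiT', lT'0 k hkT', lT'0 m hmT',
          map_zero] at this
        have h2 : g 2 * (lam (p i) * lT' (p l)) = 0 := by linarith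
        exact (mul_eq_zero.1 h2).resolve_right (mul_pos hli a2).ne'
      rw [g2, g3, zero_smul, zero_smul, add_zero, add_zero] at hg
      have g1 : g 1 = 0 := by
        have := congrArg ρ hg
        simp only [map_add, map_smul, map_sub, smul_eq_mul, ρ0, map_zero] at this
        have h2 : g 1 * (lam (p i) * ρ (p k)) = 0 := by linarith
        exact (mul_eq_zero.1 h2).resolve_right (mul_pos hli a3).ne'
      rw [g1, zero_smul, add_zero] at hg
      have g0 : g 0 = 0 := by
        have := congrArg lam hg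
        simp only [map_smul, smul_eq_mul, map_zero] at this
        exact (mul_eq_zero.1 this).resolve_right hli.ne'
      intro t
      fin_cases t <;> assumption
    have hD3 := D5 _ _ _ hli2
    have hspan := hli2.span_eq_top_of_card_eq_finrank (by simp [hV])
    have homem : o ∈ span ℝ (Set.range ![p i, q k, q l, q m]) := by rw [hspan]; trivial
    rw [Submodule.mem_span_range_iff_exists_fun] at homem
    obtain ⟨g, hg⟩ := homem
    rw [Fin.sum_univ_four] at hg
    simp only [Matrix.cons_val_zero, Matrix.cons_val_one, Matrix.cons_val_two,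
      Matrix.cons_val_three, Matrix.head_cons, Matrix.tail_cons, Matrix.cons_val] at hg
    have g0 : g 0 = 0 := by
      have := congrArg lam hg
      simp only [map_add, map_smul, smul_eq_mul, hlq, hlo] at this
      have h2 : g 0 * lam (p i) = 0 := by linarith
      exact (mul_eq_zero.1 h2).resolve_right hli.ne'
    rw [g0, zero_smul, zero_add] at hg
    have g3 : 0 < g 3 := by
      have := congrArg lT hg
      simp only [hq, map_add, map_smul, map_sub, smul_eq_mul, lT0 i hiT, lT0 k hkT,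
        lT0 l hlT] at this
      have h2 : g 3 * (lam (p i) * lT (p m)) = lT o := by linarith
      rw [← h2] at hoT
      exact (pos_iff_pos_of_mul_pos hoT).2 (mul_pos hli a1)
    have g2 : 0 < g 2 := by
      have := congrArg lT' hg
      simp only [hq, map_add, map_smul, map_sub, smul_eq_mul, lT'0 i hiT', lT'0 k hkT',
        lT'0 m hmT'] at this
      have h2 : g 2 * (lam (p i) * lT' (p l)) = lT' o := by linarith
      rw [← h2] at hoT'
      exact (pos_iff_pos_of_mul_pos hoT').2 (mul_pos hli a2)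
    have hWkk : W k (q k) = 0 := by
      have := hasym T hT hiT k hkT k hkT
      linarith
    have hWo : W k o = g 2 * W k (q l) + g 3 * W k (q m) := by
      rw [← hg]
      simp only [map_add, map_smul, smul_eq_mul, hWkk]
      ring
    have hD1 : D (q k) (q l) o = g 3 * D (q k) (q l) (q m) := by
      rw [← hg]
      simp only [map_add, map_smul, smul_eq_mul, D2, D3]
      ring
    have hD2 : D (q k) (q m) o = - (g 2 * D (q k) (q l) (q m)) := by
      rw [← hg]
      simp only [map_add, map_smul, smul_eq_mul, D2, D3]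
      rw [D4 (q k) (q l) (q m)]
      ring
    have hfil : (facesR p s 3).filter (fun T => {i, k} ⊆ T) = {T, T'} := by
      ext T''
      rw [mem_filter, mem_insert, mem_singleton]
      constructor
      · rintro ⟨h1, h2⟩; exact hall T'' h1 h2
      · rintro (rfl | rfl)
        · exact ⟨hT, hET⟩
        · exact ⟨hT', hET'⟩
    have hfl : (nb p s i).filter (fun l => l ∈ T) = {k, l} := by
      ext j
      rw [mem_filter, mem_insert, mem_singleton, mem_nb]
      constructor
      · rintro ⟨h1, h2⟩; exact hl j h2 h1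
      · rintro (rfl | rfl)
        · exact ⟨hik, hkT⟩
        · exact ⟨hil, hlT⟩
    have hfm : (nb p s i).filter (fun l => l ∈ T') = {k, m} := by
      ext j
      rw [mem_filter, mem_insert, mem_singleton, mem_nb]
      constructor
      · rintro ⟨h1, h2⟩; exact hm j h2 h1
      · rintro (rfl | rfl)
        · exact ⟨hik, hkT'⟩
        · exact ⟨him, hmT'⟩
    set d := D (q k) (q l) (q m) with hd
    have hdpos : 0 < |d| := abs_pos.2 hD3
    refine ⟨1 / (g 2 * g 3 * |d|), by positivity, ?_⟩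
    rw [hfil, sum_pair hTT, hfl, hfm, sum_pair hlk.symm, sum_pair hmk.symm]
    have hσkk : σ k k = 0 := by simp only [hσ, hWkk, zero_div]
    rw [hσkk, zero_add, zero_add]
    simp only [hσ]
    rw [hD1, hD2, abs_neg, abs_mul, abs_mul, abs_of_pos g2, abs_of_pos g3, hWo]
    field_simp
  choose! c hc1 hc2 using key
  refine ⟨c, hc1, ?_⟩
  have e1 : ∑ k ∈ nb p s i, c k * (lam (p i) * Y k o - lam (p k) * Y i o) =
      ∑ k ∈ nb p s i, ∑ T ∈ (facesR p s 3).filter (fun T => {i, k} ⊆ T),
        ∑ l ∈ (nb p s i).filter (fun l => l ∈ T), σ k l := by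
    apply Finset.sum_congr rfl
    intro k hk
    rw [← hc2 k hk, hWv]
  rw [e1]
  have e2 : ∑ k ∈ nb p s i, ∑ T ∈ (facesR p s 3).filter (fun T => {i, k} ⊆ T),
        ∑ l ∈ (nb p s i).filter (fun l => l ∈ T), σ k l =
      ∑ T ∈ (facesR p s 3).filter (fun T => i ∈ T), ∑ k ∈ (nb p s i).filter (fun l => l ∈ T),
        ∑ l ∈ (nb p s i).filter (fun l => l ∈ T), σ k l := by
    apply Finset.sum_comm'
    intro k T
    simp only [mem_filter]
    constructor
    · rintro ⟨h1, h2, h3⟩
      exact ⟨⟨h1, h3 (by simp)⟩, h2, h3 (by simp)⟩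
    · rintro ⟨⟨h1, h2⟩, h3, h4⟩
      refine ⟨h1, h3, ?_⟩
      intro j hj
      rw [mem_insert, mem_singleton] at hj
      rcases hj with rfl | rfl <;> assumption
  rw [e2]
  apply Finset.sum_eq_zero
  intro T hT
  rw [mem_filter] at hT
  set A := (nb p s i).filter (fun l => l ∈ T) with hA
  have e3 : ∑ k ∈ A, ∑ l ∈ A, σ k l = ∑ k ∈ A, ∑ l ∈ A, - σ k l := by
    rw [Finset.sum_comm]
    apply Finset.sum_congr rfl
    intro l hl
    apply Finset.sum_congr rfl
    intro k hk
    exact hσasym T hT.1 hT.2 k (mem_filter.1 hk).2 l (mem_filter.1 hl).2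
  simp only [Finset.sum_neg_distrib] at e3
  linarith

lemma eq_zero_of_span {p : ι → V} {S : Finset ι} (hS : span ℝ (p '' (S : Set ι)) = ⊤)
    {f : V →ₗ[ℝ] ℝ} (h : ∀ i ∈ S, f (p i) = 0) : f = 0 := by
  apply LinearMap.ext_on hS
  rintro _ ⟨i, hi, rfl⟩
  rw [h i hi]; rfl

lemma span_insert_top {p : ι → V} {s T : Finset ι} {n : ℕ} (hV : Module.finrank ℝ V = n + 1)
    (hT : T ∈ facesR p s n) {i : ι} (hi : i ∈ s) (hiT : i ∉ T) :
    span ℝ (p '' ((insert i T : Finset ι) : Set ι)) = ⊤ := by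
  have : FiniteDimensional ℝ V := Module.finite_of_finrank_eq_succ hV
  rw [mem_facesR] at hT
  have h1 := hT.1.rk_lt (J := insert i T) (insert_subset hi hT.1.1)
    ⟨subset_insert _ _, fun h => hiT (h (mem_insert_self _ _))⟩
  apply Submodule.eq_top_of_finrank_eq
  have h2 : rk p (insert i T) ≤ Module.finrank ℝ V := Submodule.finrank_le _
  have h3 : rk p (insert i T) = Module.finrank ℝ (span ℝ (p '' ((insert i T : Finset ι) : Set ι))) :=
    rfl
  omega

/-- **Rigidity, rank four, spanning version.** -/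
theorem rigid4_top (hV : Module.finrank ℝ V = 4) {p : ι → V} {s : Finset ι} (h0 : IsFace p s ∅)
    (hr : Red p s) (hrk : rk p s = 4) {Y : ι → V →ₗ[ℝ] ℝ}
    (hY : ∀ T ∈ facesR p s 3, Con p Y T) :
    ∃ B : V →ₗ[ℝ] V →ₗ[ℝ] ℝ, Alt B ∧ ∀ i ∈ s, Y i = B (p i) := by
  classical
  obtain ⟨T₀, hT₀f, -, hT₀r⟩ := exists_face_rk h0 3 (by rw [rk_empty]; omega) (by omega)
  have hT₀ : T₀ ∈ facesR p s 3 := mem_facesR.2 ⟨hT₀f, hT₀r⟩
  obtain ⟨hT₀s, lam, lam0, lamp⟩ := id hT₀f
  obtain ⟨B0, hB0, hB0Y⟩ := exists_alt_of_con p Y T₀ (hY T₀ hT₀)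
  set Y1 : ι → V →ₗ[ℝ] ℝ := fun i => Y i - B0 (p i) with hY1d
  have hY1 : ∀ T ∈ facesR p s 3, Con p Y1 T := fun T hT => (hY T hT).sub_alt hB0
  have hY1z : ∀ i ∈ T₀, ∀ j ∈ T₀, Y1 i (p j) = 0 := by
    intro i hi j hj
    simp only [hY1d, LinearMap.sub_apply, hB0Y i hi j hj, sub_self]
  have hne : ∃ i ∈ s, i ∉ T₀ := by
    by_contra hcon
    push Not at hcon
    have : T₀ = s := Subset.antisymm hT₀s hcon
    rw [this] at hT₀r
    omega
  -- positive exactly off T₀
  have hpos_iff : ∀ i ∈ s, (0 < lam (p i) ↔ i ∉ T₀) := by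
    intro i hi
    constructor
    · intro h1 h2
      rw [lam0 i h2] at h1
      exact lt_irrefl _ h1
    · exact lamp i hi
  have harm : ∀ w : ι → ℝ, (∀ j ∈ T₀, 0 < w j) →
      ∃ M : ℝ, ∀ i ∈ s, Y1 i (∑ j ∈ T₀, w j • p j) = M * lam (p i) := by
    intro w hw
    set o := ∑ j ∈ T₀, w j • p j with ho
    have hlo : lam o = 0 := by
      rw [ho, map_sum]
      apply Finset.sum_eq_zero
      intro j hj
      rw [map_smul, lam0 j hj, smul_zero]
    have hT₀o : ∀ i ∈ T₀, Y1 i o = 0 := by
      intro i hi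
      rw [ho, map_sum]
      apply Finset.sum_eq_zero
      intro j hj
      rw [map_smul, hY1z i hi j hj, smul_zero]
    set A := s.filter fun i => 0 < lam (p i) with hA
    have hAne : A.Nonempty := by
      obtain ⟨i, hi, hiT⟩ := hne
      exact ⟨i, mem_filter.2 ⟨hi, lamp i hi hiT⟩⟩
    obtain ⟨a, ha, hmax⟩ := exists_max_image A (fun i => Y1 i o / lam (p i)) hAne
    set M := Y1 a o / lam (p a) with hM
    set Z := A.filter fun i => Y1 i o = M * lam (p i) with hZ
    have haZ : a ∈ Z := by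
      rw [hZ, mem_filter, hM]
      have := (mem_filter.1 ha).2.ne'
      exact ⟨ha, by field_simp⟩
    have hcl : ∀ i ∈ Z, ∀ k, Adj p s i k → 0 < lam (p k) → k ∈ Z := by
      intro i hi k hik hk
      rw [hZ, mem_filter, hA, mem_filter] at hi
      obtain ⟨⟨his, hip⟩, hiM⟩ := hi
      obtain ⟨c, hc, hsum⟩ := vertex_rel hV h0 hr hrk hY1 lam hip o hlo (by
        intro T hT hiT l l0 lp
        rw [ho, map_sum]
        have hnn : ∀ j ∈ T₀, 0 ≤ l (w j • p j) := by
          intro j hj
          rw [map_smul, smul_eq_mul]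
          by_cases hjT : j ∈ T
          · rw [l0 j hjT, mul_zero]
          · exact (mul_pos (hw j hj) (lp j (hT₀s hj) hjT)).le
        apply Finset.sum_pos' hnn
        by_contra hcon
        push Not at hcon
        have hsub : T₀ ⊆ T := by
          intro j hj
          by_contra hjT
          have h1 := hcon j hj
          rw [map_smul, smul_eq_mul] at h1
          have := mul_pos (hw j hj) (lp j (hT₀s hj) hjT)
          linarith
        have hTf := mem_facesR.1 hT
        have : T₀ = T := hT₀f.eq_of_rk_le hTf.1.1 hsub (by omega)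
        rw [← this] at hiT
        rw [lam0 i hiT] at hip
        exact lt_irrefl _ hip)
      have hterm : ∀ j ∈ nb p s i, c j * (lam (p i) * Y1 j o - lam (p j) * Y1 i o) ≤ 0 := by
        intro j hj
        have hjs := (mem_nb.1 hj).right
        apply mul_nonpos_of_nonneg_of_nonpos (hc j hj).le
        by_cases hjT : j ∈ T₀
        · rw [hT₀o j hjT, lam0 j hjT]; simp
        · have hjp := lamp j hjs hjT
          have h1 := hmax j (mem_filter.2 ⟨hjs, hjp⟩)
          rw [div_le_iff₀ hjp] at h1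
          rw [hiM]
          have := mul_le_mul_of_nonneg_left h1 hip.le
          linarith
      have hz := (Finset.sum_eq_zero_iff_of_nonpos hterm).1 hsum k (mem_nb.2 hik)
      have h2 := (mul_eq_zero.1 hz).resolve_left (hc k (mem_nb.2 hik)).ne'
      rw [hiM] at h2
      rw [hZ, mem_filter, hA, mem_filter]
      refine ⟨⟨hik.right, hk⟩, ?_⟩
      have h3 : lam (p i) * (Y1 k o - M * lam (p k)) = 0 := by linarith
      have := (mul_eq_zero.1 h3).resolve_left hip.ne'
      linarith
    refine ⟨M, fun i hi => ?_⟩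
    by_cases hiT : i ∈ T₀
    · rw [hT₀o i hiT, lam0 i hiT, mul_zero]
    · have := connected_pos h0 hr lam (Z := Z) (by
        intro j hj
        rw [hZ, mem_filter, hA, mem_filter] at hj
        exact hj.1) ⟨a, haZ⟩ hcl hi (lamp i hi hiT)
      exact (mem_filter.1 this).2
  obtain ⟨i₁, hi₁, hi₁T⟩ := hne
  have hl₁ := lamp i₁ hi₁ hi₁T
  set κ : V →ₗ[ℝ] ℝ := (1 / lam (p i₁)) • Y1 i₁ with hκ
  have hκv : ∀ j ∈ T₀, ∀ i ∈ s, Y1 i (p j) = κ (p j) * lam (p i) := by
    intro j hj i hi
    obtain ⟨M, hM⟩ := harm (fun _ => 1) (fun _ _ => one_pos)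
    obtain ⟨M', hM'⟩ := harm (fun k => if k = j then 2 else 1) (fun k _ => by
      split_ifs <;> norm_num)
    have hdiff : ∑ k ∈ T₀, (if k = j then (2 : ℝ) else 1) • p k =
        ∑ k ∈ T₀, (1 : ℝ) • p k + p j := by
      have : ∀ k ∈ T₀, (if k = j then (2 : ℝ) else 1) • p k =
          (1 : ℝ) • p k + (if k = j then p k else 0) := by
        intro k _
        split_ifs with h
        · rw [one_smul, two_smul]
        · simp
      rw [Finset.sum_congr rfl this, Finset.sum_add_distrib]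
      simp [hj]
    have hgen : ∀ k ∈ s, Y1 k (p j) = (M' - M) * lam (p k) := by
      intro k hk
      have h1 := hM k hk
      have h2 := hM' k hk
      rw [hdiff, map_add, h1] at h2
      linarith
    have h3 := hgen i₁ hi₁
    have h4 : κ (p j) = M' - M := by
      rw [hκ, LinearMap.smul_apply, h3, smul_eq_mul]
      field_simp
    rw [h4]
    exact hgen i hi
  let B1 : V →ₗ[ℝ] V →ₗ[ℝ] ℝ := lam.smulRight κ - κ.smulRight lam
  have hB1v : ∀ x y, B1 x y = lam x * κ y - κ x * lam y := fun x y => by simp [B1]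
  have hB1 : Alt B1 := fun x => by rw [hB1v]; ring
  set Y2 : ι → V →ₗ[ℝ] ℝ := fun i => Y1 i - B1 (p i) with hY2d
  have hY2 : ∀ T ∈ facesR p s 3, Con p Y2 T := fun T hT => (hY1 T hT).sub_alt hB1
  have hY2z : ∀ i ∈ s, ∀ j ∈ T₀, Y2 i (p j) = 0 := by
    intro i hi j hj
    simp only [hY2d, LinearMap.sub_apply, hB1v, hκv j hj i hi, lam0 j hj]
    ring
  -- every vertex has a facet
  have hfacet : ∀ i ∈ s, ∃ T ∈ facesR p s 3, i ∈ T ∧ T ≠ T₀ := by
    intro i hi
    obtain ⟨E, hE, hiE, hEr⟩ := exists_face_rk (hr i hi) 2 (by rw [Red.rk_one h0 hi]; omega)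
      (by omega)
    obtain ⟨T, T', hT, hT', hTT, hET, hET', -, -⟩ :=
      exists_two_facets (mem_facesR.2 ⟨hE, hEr⟩) (by omega)
    by_cases h : T = T₀
    · refine ⟨T', hT', hET' (hiE (mem_singleton_self i)), ?_⟩
      rw [← h]; exact hTT.symm
    · exact ⟨T, hT, hET (hiE (mem_singleton_self i)), h⟩
  have hoff : ∀ i ∈ s, i ∉ T₀ → Y2 i = 0 := by
    intro i hi hiT
    apply eq_zero_of_span (span_insert_top hV hT₀ hi hiT)
    intro j hj
    rcases mem_insert.1 hj with rfl | hj
    · obtain ⟨T, hT, hjT, -⟩ := hfacet _ hi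
      exact (hY2 T hT).self hjT
    · exact hY2z i hi j hj
  have hon : ∀ i ∈ T₀, Y2 i = 0 := by
    intro i hi
    obtain ⟨T, hT, hiT, hTne⟩ := hfacet i (hT₀s hi)
    have hTf := mem_facesR.1 hT
    obtain ⟨j, hjT, hjT₀⟩ : ∃ j ∈ T, j ∉ T₀ := by
      by_contra hcon
      push Not at hcon
      exact hTne (hTf.1.eq_of_rk_le hT₀s hcon (by omega))
    have hjs := hTf.1.1 hjT
    apply eq_zero_of_span (span_insert_top hV hT₀ hjs hjT₀)
    intro k hk
    rcases mem_insert.1 hk with rfl | hk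
    · have h1 := hY2 T hT i hiT _ hjT
      rw [hoff _ hjs hjT₀, LinearMap.zero_apply, add_zero] at h1
      exact h1
    · exact hY2z i (hT₀s hi) k hk
  refine ⟨B0 + B1, hB0.add hB1, fun i hi => ?_⟩
  have h1 : Y2 i = 0 := by
    by_cases h : i ∈ T₀
    · exact hon i h
    · exact hoff i hi h
  have h2 : Y i = B0 (p i) + (B1 (p i) + Y2 i) := by
    simp only [hY2d, hY1d]
    abel
  rw [h2, h1, add_zero]
  rfl

/-- **Rigidity, rank four.** -/
theorem rigid4 {p : ι → V} {s : Finset ι} (h0 : IsFace p s ∅)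
    (hr : Red p s) (hrk : rk p s = 4) {Y : ι → V →ₗ[ℝ] ℝ}
    (hY : ∀ T ∈ facesR p s 3, Con p Y T) :
    ∃ B : V →ₗ[ℝ] V →ₗ[ℝ] ℝ, Alt B ∧ ∀ i ∈ s, ∀ j ∈ s, Y i (p j) = B (p i) (p j) := by
  classical
  set W := span ℝ (p '' (s : Set ι)) with hW
  have hWr : Module.finrank ℝ W = 4 := hrk
  obtain ⟨f, hf⟩ := LinearMap.exists_leftInverse_of_injective W.subtype
    (LinearMap.ker_eq_bot.2 W.injective_subtype)
  have hfv : ∀ x (hx : x ∈ W), f x = ⟨x, hx⟩ := by
    intro x hx
    have := congrArg (fun h => h ⟨x, hx⟩) hf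
    simpa using this
  have hinj : ∀ w ∈ span ℝ (p '' (s : Set ι)), f w = 0 → w = 0 := by
    intro w hw h
    rw [hfv w hw] at h
    exact congrArg Subtype.val h
  have hmem : ∀ i ∈ s, p i ∈ W := fun i hi => subset_span (Set.mem_image_of_mem p hi)
  have hF : ∀ J, IsFace (fun i => f (p i)) s J ↔ IsFace p s J := fun J => isFace_map f hinj
  have hR : ∀ J ⊆ s, rk (fun i => f (p i)) J = rk p J := fun J hJ => rk_map f hinj hJ
  have hfR : ∀ r, facesR (fun i => f (p i)) s r = facesR p s r := by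
    intro r
    ext J
    rw [mem_facesR, mem_facesR, hF]
    constructor
    · rintro ⟨h1, h2⟩; exact ⟨h1, by rw [← hR J h1.1]; exact h2⟩
    · rintro ⟨h1, h2⟩; exact ⟨h1, by rw [hR J h1.1]; exact h2⟩
  obtain ⟨B', hB', hYB⟩ := rigid4_top (V := W) hWr (p := fun i => f (p i)) (s := s)
    ((hF ∅).2 h0) (fun i hi => (hF {i}).2 (hr i hi)) (by rw [hR s (Subset.refl _)]; exact hrk)
    (Y := fun i => Y i ∘ₗ W.subtype) (by
      intro T hT i hi j hj
      rw [hfR] at hT
      have hTs := (mem_facesR.1 hT).1.1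
      have := hY T hT i hi j hj
      simp only [LinearMap.comp_apply, hfv _ (hmem i (hTs hi)), hfv _ (hmem j (hTs hj)),
        Submodule.subtype_apply]
      exact this)
  refine ⟨(B'.compl₂ f) ∘ₗ f, fun x => ?_, fun i hi j hj => ?_⟩
  · simp only [LinearMap.comp_apply, LinearMap.compl₂_apply]
    exact hB' _
  · have h1 := hYB i hi
    have h2 := congrArg (fun g => g (f (p j))) h1
    simp only [LinearMap.comp_apply, LinearMap.compl₂_apply] at h2 ⊢
    rw [← h2, hfv _ (hmem j hj), Submodule.subtype_apply]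

end Pool.Agent.Lib_helper40.Kal
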