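import Pool.Agent.Lib_helper40.Kal.Rig3

/-!
Infinitesimal rigidity of 4-polytopes with rigid 2-faces (rank five families).
-/

set_option autoImplicit false
set_option linter.unusedSectionVars false

namespace Pool.Agent.Lib_helper40.Kal

open Finset Submodule

universe u v
variable {ι : Type u} [DecidableEq ι] {V : Type v} [AddCommGroup V] [Module ℝ V]

lemma bilin_ext {p : ι → V} {S : Finset ι} {B C : V →ₗ[ℝ] V →ₗ[ℝ] ℝ}
    (h : ∀ i ∈ S, ∀ j ∈ S, B (p i) (p j) = C (p i) (p j)) {x y : V}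
    (hx : x ∈ span ℝ (p '' (S : Set ι))) (hy : y ∈ span ℝ (p '' (S : Set ι))) :
    B x y = C x y := by
  have h1 : ∀ i ∈ S, B (p i) y = C (p i) y := by
    intro i hi
    have : ∀ z ∈ p '' (S : Set ι), (B (p i)) z = (C (p i)) z := by
      rintro _ ⟨j, hj, rfl⟩
      exact h i hi j hj
    exact LinearMap.eqOn_span this hy
  have h2 : ∀ z ∈ p '' (S : Set ι), (B.flip y) z = (C.flip y) z := by
    rintro _ ⟨i, hi, rfl⟩
    simpa using h1 i hi
  have := LinearMap.eqOn_span h2 hx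
  simpa using this

/-- local forms at a vertex -/
lemma exists_local (hV : Module.finrank ℝ V = 5) {p : ι → V} {s : Finset ι} (h0 : IsFace p s ∅)
    (hr : Red p s) (hrk : rk p s = 5) {Y : ι → V →ₗ[ℝ] ℝ}
    (hY : ∀ F ∈ facesR p s 4, Con p Y F) {v : ι} (hv : v ∈ s) :
    ∃ B : V →ₗ[ℝ] V →ₗ[ℝ] ℝ, Alt B ∧ ∀ i ∈ insert v (nb p s v), Y i = B (p i) := by
  classical
  have : FiniteDimensional ℝ V := Module.finite_of_finrank_eq_succ hV
  have hsp : span ℝ (p '' (s : Set ι)) = ⊤ := by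
    apply Submodule.eq_top_of_finrank_eq
    rw [hV]; exact hrk
  have hpv : p v ≠ 0 := by
    intro h
    obtain ⟨_, l, _, lp⟩ := h0
    have := lp v hv (by simp)
    rw [h] at this
    simp at this
  obtain ⟨m, hm⟩ : ∃ m : V →ₗ[ℝ] ℝ, m (p v) = 1 := by
    obtain ⟨m', -, hm'⟩ := exists_dual_of_notMem (W := (⊥ : Submodule ℝ V)) (x := p v)
      (by simpa using hpv)
    exact ⟨(1 / m' (p v)) • m', by simp [hm']⟩
  have hface : ∀ k, Adj p s v k → ∃ F ∈ facesR p s 4, v ∈ F ∧ k ∈ F := by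
    intro k hk
    obtain ⟨F, hF, hEF, hFr⟩ := exists_face_rk hk.2 4 (by rw [hk.rk_eq h0 hr]; omega) (by omega)
    exact ⟨F, mem_facesR.2 ⟨hF, hFr⟩, hEF (by simp), hEF (by simp)⟩
  have hYv : Y v (p v) = 0 := by
    obtain ⟨F, hF, hvF, hFr⟩ := exists_face_rk (hr v hv) 4 (by rw [Red.rk_one h0 hv]; omega)
      (by omega)
    exact (hY F (mem_facesR.2 ⟨hF, hFr⟩)).self (hvF (mem_singleton_self v))
  let B0 : V →ₗ[ℝ] V →ₗ[ℝ] ℝ := m.smulRight (Y v) - (Y v).smulRight m
  have hB0v : ∀ x y, B0 x y = m x * Y v y - Y v x * m y := fun x y => by simp [B0]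
  have hB0 : Alt B0 := fun x => by rw [hB0v]; ring
  set Y' : ι → V →ₗ[ℝ] ℝ := fun i => Y i - B0 (p i) with hY'd
  have hY' : ∀ F ∈ facesR p s 4, Con p Y' F := fun F hF => (hY F hF).sub_alt hB0
  have hY'v : Y' v = 0 := by
    ext x
    simp only [hY'd, LinearMap.sub_apply, hB0v, hm, hYv, LinearMap.zero_apply]
    ring
  have hY'kv : ∀ k, Adj p s v k → Y' k (p v) = 0 := by
    intro k hk
    obtain ⟨F, hF, hvF, hkF⟩ := hface k hk
    have := hY' F hF k hkF v hvF
    rw [hY'v, LinearMap.zero_apply, add_zero] at this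
    exact this
  set N := nb p s v with hN
  have hNs : N ⊆ s \ {v} := by
    intro k hk
    have := mem_nb.1 hk
    rw [mem_sdiff, mem_singleton]
    exact ⟨this.right, this.1.symm⟩
  have hvf := hr v hv
  have hq0 : IsFace (qf p {v}) (s \ {v}) ∅ := pointed_interval hvf (isFace_self p s) hvf.1
  have hrkv : rk p {v} = 1 := Red.rk_one h0 hv
  have hmeet : Meets (qf p {v}) (s \ {v}) N := by
    intro R hR
    rw [mem_facesR, isFace_quot hvf.1] at hR
    obtain ⟨⟨hR1, hR2⟩, hR3⟩ := hR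
    have hE : ({v} ∪ R) ∈ facesR p s 2 := by
      rw [mem_facesR]
      refine ⟨hR2, ?_⟩
      have := rk_quot p {v} R
      omega
    obtain ⟨k, hk, hadj⟩ := hr.edge_eq h0 hE (i := v) (by simp)
    have hkR : k ∈ R := by
      have : k ∈ ({v} ∪ R : Finset ι) := by rw [hk]; simp
      rw [mem_union, mem_singleton] at this
      rcases this with h | h
      · exact absurd h.symm hadj.1
      · exact h
    exact ⟨k, mem_inter.2 ⟨hkR, mem_nb.2 hadj⟩⟩
  have hqN0 : IsFace (qf p {v}) N ∅ := by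
    have := hq0.sub hNs
    simpa using this
  have hqNr : Red (qf p {v}) N := by
    intro k hk
    have hk' := mem_nb.1 hk
    have h1 : IsFace (qf p {v}) (s \ {v}) {k} := by
      rw [isFace_quot hvf.1]
      refine ⟨singleton_subset_iff.2 (hNs hk), ?_⟩
      have : ({v} ∪ {k} : Finset ι) = {v, k} := by ext j; simp
      rw [this]
      exact hk'.2
    have h2 := h1.sub hNs
    have h3 : ({k} ∩ N : Finset ι) = {k} := by
      ext j
      simp only [mem_inter, mem_singleton]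
      constructor
      · rintro ⟨h, -⟩; exact h
      · rintro rfl; exact ⟨rfl, hk⟩
    rwa [h3] at h2
  have hqNrk : rk (qf p {v}) N = 4 := by
    have h1 : rk (qf p {v}) N = rk (qf p {v}) (s \ {v}) := by
      unfold rk
      rw [hmeet.span_eq hq0 hNs]
    have h2 := rk_interval (p := p) hvf.1
    omega
  have hkerN : ∀ k ∈ N, span ℝ (p '' (({v} : Finset ι) : Set ι)) ≤ LinearMap.ker (Y' k) := by
    intro k hk
    apply le_ker_of_zero
    intro j hj
    rw [mem_singleton] at hj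
    rw [hj]
    exact hY'kv k (mem_nb.1 hk)
  let Yb : ι → (V ⧸ span ℝ (p '' (({v} : Finset ι) : Set ι))) →ₗ[ℝ] ℝ := fun k =>
    if h : span ℝ (p '' (({v} : Finset ι) : Set ι)) ≤ LinearMap.ker (Y' k) then
      liftQ _ (Y' k) h else 0
  have hYb : ∀ k ∈ N, ∀ j, Yb k (qf p {v} j) = Y' k (p j) := by
    intro k hk j
    simp only [Yb, dif_pos (hkerN k hk), qf, mkQ_apply, liftQ_apply]
  obtain ⟨Bb, hBb, hYBb⟩ := rigid4 hqN0 hqNr hqNrk (Y := Yb) (by
    intro T hT i hi j hj
    rw [mem_facesR] at hT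
    have hiN := hT.1.1 hi
    have hjN := hT.1.1 hj
    rw [hYb i hiN, hYb j hjN]
    obtain ⟨I, hI, hIT⟩ := hmeet.lift hq0 hNs hT.1
    have hIr : rk (qf p {v}) I = 3 := by
      rw [← hmeet.rk_inter hq0 hI, hIT]; exact hT.2
    rw [isFace_quot hvf.1] at hI
    have hF : ({v} ∪ I) ∈ facesR p s 4 := by
      rw [mem_facesR]
      refine ⟨hI.2, ?_⟩
      have := rk_quot p {v} I
      omega
    have hsub : ∀ k ∈ T, k ∈ ({v} ∪ I : Finset ι) := by
      intro k hk
      rw [← hIT] at hk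
      exact mem_union_right _ (mem_inter.1 hk).1
    exact hY' _ hF i (hsub i hi) j (hsub j hj))
  let B1 : V →ₗ[ℝ] V →ₗ[ℝ] ℝ :=
    Bb.compl₁₂ (span ℝ (p '' (({v} : Finset ι) : Set ι))).mkQ
      (span ℝ (p '' (({v} : Finset ι) : Set ι))).mkQ
  have hB1v : ∀ x y, B1 x y = Bb ((span ℝ (p '' (({v} : Finset ι) : Set ι))).mkQ x)
      ((span ℝ (p '' (({v} : Finset ι) : Set ι))).mkQ y) := fun x y => by
    simp only [B1, LinearMap.compl₁₂_apply]
  have hB1 : Alt B1 := fun x => by rw [hB1v]; exact hBb _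
  have hqv : (span ℝ (p '' (({v} : Finset ι) : Set ι))).mkQ (p v) = 0 :=
    qf_eq_zero (p := p) (I := {v}) (mem_singleton_self v)
  refine ⟨B0 + B1, hB0.add hB1, ?_⟩
  have hspan : span ℝ (p '' ((insert v N : Finset ι) : Set ι)) = ⊤ := by
    rw [hN, nb_span h0 hr hv, hsp]
  intro i hi
  rw [← sub_eq_zero]
  apply eq_zero_of_span hspan
  intro j hj
  have hval : (Y i - (B0 + B1) (p i)) (p j) = Y' i (p j) - B1 (p i) (p j) := by
    simp only [hY'd, LinearMap.sub_apply, LinearMap.add_apply]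
    ring
  rw [hval]
  rcases mem_insert.1 hi with rfl | hiN
  · rw [hY'v, hB1v, hqv]; simp
  · rcases mem_insert.1 hj with rfl | hjN
    · rw [hY'kv i (mem_nb.1 hiN), hB1v, hqv]; simp
    · rw [← hYb i hiN j, hYBb i hiN j hjN, hB1v]
      simp only [qf, sub_self]

/-- **Rigidity, rank five.** -/
theorem rigid5 (hV : Module.finrank ℝ V = 5) {p : ι → V} {s : Finset ι} (h0 : IsFace p s ∅)
    (hr : Red p s) (hrk : rk p s = 5) {Y : ι → V →ₗ[ℝ] ℝ}
    (hY : ∀ T ∈ facesR p s 3, Con p Y T) :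
    ∃ B : V →ₗ[ℝ] V →ₗ[ℝ] ℝ, Alt B ∧ ∀ i ∈ s, Y i = B (p i) := by
  classical
  have : FiniteDimensional ℝ V := Module.finite_of_finrank_eq_succ hV
  have hsp : span ℝ (p '' (s : Set ι)) = ⊤ := by
    apply Submodule.eq_top_of_finrank_eq
    rw [hV]; exact hrk
  have h4 : ∀ F ∈ facesR p s 4, ∃ B : V →ₗ[ℝ] V →ₗ[ℝ] ℝ, Alt B ∧
      ∀ i ∈ F, ∀ j ∈ F, Y i (p j) = B (p i) (p j) := by
    intro F hF
    have hF' := mem_facesR.1 hF
    apply rigid4 ((isFace_restrict hF'.1).2 ⟨h0, empty_subset _⟩) (hr.restrict hF'.1) hF'.2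
    intro T hT
    apply hY
    rw [mem_facesR, isFace_restrict hF'.1] at hT
    exact mem_facesR.2 ⟨hT.1.1, hT.2⟩
  have hY4 : ∀ F ∈ facesR p s 4, Con p Y F := by
    intro F hF i hi j hj
    obtain ⟨B, hB, hBY⟩ := h4 F hF
    rw [hBY i hi j hj, hBY j hj i hi, hB.swap]
    ring
  have hloc := fun v (hv : v ∈ s) => exists_local hV h0 hr hrk hY4 hv
  choose! B hBalt hBY using hloc
  -- agreement along edges
  have hagree : ∀ v w, Adj p s v w → B v = B w := by
    intro v w hvw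
    have hv := hvw.left
    have hw := hvw.right
    set D := B v - B w with hD
    have hFz : ∀ F ∈ facesR p s 4, v ∈ F → w ∈ F → ∀ x ∈ span ℝ (p '' (F : Set ι)),
        ∀ y ∈ span ℝ (p '' (F : Set ι)), D x y = 0 := by
      intro F hF hvF hwF x hx y hy
      obtain ⟨C, hC, hCY⟩ := h4 F hF
      have hF' := mem_facesR.1 hF
      have h0F : IsFace p F ∅ := (isFace_restrict hF'.1).2 ⟨h0, empty_subset _⟩
      have hrF := hr.restrict hF'.1
      have hgen : ∀ u ∈ F, u ∈ s → B u x y = C x y := by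
        intro u huF hus
        have hsub : ∀ i ∈ insert u (nb p F u), i ∈ F ∧ i ∈ insert u (nb p s u) := by
          intro i hi
          rcases mem_insert.1 hi with rfl | hi
          · exact ⟨huF, mem_insert_self _ _⟩
          · have h1 := mem_nb.1 hi
            refine ⟨h1.right, mem_insert_of_mem (mem_nb.2 ?_)⟩
            exact (adj_restrict hF'.1 h1.left h1.right).1 h1
        rw [← nb_span h0F hrF huF] at hx hy
        refine bilin_ext (S := insert u (nb p F u)) ?_ hx hy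
        intro i hi j hj
        rw [← hBY u hus i (hsub i hi).2]
        exact hCY i (hsub i hi).1 j (hsub j hj).1
      rw [hD]
      simp only [LinearMap.sub_apply]
      rw [hgen v hvF hv, hgen w hwF hw, sub_self]
    have hTz : ∀ T ∈ facesR p s 3, v ∈ T → w ∈ T → ∀ i ∈ T, D (p i) = 0 := by
      intro T hT hvT hwT i hi
      obtain ⟨F, F', hF, hF', hne, hTF, hTF', -, -⟩ := exists_two_facets hT (by omega)
      have f1 := mem_facesR.1 hF
      have f2 := mem_facesR.1 hF'
      obtain ⟨j, hjF', hjF⟩ : ∃ j ∈ F', j ∉ F := by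
        by_contra hcon
        push Not at hcon
        exact hne (f2.1.eq_of_rk_le f1.1.1 hcon (by omega)).symm
      apply eq_zero_of_span (span_insert_top hV hF (f2.1.1 hjF') hjF)
      intro k hk
      rcases mem_insert.1 hk with rfl | hk
      · exact hFz F' hF' (hTF' hvT) (hTF' hwT) _ (subset_span (Set.mem_image_of_mem p (hTF' hi)))
          _ (subset_span (Set.mem_image_of_mem p hjF'))
      · exact hFz F hF (hTF hvT) (hTF hwT) _ (subset_span (Set.mem_image_of_mem p (hTF hi)))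
          _ (subset_span (Set.mem_image_of_mem p hk))
    have hE2 : rk p {v, w} = 2 := hvw.rk_eq h0 hr
    obtain ⟨T₁, hT₁, hET₁, hT₁r⟩ := exists_face_rk hvw.2 3 (by omega) (by omega)
    have hDv : ∀ i ∈ ({v, w} : Finset ι), D (p i) = 0 := fun i hi =>
      hTz T₁ (mem_facesR.2 ⟨hT₁, hT₁r⟩) (hET₁ (by simp)) (hET₁ (by simp)) i (hET₁ hi)
    have hall : ∀ j ∈ s, p j ∈ LinearMap.ker D := by
      intro j hj
      by_contra hn
      obtain ⟨m, hm0, hmj⟩ := exists_dual_of_notMem hn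
      have key : ∀ m : V →ₗ[ℝ] ℝ, (∀ x ∈ LinearMap.ker D, m x = 0) → 0 < m (p j) → False := by
        intro m hm0 hmj
        have hker : span ℝ (p '' (({v, w} : Finset ι) : Set ι)) ≤ LinearMap.ker m :=
          le_ker_of_zero fun i hi => hm0 _ (LinearMap.mem_ker.2 (hDv i hi))
        set hb : (V ⧸ span ℝ (p '' (({v, w} : Finset ι) : Set ι))) →ₗ[ℝ] ℝ :=
          liftQ _ m hker with hhb
        have hbv : ∀ k, hb (qf p {v, w} k) = m (p k) := fun k => by simp [hhb, qf]
        have hq0 := pointed_interval hvw.2 (isFace_self p s) hvw.2.1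
        have hjE : j ∉ ({v, w} : Finset ι) := by
          intro h
          rw [hm0 _ (LinearMap.mem_ker.2 (hDv j h))] at hmj
          exact lt_irrefl _ hmj
        obtain ⟨R, hR, hpos⟩ := exists_ray_pos hq0 hb (i₀ := j) (mem_sdiff.2 ⟨hj, hjE⟩)
          (by rw [hbv]; exact hmj)
        rw [mem_facesR, isFace_quot hvw.2.1] at hR
        obtain ⟨⟨hR1, hR2⟩, hR3⟩ := hR
        obtain ⟨i, hi⟩ := rk_pos_nonempty (p := qf p {v, w}) (I := R) (by omega)
        have hT : ({v, w} ∪ R) ∈ facesR p s 3 := by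
          rw [mem_facesR]
          refine ⟨hR2, ?_⟩
          have := rk_quot p {v, w} R
          omega
        have h1 := hTz _ hT (by simp) (by simp) i (mem_union_right _ hi)
        have h2 := hpos i hi
        rw [hbv, hm0 _ (LinearMap.mem_ker.2 h1)] at h2
        exact lt_irrefl _ h2
      rcases lt_or_gt_of_ne hmj with h1 | h1
      · exact key (-m) (fun w hw => by simp [hm0 w hw]) (by simpa using h1)
      · exact key m hm0 h1
    have hD0 : D = 0 := by
      apply LinearMap.ext_on hsp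
      rintro _ ⟨j, hj, rfl⟩
      rw [LinearMap.zero_apply]
      exact LinearMap.mem_ker.1 (hall j hj)
    exact sub_eq_zero.1 hD0
  -- connectivity
  obtain ⟨v₀, hv₀⟩ : s.Nonempty := rk_pos_nonempty (p := p) (by omega)
  obtain ⟨_, lam, _, lpos⟩ := id h0
  have lpos : ∀ i ∈ s, 0 < lam (p i) := fun i hi => lpos i hi (by simp)
  refine ⟨B v₀, hBalt v₀ hv₀, fun i hi => ?_⟩
  have := connected_pos h0 hr lam (Z := s.filter fun i => B i = B v₀)
    (fun j hj => ⟨(mem_filter.1 hj).1, lpos j (mem_filter.1 hj).1⟩)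
    ⟨v₀, mem_filter.2 ⟨hv₀, rfl⟩⟩ (by
      intro j hj k hjk _
      rw [mem_filter] at hj ⊢
      exact ⟨hjk.right, by rw [← hagree j k hjk]; exact hj.2⟩) hi (lpos i hi)
  rw [mem_filter] at this
  rw [← this.2]
  exact hBY i hi i (mem_insert_self _ _)

end Pool.Agent.Lib_helper40.Kal
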