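import Pool.Agent.Lib_helper40.Kal.Bridge

set_option autoImplicit false
set_option linter.unusedSectionVars false

namespace Pool.Agent.Lib_helper40.Kal

open Finset Submodule

section general

universe u v w
variable {ι : Type u} [DecidableEq ι] {V : Type v} [AddCommGroup V] [Module ℝ V]
  {V' : Type w} [AddCommGroup V'] [Module ℝ V']

/-- a functional positive somewhere on a face is positive on some ray of it -/
lemma exists_ray_pos {p : ι → V} {s : Finset ι} (h0 : IsFace p s ∅) (m : V →ₗ[ℝ] ℝ)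
    {i₀ : ι} (hi₀ : i₀ ∈ s) (hm : 0 < m (p i₀)) :
    ∃ R ∈ facesR p s 1, ∀ i ∈ R, 0 < m (p i) := by
  classical
  obtain ⟨_, lam, _, lpos⟩ := id h0
  have lpos : ∀ i ∈ s, 0 < lam (p i) := fun i hi => lpos i hi (by simp)
  obtain ⟨a, ha, hmax⟩ := exists_max_image s (fun i => m (p i) / lam (p i)) ⟨i₀, hi₀⟩
  set c := m (p a) / lam (p a) with hc
  have hcpos : 0 < c := lt_of_lt_of_le (div_pos hm (lpos _ hi₀)) (hmax i₀ hi₀)
  have hF := isFace_of_nonneg (p := p) (s := s) (l := c • lam - m) (by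
    intro i hi
    have := hmax i hi
    rw [div_le_iff₀ (lpos i hi)] at this
    simp only [LinearMap.sub_apply, LinearMap.smul_apply, smul_eq_mul]
    linarith)
  set F := s.filter fun i => (c • lam - m) (p i) = 0 with hFd
  have haF : a ∈ F := by
    rw [hFd, mem_filter]
    refine ⟨ha, ?_⟩
    simp only [LinearMap.sub_apply, LinearMap.smul_apply, smul_eq_mul, hc]
    have := (lpos a ha).ne'
    field_simp
    ring
  have hrk : 0 < rk p F := by
    have := h0.rk_lt hF.1 ⟨empty_subset _, fun h => by simpa using h haF⟩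
    omega
  obtain ⟨R, hR, -, hR1⟩ := exists_face_rk ((isFace_restrict hF).2 ⟨h0, empty_subset _⟩) 1
    (by rw [rk_empty]; omega) (by omega)
  have hRs := (isFace_restrict hF).1 hR
  refine ⟨R, mem_facesR.2 ⟨hRs.1, hR1⟩, fun i hi => ?_⟩
  have h1 := (mem_filter.1 (hRs.2 hi)).2
  simp only [LinearMap.sub_apply, LinearMap.smul_apply, smul_eq_mul] at h1
  have h2 := mul_pos hcpos (lpos i (hRs.1.1 hi))
  linarith

/-- faces are determined by the rays they contain -/
lemma subset_of_rays {p : ι → V} {s I J : Finset ι} (h0 : IsFace p s ∅) (hI : IsFace p s I)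
    (hJ : IsFace p s J) (h : ∀ R ∈ facesR p s 1, R ⊆ I → R ⊆ J) : I ⊆ J := by
  by_contra hn
  obtain ⟨i, hi, hiJ⟩ := not_subset.1 hn
  obtain ⟨hJs, l, l0, lp⟩ := hJ
  obtain ⟨R, hR, hRpos⟩ := exists_ray_pos ((isFace_restrict hI).2 ⟨h0, empty_subset _⟩) l hi
    (lp i (hI.1 hi) hiJ)
  rw [mem_facesR] at hR
  have h1 := (isFace_restrict hI).1 hR.1
  have h2 := h R (mem_facesR.2 ⟨h1.1, hR.2⟩) h1.2
  obtain ⟨j, hj⟩ := rk_pos_nonempty (p := p) (I := R) (by omega)
  have := hRpos j hj
  rw [l0 j (h2 hj)] at this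
  exact lt_irrefl _ this

lemma isFace_map {p : ι → V} {s J : Finset ι} (f : V →ₗ[ℝ] V')
    (hf : ∀ w ∈ span ℝ (p '' (s : Set ι)), f w = 0 → w = 0) :
    IsFace (fun i => f (p i)) s J ↔ IsFace p s J := by
  constructor
  · rintro ⟨hJ, l, l0, lp⟩
    exact ⟨hJ, l ∘ₗ f, l0, lp⟩
  · rintro ⟨hJ, l, l0, lp⟩
    set W := span ℝ (p '' (s : Set ι)) with hW
    have hinj : LinearMap.ker (f.domRestrict W) = ⊥ := by
      rw [LinearMap.ker_eq_bot']
      rintro ⟨w, hw⟩ h
      have : w = 0 := hf w hw (by simpa using h)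
      simp [this]
    obtain ⟨g, hg⟩ := LinearMap.exists_leftInverse_of_injective _ hinj
    have hval : ∀ i ∈ s, (l ∘ₗ W.subtype ∘ₗ g) (f (p i)) = l (p i) := by
      intro i hi
      have hpi : p i ∈ W := subset_span (Set.mem_image_of_mem p hi)
      have := congrArg (fun h => h ⟨p i, hpi⟩) hg
      simp only [LinearMap.comp_apply, LinearMap.domRestrict_apply, LinearMap.id_apply] at this
      simp only [LinearMap.comp_apply, this, Submodule.subtype_apply]
    refine ⟨hJ, l ∘ₗ W.subtype ∘ₗ g, fun i hi => ?_, fun i hi hn => ?_⟩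
    · rw [hval i (hJ hi)]; exact l0 i hi
    · rw [hval i hi]; exact lp i hi hn

lemma rk_map {p : ι → V} {s J : Finset ι} (f : V →ₗ[ℝ] V')
    (hf : ∀ w ∈ span ℝ (p '' (s : Set ι)), f w = 0 → w = 0) (hJ : J ⊆ s) :
    rk (fun i => f (p i)) J = rk p J := by
  have h1 : span ℝ ((fun i => f (p i)) '' (J : Set ι)) = (span ℝ (p '' (J : Set ι))).map f := by
    rw [Submodule.map_span, ← Set.image_comp]; rfl
  unfold rk
  rw [h1]
  have hle : span ℝ (p '' (J : Set ι)) ≤ span ℝ (p '' (s : Set ι)) :=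
    span_mono (Set.image_mono (by exact_mod_cast hJ))
  have hinj : Function.Injective (f.domRestrict (span ℝ (p '' (J : Set ι)))) := by
    rw [← LinearMap.ker_eq_bot, LinearMap.ker_eq_bot']
    rintro ⟨w, hw⟩ h
    have : w = 0 := hf w (hle hw) (by simpa using h)
    simp [this]
  have := LinearMap.finrank_range_of_inj hinj
  rw [LinearMap.range_domRestrict] at this
  exact this

end general

section types

variable {ι : Type} [DecidableEq ι] {E : Type} [NormedAddCommGroup E] [NormedSpace ℝ E]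
  [FiniteDimensional ℝ E]

lemma hom_pointed (x : ι → E) (s : Finset ι) : IsFace (hom x) s ∅ :=
  ⟨empty_subset _, LinearMap.snd ℝ E ℝ, by simp, fun i _ _ => by simp [hom]⟩

open Classical in
/-- rays inside a face -/
noncomputable def raysIn (x : ι → E) (I J : Finset ι) : Finset (Finset ι) :=
  (facesR (hom x) I 1).filter fun R => R ⊆ J

lemma raysIn_subset_iff {x : ι → E} {I J J' : Finset ι} (hJ : IsFace (hom x) I J)
    (hJ' : IsFace (hom x) I J') : raysIn x I J ⊆ raysIn x I J' ↔ J ⊆ J' := by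
  classical
  constructor
  · intro h
    refine subset_of_rays (hom_pointed x I) hJ hJ' fun R hR hRJ => ?_
    exact (mem_filter.1 (h (mem_filter.2 ⟨hR, hRJ⟩))).2
  · intro h R hR
    unfold raysIn at hR ⊢
    rw [mem_filter] at hR ⊢
    exact ⟨hR.1, hR.2.trans h⟩

/-- combinatorial code: every polytope has the face lattice of a family of subsets of `Fin n`
with `n` the number of vertices -/
lemma exists_code (x : ι → E) (I : Finset ι) :
    ∃ L : Finset (Finset (Fin (facesR (hom x) I 1).card)),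
      Nonempty ({F : Set E | IsExposed ℝ (hull x I) F} ≃o {A // A ∈ L}) := by
  classical
  set R := facesR (hom x) I 1 with hR
  let e : {r // r ∈ R} ≃ Fin R.card := R.equivFin
  let code : Finset (Finset ι) → Finset (Fin R.card) := fun A =>
    (R.attach.filter fun r => r.1 ∈ A).map e.toEmbedding
  have hcode : ∀ A B, A ⊆ R → (code A ⊆ code B ↔ A ⊆ B) := by
    intro A B hA
    simp only [code, map_subset_map]
    constructor
    · intro h r hr
      have : (⟨r, hA hr⟩ : {r // r ∈ R}) ∈ R.attach.filter fun r => r.1 ∈ A := by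
        simp [hr]
      exact (mem_filter.1 (h this)).2
    · intro h r hr
      rw [mem_filter] at hr ⊢
      exact ⟨hr.1, h hr.2⟩
  have hsub : ∀ J, raysIn x I J ⊆ R := fun J => filter_subset _ _
  let L : Finset (Finset (Fin R.card)) :=
    (I.powerset.filter fun J => IsFace (hom x) I J).image fun J => code (raysIn x I J)
  refine ⟨L, ⟨(faceIso x I).symm.trans ?_⟩⟩
  have hle : ∀ J J' : {J : Finset ι // IsFace (hom x) I J},
      code (raysIn x I J.1) ≤ code (raysIn x I J'.1) ↔ J ≤ J' := by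
    intro J J'
    exact (hcode _ _ (hsub _)).trans (raysIn_subset_iff J.2 J'.2)
  let f : {J : Finset ι // IsFace (hom x) I J} → {A // A ∈ L} := fun J =>
    ⟨code (raysIn x I J.1), mem_image.2 ⟨J.1, mem_filter.2 ⟨mem_powerset.2 J.2.1, J.2⟩, rfl⟩⟩
  have hfle : ∀ J J', f J ≤ f J' ↔ J ≤ J' := fun J J' => hle J J'
  have hfinj : Function.Injective f := fun J J' h =>
    le_antisymm ((hfle J J').1 h.le) ((hfle J' J).1 h.ge)
  have hfsurj : Function.Surjective f := by
    rintro ⟨A, hA⟩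
    obtain ⟨J, hJ, rfl⟩ := mem_image.1 hA
    exact ⟨⟨J, (mem_filter.1 hJ).2⟩, rfl⟩
  exact ⟨Equiv.ofBijective f ⟨hfinj, hfsurj⟩, fun {J J'} => hfle J J'⟩

/-- transfer of a `k`-dimensional polytope to `ℝ^k` -/
lemma exists_transfer (x : ι → E) {I : Finset ι} (hI : I.Nonempty) {k : ℕ}
    (hk : Module.finrank ℝ (vectorSpan ℝ (hull x I)) = k) :
    ∃ y : ι → EuclideanSpace ℝ (Fin k), (∀ J, IsFace (hom y) I J ↔ IsFace (hom x) I J) ∧
      ∀ J ⊆ I, rk (hom y) J = rk (hom x) J := by
  classical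
  obtain ⟨i₀, hi₀⟩ := id hI
  have hvs : vectorSpan ℝ (hull x I) = vectorSpan ℝ (x '' (I : Set ι)) := by
    rw [← direction_affineSpan, ← direction_affineSpan]
    unfold hull
    rw [affineSpan_convexHull]
  rw [hvs] at hk
  set W := vectorSpan ℝ (x '' (I : Set ι)) with hW
  let phi : W ≃ₗ[ℝ] EuclideanSpace ℝ (Fin k) := LinearEquiv.ofFinrankEq _ _ (by
    rw [hk]; simp)
  obtain ⟨g, hg⟩ := LinearMap.exists_extend (phi : W →ₗ[ℝ] EuclideanSpace ℝ (Fin k))
  have hgv : ∀ w (hw : w ∈ W), g w = phi ⟨w, hw⟩ := by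
    intro w hw
    have := congrArg (fun h => h ⟨w, hw⟩) hg
    simpa using this
  let f : E × ℝ →ₗ[ℝ] EuclideanSpace ℝ (Fin k) × ℝ :=
    LinearMap.prod (g ∘ₗ (LinearMap.fst ℝ E ℝ - (LinearMap.snd ℝ E ℝ).smulRight (x i₀)))
      (LinearMap.snd ℝ E ℝ)
  have hfv : ∀ w : E × ℝ, f w = (g (w.1 - w.2 • x i₀), w.2) := fun w => by simp [f]
  have hmem : ∀ w ∈ span ℝ (hom x '' (I : Set ι)), w.1 - w.2 • x i₀ ∈ W := by
    intro w hw
    induction hw using Submodule.span_induction with
    | mem w hw =>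
      obtain ⟨i, hi, rfl⟩ := hw
      simp only [hom, one_smul]
      exact vsub_mem_vectorSpan ℝ (Set.mem_image_of_mem x hi) (Set.mem_image_of_mem x hi₀)
    | zero => simp
    | add a b _ _ ha hb =>
      have : (a + b).1 - (a + b).2 • x i₀ = (a.1 - a.2 • x i₀) + (b.1 - b.2 • x i₀) := by
        simp only [Prod.fst_add, Prod.snd_add, add_smul]; abel
      rw [this]
      exact add_mem ha hb
    | smul c a _ ha =>
      have : (c • a).1 - (c • a).2 • x i₀ = c • (a.1 - a.2 • x i₀) := by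
        simp only [Prod.smul_fst, Prod.smul_snd, smul_sub, smul_smul, smul_eq_mul]
      rw [this]
      exact Submodule.smul_mem _ _ ha
  have hinj : ∀ w ∈ span ℝ (hom x '' (I : Set ι)), f w = 0 → w = 0 := by
    intro w hw h
    rw [hfv, Prod.mk_eq_zero] at h
    have h1 := hmem w hw
    rw [hgv _ h1] at h
    have h2 : (⟨_, h1⟩ : W) = 0 := (LinearEquiv.map_eq_zero_iff phi).1 h.1
    have h3 : w.1 - w.2 • x i₀ = 0 := congrArg Subtype.val h2
    rw [h.2, zero_smul, sub_zero] at h3
    exact Prod.ext h3 h.2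
  refine ⟨fun i => g (x i - x i₀), ?_⟩
  have heq : hom (fun i => g (x i - x i₀)) = fun i => f (hom x i) := by
    funext i
    rw [hfv]
    simp [hom]
  rw [heq]
  exact ⟨fun J => isFace_map f hinj, fun J hJ => rk_map f hinj hJ⟩

/-- **Finiteness of combinatorial types.** -/
theorem exists_list (k N : ℕ) :
    ∃ (m : ℕ) (Q : Fin m → Set (EuclideanSpace ℝ (Fin k))),
      (∀ i, (∃ S : Finset (EuclideanSpace ℝ (Fin k)),
              Q i = convexHull ℝ (S : Set (EuclideanSpace ℝ (Fin k)))) ∧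
            Module.finrank ℝ (vectorSpan ℝ (Q i)) = k) ∧
      ∀ (ι : Type) [DecidableEq ι] (E : Type) [NormedAddCommGroup E] [NormedSpace ℝ E]
        [FiniteDimensional ℝ E] (x : ι → E) (I : Finset ι), I.Nonempty →
        Module.finrank ℝ (vectorSpan ℝ (hull x I)) = k → (facesR (hom x) I 1).card ≤ N →
        ∃ i : Fin m, Nonempty ({G : Set E | IsExposed ℝ (hull x I) G} ≃o
          {G : Set (EuclideanSpace ℝ (Fin k)) | IsExposed ℝ (Q i) G}) := by
  classical
  let T := (n : Fin (N + 1)) × Finset (Finset (Fin n))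
  let good : T → Prop := fun t => ∃ S : Finset (EuclideanSpace ℝ (Fin k)),
    Module.finrank ℝ (vectorSpan ℝ (convexHull ℝ (S : Set (EuclideanSpace ℝ (Fin k))))) = k ∧
    Nonempty ({G : Set (EuclideanSpace ℝ (Fin k)) |
      IsExposed ℝ (convexHull ℝ (S : Set (EuclideanSpace ℝ (Fin k)))) G} ≃o {A // A ∈ t.2})
  let G := {t : T // good t}
  let e : G ≃ Fin (Fintype.card G) := Fintype.equivFin G
  refine ⟨Fintype.card G, fun i => convexHull ℝ ((e.symm i).2.choose : Set _), ?_, ?_⟩
  · intro i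
    exact ⟨⟨_, rfl⟩, (e.symm i).2.choose_spec.1⟩
  · intro ι _ E _ _ _ x I hI hk hN
    obtain ⟨L, ⟨iso⟩⟩ := exists_code x I
    obtain ⟨y, hy, hyr⟩ := exists_transfer x hI hk
    let t : T := ⟨⟨(facesR (hom x) I 1).card, by omega⟩, L⟩
    have hhull : hull y I = convexHull ℝ ((I.image y : Finset _) : Set _) := by
      unfold hull; rw [coe_image]
    have hiso : Nonempty ({G : Set (EuclideanSpace ℝ (Fin k)) | IsExposed ℝ (hull y I) G} ≃o
        {A // A ∈ L}) := by
      refine ⟨(faceIso y I).symm.trans (OrderIso.trans ?_ ((faceIso x I).trans iso))⟩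
      exact ⟨Equiv.subtypeEquivRight (fun J => hy J), fun {a b} => Iff.rfl⟩
    have hgood : good t := by
      refine ⟨I.image y, ?_, ?_⟩
      · rw [← hhull]
        have h1 := rk_hom (x := y) hI
        have h2 := rk_hom (x := x) hI
        have h3 := hyr I (Subset.refl _)
        omega
      · rw [← hhull]
        exact hiso
    refine ⟨e ⟨t, hgood⟩, ?_⟩
    have hch : ∀ (g : G), Nonempty ({G : Set (EuclideanSpace ℝ (Fin k)) |
      IsExposed ℝ (convexHull ℝ (g.2.choose : Set (EuclideanSpace ℝ (Fin k)))) G} ≃o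
        {A // A ∈ g.1.2}) := fun g => g.2.choose_spec.2
    obtain ⟨iso2⟩ := hch (e.symm (e ⟨t, hgood⟩))
    have hsymm : e.symm (e ⟨t, hgood⟩) = ⟨t, hgood⟩ := e.symm_apply_apply _
    refine ⟨iso.trans (OrderIso.trans ?_ iso2.symm)⟩
    rw [hsymm]

end types

end Pool.Agent.Lib_helper40.Kal
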